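import Mathlib

/-!
# Arcs in topological spaces (helper file)
-/

set_option autoImplicit false

open Set Topology Filter

namespace Pool.Agent.Helper43

variable {X : Type*} [TopologicalSpace X]

/-- `IsArc A a b`: the set `A` is the image of an injective path on `[0,1]` from `a` to `b`. -/
def IsArc (A : Set X) (a b : X) : Prop :=
  ∃ f : ℝ → X, ContinuousOn f (Icc 0 1) ∧ InjOn f (Icc 0 1) ∧ f 0 = a ∧ f 1 = b ∧ f '' Icc 0 1 = A

theorem isArc_of_Icc {f : ℝ → X} {s t : ℝ} (h : s < t) (hc : ContinuousOn f (Icc s t))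
    (hi : InjOn f (Icc s t)) : IsArc (f '' Icc s t) (f s) (f t) := by
  have hts : 0 < t - s := sub_pos.2 h
  set g : ℝ → ℝ := fun r => s + r * (t - s) with hg
  have hgm : MapsTo g (Icc 0 1) (Icc s t) := by
    intro r hr
    simp only [hg, mem_Icc] at *
    constructor
    · nlinarith [hr.1, hr.2]
    · nlinarith [hr.1, hr.2]
  have hgs : g '' Icc 0 1 = Icc s t := by
    apply Subset.antisymm (image_subset_iff.2 hgm)
    intro r hr
    refine ⟨(r - s) / (t - s), ⟨?_, ?_⟩, ?_⟩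
    · exact div_nonneg (sub_nonneg.2 hr.1) hts.le
    · rw [div_le_one hts]; linarith [hr.2]
    · simp only [hg]; field_simp; ring
  have hgi : Function.Injective g := by
    intro x y hxy
    simp only [hg] at hxy
    have : x * (t - s) = y * (t - s) := by linarith
    exact mul_right_cancel₀ hts.ne' this
  refine ⟨f ∘ g, ?_, ?_, ?_, ?_, ?_⟩
  · exact hc.comp (by fun_prop) hgm
  · exact hi.comp hgi.injOn hgm
  · simp [hg]
  · simp [hg]
  · rw [image_comp, hgs]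

theorem IsArc.symm {A : Set X} {a b : X} (h : IsArc A a b) : IsArc A b a := by
  obtain ⟨f, hc, hi, h0, h1, hA⟩ := h
  have hm : MapsTo (fun r : ℝ => 1 - r) (Icc 0 1) (Icc 0 1) := by
    intro r hr
    simp only [mem_Icc] at *
    constructor <;> linarith [hr.1, hr.2]
  have hs : (fun r : ℝ => 1 - r) '' Icc 0 1 = Icc 0 1 := by
    apply Subset.antisymm (image_subset_iff.2 hm)
    intro r hr
    exact ⟨1 - r, hm hr, by simp⟩
  refine ⟨f ∘ (fun r => 1 - r), ?_, ?_, ?_, ?_, ?_⟩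
  · exact hc.comp (by fun_prop) hm
  · apply hi.comp _ hm
    intro x _ y _ hxy
    simp only at hxy
    linarith
  · simpa using h1
  · simpa using h0
  · rw [image_comp, hs, hA]

theorem IsArc.left_mem {A : Set X} {a b : X} (h : IsArc A a b) : a ∈ A := by
  obtain ⟨f, hc, hi, h0, h1, hA⟩ := h
  rw [← hA]
  exact ⟨0, by simp, h0⟩

theorem IsArc.right_mem {A : Set X} {a b : X} (h : IsArc A a b) : b ∈ A := h.symm.left_mem

theorem IsArc.ne {A : Set X} {a b : X} (h : IsArc A a b) : a ≠ b := by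
  obtain ⟨f, hc, hi, h0, h1, hA⟩ := h
  intro hab
  have : (0 : ℝ) = 1 := hi (by simp) (by simp) (by rw [h0, h1, hab])
  exact zero_ne_one this

theorem IsArc.isCompact {A : Set X} {a b : X} (h : IsArc A a b) : IsCompact A := by
  obtain ⟨f, hc, hi, h0, h1, hA⟩ := h
  rw [← hA]
  exact isCompact_Icc.image_of_continuousOn hc

theorem IsArc.isClosed [T2Space X] {A : Set X} {a b : X} (h : IsArc A a b) : IsClosed A :=
  h.isCompact.isClosed

theorem IsArc.isPreconnected {A : Set X} {a b : X} (h : IsArc A a b) : IsPreconnected A := by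
  obtain ⟨f, hc, hi, h0, h1, hA⟩ := h
  rw [← hA]
  exact isPreconnected_Icc.image f hc

theorem IsArc.image {Y : Type*} [TopologicalSpace Y] {A : Set X} {a b : X} (h : IsArc A a b)
    (g : X ≃ₜ Y) : IsArc (g '' A) (g a) (g b) := by
  obtain ⟨f, hc, hi, h0, h1, hA⟩ := h
  refine ⟨g ∘ f, g.continuous.comp_continuousOn hc, g.injective.comp_injOn hi, by simp [h0],
    by simp [h1], by rw [image_comp, hA]⟩

/-- The subarc between two parameters of an injective path. -/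
theorem isArc_uIcc {f : ℝ → X} (hc : ContinuousOn f (Icc 0 1)) (hi : InjOn f (Icc 0 1))
    {s t : ℝ} (hs : s ∈ Icc (0:ℝ) 1) (ht : t ∈ Icc (0:ℝ) 1) (hst : s ≠ t) :
    IsArc (f '' uIcc s t) (f s) (f t) := by
  rcases lt_or_gt_of_ne hst with h | h
  · rw [uIcc_of_le h.le]
    have hsub : Icc s t ⊆ Icc 0 1 := Icc_subset_Icc hs.1 ht.2
    exact isArc_of_Icc h (hc.mono hsub) (hi.mono hsub)
  · rw [uIcc_of_ge h.le]
    have hsub : Icc t s ⊆ Icc 0 1 := Icc_subset_Icc ht.1 hs.2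
    exact (isArc_of_Icc h (hc.mono hsub) (hi.mono hsub)).symm

theorem IsArc.sub {A : Set X} {a b x y : X} (h : IsArc A a b) (hx : x ∈ A) (hy : y ∈ A)
    (hxy : x ≠ y) : ∃ A' ⊆ A, IsArc A' x y := by
  obtain ⟨f, hc, hi, h0, h1, hA⟩ := h
  rw [← hA] at hx hy
  obtain ⟨s, hs, rfl⟩ := hx
  obtain ⟨t, ht, rfl⟩ := hy
  have hst : s ≠ t := fun h => hxy (by rw [h])
  refine ⟨f '' uIcc s t, ?_, isArc_uIcc hc hi hs ht hst⟩
  rw [← hA]
  apply image_mono
  exact uIcc_subset_Icc hs ht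

theorem IsArc.split {A : Set X} {a b x : X} (h : IsArc A a b) (hx : x ∈ A) (hxa : x ≠ a)
    (hxb : x ≠ b) : ∃ A₁ A₂ : Set X, IsArc A₁ a x ∧ IsArc A₂ x b ∧ A₁ ∩ A₂ ⊆ {x} ∧
      A₁ ∪ A₂ = A ∧ b ∉ A₁ ∧ a ∉ A₂ := by
  obtain ⟨f, hc, hi, h0, h1, hA⟩ := h
  rw [← hA] at hx
  obtain ⟨s, hs, rfl⟩ := hx
  have hs0 : 0 < s := lt_of_le_of_ne hs.1 (fun h => hxa (by rw [← h, h0]))
  have hs1 : s < 1 := lt_of_le_of_ne hs.2 (fun h => hxb (by rw [h, h1]))
  have hsub1 : Icc 0 s ⊆ Icc (0:ℝ) 1 := Icc_subset_Icc le_rfl hs.2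
  have hsub2 : Icc s 1 ⊆ Icc (0:ℝ) 1 := Icc_subset_Icc hs.1 le_rfl
  have i0 : (0:ℝ) ∈ Icc (0:ℝ) 1 := by simp
  have i1 : (1:ℝ) ∈ Icc (0:ℝ) 1 := by simp
  refine ⟨f '' Icc 0 s, f '' Icc s 1, ?_, ?_, ?_, ?_, ?_, ?_⟩
  · have := isArc_of_Icc hs0 (hc.mono hsub1) (hi.mono hsub1)
    rwa [h0] at this
  · have := isArc_of_Icc hs1 (hc.mono hsub2) (hi.mono hsub2)
    rwa [h1] at this
  · rintro _ ⟨⟨r, hr, rfl⟩, ⟨r', hr', hrr'⟩⟩
    have : r' = r := hi (hsub2 hr') (hsub1 hr) hrr'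
    subst this
    have : r' = s := le_antisymm hr.2 hr'.1
    simp [this]
  · rw [← image_union, Icc_union_Icc_eq_Icc hs0.le hs1.le, hA]
  · rintro ⟨r, hr, hrb⟩
    have : r = 1 := hi (hsub1 hr) i1 (by rw [hrb, h1])
    linarith [hr.2]
  · rintro ⟨r, hr, hra⟩
    have : r = 0 := hi (hsub2 hr) i0 (by rw [hra, h0])
    linarith [hr.1]

theorem IsArc.trans {A B : Set X} {a b c : X} (hA : IsArc A a b) (hB : IsArc B b c)
    (hAB : A ∩ B ⊆ {b}) : IsArc (A ∪ B) a c := by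
  obtain ⟨f, fc, fi, f0, f1, fA⟩ := hA
  obtain ⟨g, gc, gi, g0, g1, gB⟩ := hB
  -- glue on `[0,2]`
  set k : ℝ → X := fun r => if r ≤ 1 then f r else g (r - 1) with hk
  have hkf : EqOn k f (Icc 0 1) := by
    intro r hr
    simp [hk, hr.2]
  have hkg : EqOn k (fun r => g (r - 1)) (Icc 1 2) := by
    intro r hr
    simp only [hk]
    split_ifs with h
    · have : r = 1 := le_antisymm h hr.1
      subst this
      simp [f1, g0]
    · rfl
  have m12 : MapsTo (fun r : ℝ => r - 1) (Icc 1 2) (Icc 0 1) := by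
    intro r hr
    simp only [mem_Icc] at *
    constructor <;> linarith [hr.1, hr.2]
  have him1 : k '' Icc 0 1 = A := by rw [hkf.image_eq, fA]
  have him2 : k '' Icc 1 2 = B := by
    rw [hkg.image_eq, ← gB]
    apply Subset.antisymm
    · rintro _ ⟨r, hr, rfl⟩
      exact ⟨r - 1, m12 hr, rfl⟩
    · rintro _ ⟨r, hr, rfl⟩
      refine ⟨r + 1, ⟨?_, ?_⟩, by simp⟩ <;> linarith [hr.1, hr.2]
  have hc1 : ContinuousOn k (Icc 0 1) := fc.congr hkf
  have hc2 : ContinuousOn k (Icc 1 2) := by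
    refine ContinuousOn.congr ?_ hkg
    exact gc.comp (by fun_prop) m12
  have hu : Icc (0:ℝ) 2 = Icc 0 1 ∪ Icc 1 2 := by
    rw [Icc_union_Icc_eq_Icc] <;> norm_num
  have hc : ContinuousOn k (Icc 0 2) := by
    rw [hu]
    exact hc1.union_of_isClosed hc2 isClosed_Icc isClosed_Icc
  have hi1 : InjOn k (Icc 0 1) := fi.congr hkf.symm
  have hi2 : InjOn k (Icc 1 2) := by
    refine InjOn.congr ?_ hkg.symm
    intro x hx y hy hxy
    have := gi (m12 hx) (m12 hy) hxy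
    linarith
  have key : ∀ r ∈ Icc (0:ℝ) 1, ∀ r' ∈ Icc (1:ℝ) 2, k r = k r' → r = r' := by
    intro r hr r' hr' h
    have h1 : k r ∈ A ∩ B := ⟨him1 ▸ mem_image_of_mem k hr, h ▸ him2 ▸ mem_image_of_mem k hr'⟩
    have h2 : k r = b := hAB h1
    have e1 : r = 1 := by
      apply hi1 hr (by simp)
      rw [h2, hkf (by simp), f1]
    have e2 : r' = 1 := by
      apply hi2 hr' (by simp)
      rw [← h, h2, hkf (by simp), f1]
    rw [e1, e2]
  have hi : InjOn k (Icc 0 2) := by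
    intro x hx y hy hxy
    rw [hu] at hx hy
    rcases hx with hx | hx <;> rcases hy with hy | hy
    · exact hi1 hx hy hxy
    · exact key x hx y hy hxy
    · exact (key y hy x hx hxy.symm).symm
    · exact hi2 hx hy hxy
  have := isArc_of_Icc (by norm_num : (0:ℝ) < 2) hc hi
  rw [hu, image_union, him1, him2] at this
  have e0 : k 0 = a := by rw [hkf (by simp), f0]
  have e2 : k 2 = c := by
    rw [hkg (by simp)]
    show g (2 - 1) = c
    norm_num
    exact g1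
  rwa [e0, e2] at this

/-- First hitting point of a closed set along an arc. -/
theorem IsArc.first_hit {A F : Set X} {a b : X} (h : IsArc A a b) (hF : IsClosed F) (ha : a ∉ F)
    (hb : (A ∩ F).Nonempty) : ∃ A' ⊆ A, ∃ c ∈ F, IsArc A' a c ∧ A' ∩ F ⊆ {c} := by
  obtain ⟨f, hc, hi, h0, h1, hA⟩ := h
  set S : Set ℝ := Icc 0 1 ∩ f ⁻¹' F with hS
  have hSc : IsClosed S := hc.preimage_isClosed_of_isClosed isClosed_Icc hF
  have hSn : S.Nonempty := by
    obtain ⟨x, hxA, hxF⟩ := hb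
    rw [← hA] at hxA
    obtain ⟨r, hr, rfl⟩ := hxA
    exact ⟨r, hr, hxF⟩
  have hSb : BddBelow S := ⟨0, fun r hr => hr.1.1⟩
  have hm : sInf S ∈ S := hSc.csInf_mem hSn hSb
  set s := sInf S with hs
  have hs0 : 0 < s := by
    rcases eq_or_lt_of_le hm.1.1 with h | h
    · exact absurd (by rw [← h0, h]; exact hm.2) ha
    · exact h
  have hsub : Icc 0 s ⊆ Icc (0:ℝ) 1 := Icc_subset_Icc le_rfl hm.1.2
  refine ⟨f '' Icc 0 s, ?_, f s, hm.2, ?_, ?_⟩
  · rw [← hA]
    exact image_mono hsub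
  · have := isArc_of_Icc hs0 (hc.mono hsub) (hi.mono hsub)
    rwa [h0] at this
  · rintro _ ⟨⟨r, hr, rfl⟩, hrF⟩
    have : s ≤ r := csInf_le hSb ⟨hsub hr, hrF⟩
    have : r = s := le_antisymm hr.2 this
    simp [this]

end Pool.Agent.Helper43
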