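import Mathlib
import Pool.Agent.Helper43.Arc

/-!
# A path with order-convex fibres traces an arc (helper file)
-/

set_option autoImplicit false

open Set Topology Filter

namespace Pool.Agent.Helper43

variable {X : Type*} [MetricSpace X]

section bump

/-- bump function around `p` -/
noncomputable def bmp (p x : X) : ℝ := max 0 (1 - dist p x)

theorem bmp_nonneg (p x : X) : 0 ≤ bmp p x := le_max_left _ _

theorem bmp_le_one (p x : X) : bmp p x ≤ 1 := by
  unfold bmp
  apply max_le zero_le_one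
  linarith [dist_nonneg (x := p) (y := x)]

theorem bmp_continuous (p : X) : Continuous (bmp p) := by
  unfold bmp
  fun_prop

end bump

/-- running supremum of the bump function along `g` -/
noncomputable def runSup (g : ℝ → X) (p : X) (u : ℝ) : ℝ :=
  sSup ((fun r : ℝ => bmp p (g (u * r))) '' Icc 0 1)

theorem runSup_continuous {g : ℝ → X} (hg : Continuous g) (p : X) : Continuous (runSup g p) := by
  unfold runSup
  apply IsCompact.continuous_sSup (f := fun u r : ℝ => bmp p (g (u * r))) isCompact_Icc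
  have : Continuous (fun q : ℝ × ℝ => bmp p (g (q.1 * q.2))) :=
    (bmp_continuous p).comp (hg.comp (by fun_prop))
  exact this

theorem runSup_bdd (g : ℝ → X) (p : X) (u : ℝ) :
    BddAbove ((fun r : ℝ => bmp p (g (u * r))) '' Icc 0 1) := by
  refine ⟨1, ?_⟩
  rintro _ ⟨r, _, rfl⟩
  exact bmp_le_one _ _

theorem le_runSup (g : ℝ → X) (p : X) {u w : ℝ} (hw : 0 ≤ w) (hu : w ≤ u) :
    bmp p (g w) ≤ runSup g p u := by
  apply le_csSup (runSup_bdd g p u)
  rcases eq_or_lt_of_le (hw.trans hu) with h | h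
  · have : w = 0 := le_antisymm (by rw [h]; exact hu) hw
    refine ⟨0, by simp, ?_⟩
    simp [this]
  · refine ⟨w / u, ⟨by positivity, (div_le_one h).2 hu⟩, ?_⟩
    simp only
    congr 2
    field_simp

theorem runSup_le (g : ℝ → X) (p : X) {u M : ℝ} (hu : 0 ≤ u)
    (h : ∀ w, 0 ≤ w → w ≤ u → bmp p (g w) ≤ M) : runSup g p u ≤ M := by
  apply csSup_le
  · exact ⟨_, 0, by simp, rfl⟩
  · rintro _ ⟨r, hr, rfl⟩
    apply h
    · exact mul_nonneg hu hr.1
    · nlinarith [hr.1, hr.2]

theorem runSup_nonneg (g : ℝ → X) (p : X) {u : ℝ} (hu : 0 ≤ u) : 0 ≤ runSup g p u :=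
  (bmp_nonneg p (g u)).trans (le_runSup g p hu le_rfl)

theorem runSup_le_one (g : ℝ → X) (p : X) (u : ℝ) : runSup g p u ≤ 1 := by
  apply csSup_le
  · exact ⟨_, 0, by simp, rfl⟩
  · rintro _ ⟨r, hr, rfl⟩
    exact bmp_le_one _ _

theorem runSup_nonneg' (g : ℝ → X) (p : X) (u : ℝ) : 0 ≤ runSup g p u := by
  refine (bmp_nonneg p (g (u * 0))).trans ?_
  exact le_csSup (runSup_bdd g p u) ⟨0, by simp, rfl⟩

theorem runSup_mono (g : ℝ → X) (p : X) {u v : ℝ} (hu : 0 ≤ u) (huv : u ≤ v) :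
    runSup g p u ≤ runSup g p v :=
  runSup_le g p hu fun _ hw hwu => le_runSup g p hw (hwu.trans huv)

/-- A continuous map of the interval with order-convex fibres, not constant, traces an arc. -/
theorem exists_isArc_of_convex_fibres [TopologicalSpace.SeparableSpace X] {g : ℝ → X} (hg : Continuous g)
    (h01 : g 0 ≠ g 1)
    (hconv : ∀ w u v : ℝ, 0 ≤ w → w ≤ u → u ≤ v → v ≤ 1 → g w = g v → g u = g v) :
    ∃ A, IsArc A (g 0) (g 1) := by
  have : Nonempty X := ⟨g 0⟩
  set x : ℕ → X := TopologicalSpace.denseSeq X with hx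
  set F : ℕ → ℝ → ℝ := fun n u => (1/2 : ℝ)^n * runSup g (x n) u with hF
  have hFnn : ∀ n u, 0 ≤ F n u := fun n u => mul_nonneg (by positivity) (runSup_nonneg' g _ u)
  have hFle : ∀ n u, F n u ≤ (1/2 : ℝ)^n := by
    intro n u
    have h1 := runSup_le_one g (x n) u
    have h2 : (0:ℝ) ≤ (1/2 : ℝ)^n := by positivity
    calc F n u = (1/2 : ℝ)^n * runSup g (x n) u := rfl
      _ ≤ (1/2 : ℝ)^n * 1 := mul_le_mul_of_nonneg_left h1 h2
      _ = (1/2 : ℝ)^n := mul_one _
  have hsg : Summable (fun n : ℕ => (1/2 : ℝ)^n) := summable_geometric_two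
  have hsum : ∀ u, Summable (fun n => F n u) := fun u =>
    Summable.of_nonneg_of_le (fun n => hFnn n u) (fun n => hFle n u) hsg
  set φ : ℝ → ℝ := fun u => ∑' n, F n u with hφ
  have hφc : Continuous φ := by
    apply continuous_tsum (u := fun n : ℕ => (1/2 : ℝ)^n)
    · intro n
      exact continuous_const.mul (runSup_continuous hg (x n))
    · exact hsg
    · intro n u
      rw [Real.norm_eq_abs, abs_of_nonneg (hFnn n u)]
      exact hFle n u
  have hφmono : ∀ u v : ℝ, 0 ≤ u → u ≤ v → φ u ≤ φ v := by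
    intro u v hu huv
    apply Summable.tsum_le_tsum _ (hsum u) (hsum v)
    intro n
    exact mul_le_mul_of_nonneg_left (runSup_mono g _ hu huv) (by positivity)
  have hφeq : ∀ u v : ℝ, 0 ≤ u → u ≤ v → v ≤ 1 → g u = g v → φ u = φ v := by
    intro u v hu huv hv huvg
    apply tsum_congr
    intro n
    simp only [hF]
    congr 1
    apply le_antisymm (runSup_mono g _ hu huv)
    apply runSup_le g _ (hu.trans huv)
    intro w hw hwv
    rcases le_total w u with h | h
    · exact le_runSup g _ hw h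
    · have : g w = g v := hconv u w v hu h hwv hv huvg
      rw [this, ← huvg]
      exact le_runSup g _ hu le_rfl
  have hφlt : ∀ u v : ℝ, 0 ≤ u → u ≤ v → v ≤ 1 → g u ≠ g v → φ u < φ v := by
    intro u v hu huv hv huvg
    set K : Set X := g '' Icc 0 u with hK
    have hKc : IsCompact K := isCompact_Icc.image hg
    have hKn : K.Nonempty := ⟨g 0, 0, ⟨le_rfl, hu⟩, rfl⟩
    have hvK : g v ∉ K := by
      rintro ⟨w, hw, hwv⟩
      exact huvg (hconv w u v hw.1 hw.2 huv hv hwv)
    have hpos : 0 < Metric.infDist (g v) K :=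
      (hKc.isClosed.notMem_iff_infDist_pos hKn).1 hvK
    set δ : ℝ := min (Metric.infDist (g v) K) 1 with hδ
    have hδpos : 0 < δ := lt_min hpos one_pos
    have hδ1 : δ ≤ 1 := min_le_right _ _
    have hδK : ∀ y ∈ K, δ ≤ dist (g v) y := fun y hy =>
      (min_le_left _ _).trans (Metric.infDist_le_dist_of_mem hy)
    obtain ⟨n, hn⟩ : ∃ n, dist (g v) (x n) < δ / 2 :=
      (TopologicalSpace.denseRange_denseSeq X).exists_dist_lt (g v) (half_pos hδpos)
    have hstrict : runSup g (x n) u < runSup g (x n) v := by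
      have h1 : runSup g (x n) u ≤ 1 - δ / 2 := by
        apply runSup_le g _ hu
        intro w hw hwu
        unfold bmp
        apply max_le (by linarith)
        have h3 := hδK (g w) ⟨w, ⟨hw, hwu⟩, rfl⟩
        have h4 := dist_triangle (g v) (x n) (g w)
        linarith
      have h2 : 1 - δ / 2 < bmp (x n) (g v) := by
        unfold bmp
        apply lt_of_lt_of_le _ (le_max_right _ _)
        rw [dist_comm] at hn
        linarith
      exact lt_of_le_of_lt h1 (lt_of_lt_of_le h2 (le_runSup g _ (hu.trans huv) le_rfl))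
    apply Summable.tsum_lt_tsum (i := n) _ _ (hsum u) (hsum v)
    · intro m
      exact mul_le_mul_of_nonneg_left (runSup_mono g _ hu huv) (by positivity)
    · exact mul_lt_mul_of_pos_left hstrict (by positivity)
  have hkey : ∀ u ∈ Icc (0:ℝ) 1, ∀ v ∈ Icc (0:ℝ) 1, φ u = φ v ↔ g u = g v := by
    intro u hu v hv
    rcases le_total u v with h | h
    · constructor
      · intro he
        by_contra hne
        exact absurd he (hφlt u v hu.1 h hv.2 hne).ne
      · exact hφeq u v hu.1 h hv.2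
    · constructor
      · intro he
        by_contra hne
        exact absurd he.symm (hφlt v u hv.1 h hu.2 (fun hh => hne hh.symm)).ne
      · intro he
        exact (hφeq v u hv.1 h hu.2 he.symm).symm
  have i0 : (0:ℝ) ∈ Icc (0:ℝ) 1 := by simp
  have i1 : (1:ℝ) ∈ Icc (0:ℝ) 1 := by simp
  have hcd : φ 0 < φ 1 := hφlt 0 1 le_rfl zero_le_one le_rfl h01
  have hsurj : Icc (φ 0) (φ 1) ⊆ φ '' Icc 0 1 :=
    intermediate_value_Icc zero_le_one hφc.continuousOn
  have hmaps : MapsTo φ (Icc 0 1) (Icc (φ 0) (φ 1)) := fun u hu =>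
    ⟨hφmono 0 u le_rfl hu.1, hφmono u 1 hu.1 hu.2⟩
  -- choose a section
  have hsec : ∀ y : ℝ, ∃ u : ℝ, y ∈ Icc (φ 0) (φ 1) → (u ∈ Icc (0:ℝ) 1 ∧ φ u = y) := by
    intro y
    by_cases hy : y ∈ Icc (φ 0) (φ 1)
    · obtain ⟨u, hu, hu'⟩ := hsurj hy
      exact ⟨u, fun _ => ⟨hu, hu'⟩⟩
    · exact ⟨0, fun h => absurd h hy⟩
  choose σ hσ using hsec
  set α : ℝ → X := fun y => g (σ y) with hα
  have hαφ : ∀ u ∈ Icc (0:ℝ) 1, α (φ u) = g u := by
    intro u hu
    obtain ⟨h1, h2⟩ := hσ (φ u) (hmaps hu)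
    exact (hkey _ h1 _ hu).1 h2
  have hαc : ContinuousOn α (Icc (φ 0) (φ 1)) := by
    rw [continuousOn_iff_isClosed]
    intro K hK
    refine ⟨φ '' (Icc 0 1 ∩ g ⁻¹' K), ?_, ?_⟩
    · exact ((isCompact_Icc.inter_right (hK.preimage hg)).image hφc).isClosed
    · ext y
      constructor
      · rintro ⟨hyK, hy⟩
        obtain ⟨h1, h2⟩ := hσ y hy
        exact ⟨⟨σ y, ⟨h1, hyK⟩, h2⟩, hy⟩
      · rintro ⟨⟨u, ⟨hu, huK⟩, rfl⟩, hy⟩
        refine ⟨?_, hy⟩
        show α (φ u) ∈ K
        rw [hαφ u hu]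
        exact huK
  have hαi : InjOn α (Icc (φ 0) (φ 1)) := by
    intro y hy y' hy' h
    obtain ⟨h1, h2⟩ := hσ y hy
    obtain ⟨h1', h2'⟩ := hσ y' hy'
    rw [← h2, ← h2']
    exact (hkey _ h1 _ h1').2 h
  have := isArc_of_Icc hcd hαc hαi
  rw [hαφ 0 i0, hαφ 1 i1] at this
  exact ⟨_, this⟩

end Pool.Agent.Helper43
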