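import Mathlib
import Pool.Agent.Helper43.MonoArc

/-!
# Cutting the loops of a path (helper file)
-/

set_option autoImplicit false

open Set Topology Filter

namespace Pool.Agent.Helper43

variable {X : Type*} [MetricSpace X]

/-- admissible closed sets of times -/
def Adm (γ : ℝ → X) : Set (Set ℝ) :=
  {F | IsClosed F ∧ F ⊆ Icc 0 1 ∧ (0:ℝ) ∈ F ∧ (1:ℝ) ∈ F ∧
    ∀ s ∈ F, ∀ t ∈ F, s < t → Ioo s t ∩ F = ∅ → γ s = γ t}

omit [MetricSpace X] in
theorem adm_Icc (γ : ℝ → X) : Icc (0:ℝ) 1 ∈ Adm γ := by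
  refine ⟨isClosed_Icc, Subset.rfl, by simp, by simp, ?_⟩
  intro s hs t ht hst he
  exfalso
  have : (s + t) / 2 ∈ Ioo s t ∩ Icc (0:ℝ) 1 := by
    refine ⟨⟨by linarith, by linarith⟩, ⟨by linarith [hs.1, ht.1], by linarith [hs.2, ht.2]⟩⟩
  rw [he] at this
  exact this

theorem adm_chain {γ : ℝ → X} (hγ : Continuous γ) {c : Set (Set ℝ)} (hc : c ⊆ Adm γ)
    (hch : IsChain (fun x1 x2 => x1 ⊆ x2) c) (hne : c.Nonempty) : ⋂₀ c ∈ Adm γ := by
  obtain ⟨F₀, hF₀⟩ := hne
  refine ⟨isClosed_sInter fun F hF => (hc hF).1, ?_, ?_, ?_, ?_⟩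
  · exact (sInter_subset_of_mem hF₀).trans (hc hF₀).2.1
  · exact mem_sInter.2 fun F hF => (hc hF).2.2.1
  · exact mem_sInter.2 fun F hF => (hc hF).2.2.2.1
  intro s hs t ht hst he
  by_contra hne
  have hε : 0 < dist (γ s) (γ t) := dist_pos.2 hne
  obtain ⟨δ₁, hδ₁, h₁⟩ := Metric.continuousAt_iff.1 (hγ.continuousAt (x := s)) _ (half_pos hε)
  obtain ⟨δ₂, hδ₂, h₂⟩ := Metric.continuousAt_iff.1 (hγ.continuousAt (x := t)) _ (half_pos hε)
  set δ := min (min δ₁ δ₂) (t - s) / 4 with hδ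
  have hmin : 0 < min (min δ₁ δ₂) (t - s) := lt_min (lt_min hδ₁ hδ₂) (sub_pos.2 hst)
  have hδpos : 0 < δ := by positivity
  have hd1 : δ < δ₁ := by
    have : min (min δ₁ δ₂) (t - s) ≤ δ₁ := (min_le_left _ _).trans (min_le_left _ _)
    rw [hδ]; linarith
  have hd2 : δ < δ₂ := by
    have : min (min δ₁ δ₂) (t - s) ≤ δ₂ := (min_le_left _ _).trans (min_le_right _ _)
    rw [hδ]; linarith
  have hd3 : δ ≤ (t - s) / 4 := by
    have : min (min δ₁ δ₂) (t - s) ≤ t - s := min_le_right _ _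
    rw [hδ]; linarith
  have : Nonempty c := ⟨⟨F₀, hF₀⟩⟩
  obtain ⟨⟨F, hF⟩, hFK⟩ : ∃ i : c, Icc (s + δ) (t - δ) ∩ (i : Set ℝ) = ∅ := by
    apply IsCompact.elim_directed_family_closed isCompact_Icc
      (fun i : c => (i : Set ℝ)) (fun i => (hc i.2).1)
    · rw [← sInter_eq_iInter]
      rw [← subset_empty_iff, ← he]
      rintro r ⟨hr, hr'⟩
      exact ⟨⟨by linarith [hr.1], by linarith [hr.2]⟩, hr'⟩
    · intro i j
      rcases hch.total i.2 j.2 with h | h
      · exact ⟨i, Subset.rfl, h⟩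
      · exact ⟨j, h, Subset.rfl⟩
  have hFA := hc hF
  have hsF : s ∈ F := hs F hF
  have htF : t ∈ F := ht F hF
  -- last point of `F` in `[s, s+δ]`
  set S₁ : Set ℝ := F ∩ Icc s (s + δ) with hS₁
  set S₂ : Set ℝ := F ∩ Icc (t - δ) t with hS₂
  have hS₁c : IsClosed S₁ := hFA.1.inter isClosed_Icc
  have hS₂c : IsClosed S₂ := hFA.1.inter isClosed_Icc
  have hS₁n : S₁.Nonempty := ⟨s, hsF, ⟨le_rfl, by linarith⟩⟩
  have hS₂n : S₂.Nonempty := ⟨t, htF, ⟨by linarith, le_rfl⟩⟩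
  have hS₁b : BddAbove S₁ := ⟨s + δ, fun r hr => hr.2.2⟩
  have hS₂b : BddBelow S₂ := ⟨t - δ, fun r hr => hr.2.1⟩
  have hs' := hS₁c.csSup_mem hS₁n hS₁b
  have ht' := hS₂c.csInf_mem hS₂n hS₂b
  set s' := sSup S₁ with hs'def
  set t' := sInf S₂ with ht'def
  have hlt : s' < t' := by linarith [hs'.2.2, ht'.2.1]
  have hgap : Ioo s' t' ∩ F = ∅ := by
    rw [← subset_empty_iff]
    rintro r ⟨hr, hrF⟩
    rcases le_or_gt r (s + δ) with h | h
    · have : r ≤ s' := le_csSup hS₁b ⟨hrF, ⟨by linarith [hs'.2.1, hr.1], h⟩⟩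
      linarith [hr.1]
    · rcases le_or_gt (t - δ) r with h' | h'
      · have : t' ≤ r := csInf_le hS₂b ⟨hrF, ⟨h', by linarith [ht'.2.2, hr.2]⟩⟩
        linarith [hr.2]
      · rw [← hFK]
        exact ⟨⟨h.le, h'.le⟩, hrF⟩
  have heq : γ s' = γ t' := hFA.2.2.2.2 s' hs'.1 t' ht'.1 hlt hgap
  have e1 : dist (γ s') (γ s) < dist (γ s) (γ t) / 2 := by
    apply h₁
    rw [Real.dist_eq, abs_of_nonneg (by linarith [hs'.2.1])]
    linarith [hs'.2.2]
  have e2 : dist (γ t') (γ t) < dist (γ s) (γ t) / 2 := by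
    apply h₂
    rw [Real.dist_eq, abs_of_nonpos (by linarith [ht'.2.2])]
    linarith [ht'.2.1]
  have e3 := dist_triangle (γ s) (γ s') (γ t)
  rw [dist_comm (γ s) (γ s')] at e3
  rw [heq] at e3 e1
  linarith

theorem adm_min {γ : ℝ → X} (hγ : Continuous γ) : ∃ F ∈ Adm γ,
    ∀ s ∈ F, ∀ t ∈ F, s < t → γ s = γ t → Ioo s t ∩ F = ∅ := by
  obtain ⟨F, -, hF⟩ := zorn_superset_nonempty (Adm γ)
    (fun c hc hch hne => ⟨⋂₀ c, adm_chain hγ hc hch hne, fun s hs => sInter_subset_of_mem hs⟩)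
    (Icc 0 1) (adm_Icc γ)
  refine ⟨F, hF.1, ?_⟩
  intro s hs t ht hst hγst
  have hFA : F ∈ Adm γ := hF.1
  have hF' : F \ Ioo s t ∈ Adm γ := by
    refine ⟨hFA.1.sdiff isOpen_Ioo, sdiff_subset.trans hFA.2.1, ⟨hFA.2.2.1, ?_⟩,
      ⟨hFA.2.2.2.1, ?_⟩, ?_⟩
    · intro h
      have := (hFA.2.1 hs).1
      linarith [h.1]
    · intro h
      have := (hFA.2.1 ht).2
      linarith [h.2]
    · intro s₁ hs₁ t₁ ht₁ hst₁ hgap
      by_cases hr : Ioo s₁ t₁ ∩ F = ∅
      · exact hFA.2.2.2.2 s₁ hs₁.1 t₁ ht₁.1 hst₁ hr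
      · obtain ⟨r, hr1, hr2⟩ := nonempty_iff_ne_empty.2 hr
        have hrst : r ∈ Ioo s t := by
          by_contra hh
          have : r ∈ Ioo s₁ t₁ ∩ (F \ Ioo s t) := ⟨hr1, hr2, hh⟩
          rw [hgap] at this
          exact this
        have hs1 : ¬ (s₁ < s ∧ s < t₁) := by
          intro hh
          have : s ∈ Ioo s₁ t₁ ∩ (F \ Ioo s t) := ⟨hh, hs, fun h => lt_irrefl _ h.1⟩
          rw [hgap] at this
          exact this
        have ht1 : ¬ (s₁ < t ∧ t < t₁) := by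
          intro hh
          have : t ∈ Ioo s₁ t₁ ∩ (F \ Ioo s t) := ⟨hh, ht, fun h => lt_irrefl _ h.2⟩
          rw [hgap] at this
          exact this
        have hs₁' := hs₁.2
        have ht₁' := ht₁.2
        simp only [mem_Ioo, not_and, not_lt] at hs1 ht1 hs₁' ht₁' hr1 hrst
        have a1 : s ≤ s₁ := by
          by_contra hh
          push Not at hh
          have := hs1 hh
          linarith [hr1.2, hrst.1]
        have a2 : s₁ ≤ s := by
          by_contra hh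
          push Not at hh
          have := hs₁' hh
          linarith [hr1.1, hrst.2]
        have a3 : t₁ ≤ t := by
          by_contra hh
          push Not at hh
          have : s₁ < t := by linarith [hr1.1, hrst.2]
          linarith [ht1 this]
        have a4 : t ≤ t₁ := by
          apply ht₁'
          linarith [hr1.2, hrst.1]
        rw [le_antisymm a2 a1, le_antisymm a3 a4]
        exact hγst
  have hle : F ⊆ F \ Ioo s t := hF.2 hF' sdiff_subset
  rw [← subset_empty_iff]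
  rintro r ⟨hr, hrF⟩
  exact (hle hrF).2 hr

/-- Any path can be replaced by a path with order-convex fibres. -/
theorem exists_convex_fibres {γ : ℝ → X} (hγ : Continuous γ) :
    ∃ g : ℝ → X, Continuous g ∧ g 0 = γ 0 ∧ g 1 = γ 1 ∧
      ∀ w u v : ℝ, 0 ≤ w → w ≤ u → u ≤ v → v ≤ 1 → g w = g v → g u = g v := by
  obtain ⟨F, hFA, hFm⟩ := adm_min hγ
  obtain ⟨hFc, hFI, hF0, hF1, hFg⟩ := hFA
  -- last point of `F` before `u`
  set π : ℝ → ℝ := fun u => sSup (F ∩ Iic u) with hπ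
  have hbdd : ∀ u, BddAbove (F ∩ Iic u) := fun u => ⟨u, fun r hr => hr.2⟩
  have hne : ∀ u, 0 ≤ u → (F ∩ Iic u).Nonempty := fun u hu => ⟨0, hF0, hu⟩
  have hπm : ∀ u, 0 ≤ u → π u ∈ F ∧ π u ≤ u := fun u hu =>
    (hFc.inter isClosed_Iic).csSup_mem (hne u hu) (hbdd u)
  have hπle : ∀ u r, r ∈ F → r ≤ u → r ≤ π u := fun u r hr hru => le_csSup (hbdd u) ⟨hr, hru⟩
  have hπmono : ∀ u v, 0 ≤ u → u ≤ v → π u ≤ π v := fun u v hu huv =>
    hπle v (π u) (hπm u hu).1 ((hπm u hu).2.trans huv)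
  have hπfix : ∀ u ∈ F, π u = u := fun u hu =>
    le_antisymm (hπm u (hFI hu).1).2 (hπle u u hu le_rfl)
  -- either no movement or close to each other
  have key : ∀ u v : ℝ, 0 ≤ u → u ≤ v → v ≤ 1 → γ (π u) = γ (π v) ∨
      ∃ p ∈ Icc u v, ∃ q ∈ Icc u v, γ (π u) = γ p ∧ γ (π v) = γ q := by
    intro u v hu huv hv
    by_cases h : (F ∩ Ioc u v).Nonempty
    · right
      -- the first point of `F` after `u`
      have hcl : IsClosed (F ∩ Icc u v) := hFc.inter isClosed_Icc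
      have hn : (F ∩ Icc u v).Nonempty := h.mono (inter_subset_inter_right _ Ioc_subset_Icc_self)
      have hb : BddBelow (F ∩ Icc u v) := ⟨u, fun r hr => hr.2.1⟩
      have hp := hcl.csInf_mem hn hb
      set p := sInf (F ∩ Icc u v) with hpdef
      refine ⟨p, hp.2, π v, ⟨?_, (hπm v (hu.trans huv)).2⟩, ?_, rfl⟩
      · obtain ⟨r, hr1, hr2⟩ := h
        exact hr2.1.le.trans (hπle v r hr1 hr2.2)
      · rcases eq_or_lt_of_le ((hπm u hu).2.trans hp.2.1) with h' | h'
        · rw [h']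
        · apply hFg (π u) (hπm u hu).1 p hp.1 h'
          rw [← subset_empty_iff]
          rintro r ⟨hr, hrF⟩
          rcases le_or_gt r u with h'' | h''
          · have := hπle u r hrF h''
            linarith [hr.1]
          · have : p ≤ r := csInf_le hb ⟨hrF, ⟨h''.le, hr.2.le.trans hp.2.2⟩⟩
            linarith [hr.2]
    · left
      congr 1
      apply le_antisymm (hπmono u v hu huv)
      have h1 := hπm v (hu.trans huv)
      apply hπle u (π v) h1.1
      by_contra hh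
      push Not at hh
      exact h ⟨π v, h1.1, hh, h1.2⟩
  -- continuity
  have hcont : ContinuousOn (fun u => γ (π u)) (Icc 0 1) := by
    have huc : UniformContinuousOn γ (Icc 0 1) :=
      isCompact_Icc.uniformContinuousOn_of_continuous hγ.continuousOn
    rw [Metric.uniformContinuousOn_iff] at huc
    rw [Metric.continuousOn_iff]
    intro u hu ε hε
    obtain ⟨δ, hδ, hd⟩ := huc ε hε
    refine ⟨δ, hδ, ?_⟩
    intro v hv hvu
    rcases le_total u v with h | h
    · rcases key u v hu.1 h hv.2 with h1 | ⟨p, hp, q, hq, h1, h2⟩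
      · rw [h1, dist_self]; exact hε
      · rw [h1, h2]
        have hpI : p ∈ Icc (0:ℝ) 1 := ⟨hu.1.trans hp.1, hp.2.trans hv.2⟩
        have hqI : q ∈ Icc (0:ℝ) 1 := ⟨hu.1.trans hq.1, hq.2.trans hv.2⟩
        apply hd q hqI p hpI
        rw [Real.dist_eq] at hvu ⊢
        rw [abs_lt] at hvu ⊢
        constructor <;> linarith [hp.1, hp.2, hq.1, hq.2, hvu.1, hvu.2]
    · rcases key v u hv.1 h hu.2 with h1 | ⟨p, hp, q, hq, h1, h2⟩
      · rw [h1, dist_self]; exact hε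
      · rw [h1, h2]
        have hpI : p ∈ Icc (0:ℝ) 1 := ⟨hv.1.trans hp.1, hp.2.trans hu.2⟩
        have hqI : q ∈ Icc (0:ℝ) 1 := ⟨hv.1.trans hq.1, hq.2.trans hu.2⟩
        apply hd p hpI q hqI
        rw [Real.dist_eq] at hvu ⊢
        rw [abs_lt] at hvu ⊢
        constructor <;> linarith [hp.1, hp.2, hq.1, hq.2, hvu.1, hvu.2]
  -- the clamp
  set cl : ℝ → ℝ := fun u => max 0 (min u 1) with hcl
  have hclm : ∀ u, cl u ∈ Icc (0:ℝ) 1 := fun u =>
    ⟨le_max_left _ _, max_le zero_le_one (min_le_right _ _)⟩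
  have hclid : ∀ u ∈ Icc (0:ℝ) 1, cl u = u := by
    intro u hu
    simp [hcl, hu.1, hu.2]
  refine ⟨fun u => γ (π (cl u)), ?_, ?_, ?_, ?_⟩
  · have : Continuous cl := by fun_prop
    exact hcont.comp_continuous this hclm
  · simp only
    rw [hclid 0 (by simp), hπfix 0 hF0]
  · simp only
    rw [hclid 1 (by simp), hπfix 1 hF1]
  · intro w u v hw hwu huv hv h
    simp only at h ⊢
    have hwI : w ∈ Icc (0:ℝ) 1 := ⟨hw, by linarith⟩
    have huI : u ∈ Icc (0:ℝ) 1 := ⟨by linarith, by linarith⟩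
    have hvI : v ∈ Icc (0:ℝ) 1 := ⟨by linarith, hv⟩
    rw [hclid w hwI, hclid v hvI] at h
    rw [hclid u huI, hclid v hvI]
    have m1 := hπmono w u hw hwu
    have m2 := hπmono u v huI.1 huv
    rcases eq_or_lt_of_le (m1.trans m2) with h' | h'
    · have : π u = π v := le_antisymm m2 (by rw [← h']; exact m1)
      rw [this]
    · have hgap := hFm (π w) (hπm w hw).1 (π v) (hπm v hvI.1).1 h' h
      rcases eq_or_lt_of_le m1 with h1 | h1
      · rw [← h1, h]
      · rcases eq_or_lt_of_le m2 with h2 | h2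
        · rw [h2]
        · exfalso
          have : π u ∈ Ioo (π w) (π v) ∩ F := ⟨⟨h1, h2⟩, (hπm u huI.1).1⟩
          rw [hgap] at this
          exact this

/-- In a path-connected separable metric space distinct points are joined by an arc. -/
theorem exists_isArc [TopologicalSpace.SeparableSpace X] [PathConnectedSpace X] {a b : X}
    (hab : a ≠ b) : ∃ A, IsArc A a b := by
  obtain ⟨γ⟩ := PathConnectedSpace.joined a b
  obtain ⟨g, hg, h0, h1, hconv⟩ := exists_convex_fibres (γ := γ.extend) γ.continuous_extend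
  have e0 : g 0 = a := by rw [h0]; simp
  have e1 : g 1 = b := by rw [h1]; simp
  have := exists_isArc_of_convex_fibres hg (by rw [e0, e1]; exact hab) hconv
  rwa [e0, e1] at this

end Pool.Agent.Helper43
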