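import Mathlib
import Pool.Agent.Helper43.Arc

/-!
# Two arcs with common endpoints covering a space (helper file)
-/

set_option autoImplicit false

open Set Topology Filter

namespace Pool.Agent.Helper43

variable {X : Type*} [TopologicalSpace X]

theorem circle_of_two_arcs [T2Space X] {A B : Set X} {a b : X} (hA : IsArc A a b)
    (hB : IsArc B b a) (hAB : A ∩ B ⊆ {a, b}) (hU : A ∪ B = univ) : Nonempty (X ≃ₜ Circle) := by
  have hab : a ≠ b := hA.ne
  obtain ⟨f, fc, fi, f0, f1, fA⟩ := hA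
  obtain ⟨g, gc, gi, g0, g1, gB⟩ := hB
  set k : ℝ → X := fun r => if r ≤ 1 then f r else g (r - 1) with hk
  have hkf : EqOn k f (Icc 0 1) := by
    intro r hr
    simp [hk, hr.2]
  have hkg : EqOn k (fun r => g (r - 1)) (Icc 1 2) := by
    intro r hr
    simp only [hk]
    split_ifs with h
    · have : r = 1 := le_antisymm h hr.1
      subst this
      simp [f1, g0]
    · rfl
  have m12 : MapsTo (fun r : ℝ => r - 1) (Icc 1 2) (Icc 0 1) := by
    intro r hr
    simp only [mem_Icc] at *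
    constructor <;> linarith [hr.1, hr.2]
  have him1 : k '' Icc 0 1 = A := by rw [hkf.image_eq, fA]
  have him2 : k '' Icc 1 2 = B := by
    rw [hkg.image_eq, ← gB]
    apply Subset.antisymm
    · rintro _ ⟨r, hr, rfl⟩
      exact ⟨r - 1, m12 hr, rfl⟩
    · rintro _ ⟨r, hr, rfl⟩
      refine ⟨r + 1, ⟨?_, ?_⟩, by simp⟩ <;> linarith [hr.1, hr.2]
  have hc1 : ContinuousOn k (Icc 0 1) := fc.congr hkf
  have hc2 : ContinuousOn k (Icc 1 2) := by
    refine ContinuousOn.congr ?_ hkg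
    exact gc.comp (by fun_prop) m12
  have hu : Icc (0:ℝ) 2 = Icc 0 1 ∪ Icc 1 2 := by
    rw [Icc_union_Icc_eq_Icc] <;> norm_num
  have hc : ContinuousOn k (Icc 0 2) := by
    rw [hu]
    exact hc1.union_of_isClosed hc2 isClosed_Icc isClosed_Icc
  have hi1 : InjOn k (Icc 0 1) := fi.congr hkf.symm
  have hi2 : InjOn k (Icc 1 2) := by
    refine InjOn.congr ?_ hkg.symm
    intro x hx y hy hxy
    have := gi (m12 hx) (m12 hy) hxy
    linarith
  have k0 : k 0 = a := by rw [hkf (by simp), f0]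
  have k1 : k 1 = b := by rw [hkf (by simp), f1]
  have k2 : k 2 = a := by
    rw [hkg (by simp)]
    show g (2 - 1) = a
    norm_num
    exact g1
  have key : ∀ r ∈ Icc (0:ℝ) 1, ∀ r' ∈ Ico (1:ℝ) 2, k r = k r' → r = r' := by
    intro r hr r' hr' h
    have hr'' : r' ∈ Icc (1:ℝ) 2 := Ico_subset_Icc_self hr'
    have h1 : k r ∈ A ∩ B := ⟨him1 ▸ mem_image_of_mem k hr, h ▸ him2 ▸ mem_image_of_mem k hr''⟩
    rcases hAB h1 with h2 | h2
    · exfalso
      have e2 : r' = 2 := by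
        apply hi2 hr'' (by simp)
        rw [← h, h2, k2]
      linarith [hr'.2]
    · have h2' : k r = b := h2
      have e1 : r = 1 := by
        apply hi1 hr (by simp)
        rw [h2', k1]
      have e2 : r' = 1 := by
        apply hi2 hr'' (by simp)
        rw [← h, h2', k1]
      rw [e1, e2]
  have hi : InjOn k (Ico 0 2) := by
    intro x hx y hy hxy
    rcases le_or_gt x 1 with hx1 | hx1 <;> rcases le_or_gt y 1 with hy1 | hy1
    · exact hi1 ⟨hx.1, hx1⟩ ⟨hy.1, hy1⟩ hxy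
    · exact key x ⟨hx.1, hx1⟩ y ⟨hy1.le, hy.2⟩ hxy
    · exact (key y ⟨hy.1, hy1⟩ x ⟨hx1.le, hx.2⟩ hxy.symm).symm
    · exact hi2 ⟨hx1.le, hx.2.le⟩ ⟨hy1.le, hy.2.le⟩ hxy
  have : Fact ((0:ℝ) < 2) := ⟨by norm_num⟩
  set L : AddCircle (2:ℝ) → X := AddCircle.liftIco 2 0 k with hL
  have hLc : Continuous L := by
    apply AddCircle.liftIco_continuous
    · rw [zero_add, k0, k2]
    · rw [zero_add]; exact hc
  have hrep : ∀ z : AddCircle (2:ℝ), ∃ x ∈ Ico (0:ℝ) 2, (x : AddCircle (2:ℝ)) = z := by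
    intro z
    have := AddCircle.coe_image_Ico_eq (2:ℝ) 0
    rw [zero_add] at this
    have hz : z ∈ (univ : Set (AddCircle (2:ℝ))) := mem_univ z
    rw [← this] at hz
    exact hz
  have hLk : ∀ x ∈ Ico (0:ℝ) 2, L (x : AddCircle (2:ℝ)) = k x := by
    intro x hx
    apply AddCircle.liftIco_coe_apply
    rwa [zero_add]
  have hLi : Function.Injective L := by
    intro z z' h
    obtain ⟨x, hx, rfl⟩ := hrep z
    obtain ⟨x', hx', rfl⟩ := hrep z'
    rw [hLk x hx, hLk x' hx'] at h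
    rw [hi hx hx' h]
  have hLs : Function.Surjective L := by
    intro y
    have hy : y ∈ A ∪ B := by rw [hU]; trivial
    have : y ∈ k '' Icc 0 2 := by rw [hu, image_union, him1, him2]; exact hy
    obtain ⟨r, hr, rfl⟩ := this
    rcases eq_or_lt_of_le hr.2 with h | h
    · refine ⟨((0:ℝ) : AddCircle (2:ℝ)), ?_⟩
      rw [hLk 0 (by simp), k0, h, k2]
    · exact ⟨(r : AddCircle (2:ℝ)), hLk r ⟨hr.1, h⟩⟩
  have hLe : Continuous (Equiv.ofBijective L ⟨hLi, hLs⟩) := hLc
  have e1 : AddCircle (2:ℝ) ≃ₜ X := hLe.homeoOfEquivCompactToT2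
  exact ⟨e1.symm.trans (AddCircle.homeomorphCircle (by norm_num))⟩

end Pool.Agent.Helper43
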