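import Mathlib
import Pool.Agent.Helper43.Arc
import Pool.Agent.Helper43.CircleLemma

/-!
# Arcwise connected spaces without triods (helper file)
-/

set_option autoImplicit false

open Set Topology Filter

namespace Pool.Agent.Helper43

variable {X : Type*} [TopologicalSpace X]

/-- no three arcs issuing from a point and otherwise disjoint -/
def NoTriod (X : Type*) [TopologicalSpace X] : Prop :=
  ∀ (x a b c : X) (A B C : Set X), IsArc A x a → IsArc B x b → IsArc C x c →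
    A ∩ B ⊆ {x} → A ∩ C ⊆ {x} → B ∩ C ⊆ {x} → False

/-- distinct points are joined by an arc -/
def ArcConn (X : Type*) [TopologicalSpace X] : Prop :=
  ∀ a b : X, a ≠ b → ∃ A : Set X, IsArc A a b

/-- no simple closed curve -/
def NoLoop (X : Type*) [TopologicalSpace X] : Prop :=
  ∀ (a b : X) (A B : Set X), IsArc A a b → IsArc B a b → A ∩ B ⊆ {a, b} → False

/-- every point is an interior point of an arc -/
def IntArc (X : Type*) [TopologicalSpace X] : Prop :=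
  ∀ b : X, ∃ (g₁ g₂ : X) (Γ₁ Γ₂ : Set X), IsArc Γ₁ b g₁ ∧ IsArc Γ₂ b g₂ ∧ Γ₁ ∩ Γ₂ ⊆ {b}

/-- If there is a simple closed curve, it is everything. -/
theorem loop_eq_univ [T2Space X] (hT : NoTriod X) (hC : ArcConn X) {a b : X} {A B : Set X}
    (hA : IsArc A a b) (hB : IsArc B a b) (hAB : A ∩ B ⊆ {a, b}) : A ∪ B = univ := by
  -- every point of the curve is the base of two disjoint arcs in the curve
  have hint : ∀ (a b : X) (A B : Set X), IsArc A a b → IsArc B a b → A ∩ B ⊆ {a, b} →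
      ∃ (g₁ g₂ : X) (Γ₁ Γ₂ : Set X), IsArc Γ₁ a g₁ ∧ IsArc Γ₂ a g₂ ∧ Γ₁ ∩ Γ₂ ⊆ {a} ∧
        Γ₁ ⊆ A ∪ B ∧ Γ₂ ⊆ A ∪ B := by
    intro a b A B hA hB hAB
    -- an interior point of `A`
    obtain ⟨m, hm, hma, hmb⟩ : ∃ m ∈ A, m ≠ a ∧ m ≠ b := by
      obtain ⟨f, hc, hi, h0, h1, hA⟩ := hA
      have h2 : (1/2 : ℝ) ∈ Icc (0:ℝ) 1 := by norm_num
      refine ⟨f (1/2), hA ▸ mem_image_of_mem f h2, ?_, ?_⟩
      · rw [← h0]
        intro h
        have := hi h2 (by simp) h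
        norm_num at this
      · rw [← h1]
        intro h
        have := hi h2 (by simp) h
        norm_num at this
    obtain ⟨A₁, A₂, hA₁, -, -, hA₁A, hbA₁, -⟩ := hA.split hm hma hmb
    refine ⟨m, b, A₁, B, hA₁, hB, ?_, ?_, subset_union_right⟩
    · rintro x ⟨hx1, hx2⟩
      rcases hAB ⟨hA₁A ▸ Or.inl hx1, hx2⟩ with h | h
      · exact h
      · exfalso
        have h' : x = b := h
        rw [h'] at hx1
        exact hbA₁ hx1
    · exact (subset_union_left.trans hA₁A.subset).trans subset_union_left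
  by_contra hne
  obtain ⟨x, hx⟩ := (ne_univ_iff_exists_notMem _).1 hne
  have hxa : x ≠ a := fun h => hx (h ▸ Or.inl hA.left_mem)
  obtain ⟨C, hCxa⟩ := hC x a hxa
  obtain ⟨C', -, c, hc, hC', hC'F⟩ := hCxa.first_hit (hA.isClosed.union hB.isClosed) hx
    ⟨a, hCxa.right_mem, Or.inl hA.left_mem⟩
  -- it suffices to find two arcs from `c` in the curve
  suffices h : ∃ (g₁ g₂ : X) (Γ₁ Γ₂ : Set X), IsArc Γ₁ c g₁ ∧ IsArc Γ₂ c g₂ ∧ Γ₁ ∩ Γ₂ ⊆ {c} ∧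
        Γ₁ ⊆ A ∪ B ∧ Γ₂ ⊆ A ∪ B by
    obtain ⟨g₁, g₂, Γ₁, Γ₂, h1, h2, h3, h4, h5⟩ := h
    apply hT c g₁ g₂ x Γ₁ Γ₂ C' h1 h2 hC'.symm h3
    · rintro y ⟨hy1, hy2⟩
      exact hC'F ⟨hy2, h4 hy1⟩
    · rintro y ⟨hy1, hy2⟩
      exact hC'F ⟨hy2, h5 hy1⟩
  have hspl : ∀ (a b c : X) (A : Set X), IsArc A a b → c ∈ A → c ≠ a → c ≠ b →
      ∃ (g₁ g₂ : X) (Γ₁ Γ₂ : Set X), IsArc Γ₁ c g₁ ∧ IsArc Γ₂ c g₂ ∧ Γ₁ ∩ Γ₂ ⊆ {c} ∧
        Γ₁ ⊆ A ∧ Γ₂ ⊆ A := by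
    intro a b c A hA hc hca hcb
    obtain ⟨A₁, A₂, hA₁, hA₂, h12, hA12, -, -⟩ := hA.split hc hca hcb
    exact ⟨a, b, A₁, A₂, hA₁.symm, hA₂, h12, hA12 ▸ subset_union_left,
      hA12 ▸ subset_union_right⟩
  by_cases hca : c = a
  · rw [hca]
    exact hint a b A B hA hB hAB
  by_cases hcb : c = b
  · rw [hcb]
    apply hint b a A B hA.symm hB.symm
    rwa [pair_comm]
  rcases hc with hc | hc
  · obtain ⟨g₁, g₂, Γ₁, Γ₂, h1, h2, h3, h4, h5⟩ := hspl a b c A hA hc hca hcb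
    exact ⟨g₁, g₂, Γ₁, Γ₂, h1, h2, h3, h4.trans subset_union_left, h5.trans subset_union_left⟩
  · obtain ⟨g₁, g₂, Γ₁, Γ₂, h1, h2, h3, h4, h5⟩ := hspl a b c B hB hc hca hcb
    exact ⟨g₁, g₂, Γ₁, Γ₂, h1, h2, h3, h4.trans subset_union_right, h5.trans subset_union_right⟩

/-- Without simple closed curves arcs are unique. -/
theorem arc_unique [T2Space X] (hL : NoLoop X) {a b : X} {A B : Set X}
    (hA : IsArc A a b) (hB : IsArc B a b) : A = B := by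
  have main : ∀ A B : Set X, IsArc A a b → IsArc B a b → A ⊆ B := by
    intro A B hA hB x hx
    by_contra hxB
    have hxa : x ≠ a := fun h => hxB (h ▸ hB.left_mem)
    have hxb : x ≠ b := fun h => hxB (h ▸ hB.right_mem)
    obtain ⟨A₁, A₂, hA₁, hA₂, h12, -, -, -⟩ := hA.split hx hxa hxb
    obtain ⟨A₁', hA₁', c, hc, hA₁c, hc1⟩ := hA₁.symm.first_hit hB.isClosed hxB
      ⟨a, hA₁.left_mem, hB.left_mem⟩
    obtain ⟨A₂', hA₂', d, hd, hA₂d, hd1⟩ := hA₂.first_hit hB.isClosed hxB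
      ⟨b, hA₂.right_mem, hB.right_mem⟩
    have hA' : IsArc (A₁' ∪ A₂') c d := by
      apply hA₁c.symm.trans hA₂d
      rintro y ⟨hy1, hy2⟩
      exact h12 ⟨hA₁' hy1, hA₂' hy2⟩
    obtain ⟨B', hB', hB'cd⟩ := hB.sub hc hd hA'.ne
    apply hL c d _ _ hA' hB'cd
    rintro y ⟨hy1 | hy1, hy2⟩
    · left; exact hc1 ⟨hy1, hB' hy2⟩
    · right; exact hd1 ⟨hy1, hB' hy2⟩
  exact Subset.antisymm (main A B hA hB) (main B A hB hA)

theorem IsArc.eq_image [T2Space X] (hL : NoLoop X) {f : ℝ → X} (hc : ContinuousOn f (Icc 0 1))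
    (hi : InjOn f (Icc 0 1)) {s t : ℝ} (hs : s ∈ Icc (0:ℝ) 1) (ht : t ∈ Icc (0:ℝ) 1) {A : Set X}
    (hA : IsArc A (f s) (f t)) : A = f '' uIcc s t :=
  arc_unique hL hA (isArc_uIcc hc hi hs ht (fun h => hA.ne (by rw [h])))

/-- Extending an arc to a further point. -/
theorem exists_extend [T2Space X] (hT : NoTriod X) (hC : ArcConn X) {a b y : X} {A : Set X}
    (hA : IsArc A a b) (hy : y ∉ A) : ∃ A', A ⊆ A' ∧ (IsArc A' a y ∨ IsArc A' b y) := by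
  have hya : y ≠ a := fun h => hy (h ▸ hA.left_mem)
  obtain ⟨C, hCya⟩ := hC y a hya
  obtain ⟨C', -, c, hc, hC', hC'F⟩ := hCya.first_hit hA.isClosed hy
    ⟨a, hCya.right_mem, hA.left_mem⟩
  by_cases hca : c = a
  · subst hca
    refine ⟨A ∪ C', subset_union_left, Or.inr ?_⟩
    apply hA.symm.trans hC'.symm
    rintro z ⟨h1, h2⟩
    exact hC'F ⟨h2, h1⟩
  by_cases hcb : c = b
  · subst hcb
    refine ⟨A ∪ C', subset_union_left, Or.inl ?_⟩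
    apply hA.trans hC'.symm
    rintro z ⟨h1, h2⟩
    exact hC'F ⟨h2, h1⟩
  exfalso
  obtain ⟨A₁, A₂, hA₁, hA₂, h12, hA12, -, -⟩ := hA.split hc hca hcb
  apply hT c a b y A₁ A₂ C' hA₁.symm hA₂ hC'.symm h12
  · rintro z ⟨h1, h2⟩
    exact hC'F ⟨h2, hA12 ▸ Or.inl h1⟩
  · rintro z ⟨h1, h2⟩
    exact hC'F ⟨h2, hA12 ▸ Or.inr h1⟩

theorem exists_extend' [T2Space X] (hT : NoTriod X) (hC : ArcConn X) {a b : X} {A : Set X}
    (hA : IsArc A a b) (y : X) : ∃ (A' : Set X) (a' b' : X), A ⊆ A' ∧ y ∈ A' ∧ IsArc A' a' b' := by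
  by_cases hy : y ∈ A
  · exact ⟨A, a, b, Subset.rfl, hy, hA⟩
  · obtain ⟨A', hA', h | h⟩ := exists_extend hT hC hA hy
    · exact ⟨A', a, y, hA', h.right_mem, h⟩
    · exact ⟨A', b, y, hA', h.right_mem, h⟩

theorem exists_arc_finset [T2Space X] (hT : NoTriod X) (hC : ArcConn X) {a b : X} (hab : a ≠ b)
    (s : Finset X) : ∃ (A : Set X) (a' b' : X), IsArc A a' b' ∧ (s : Set X) ⊆ A := by
  classical
  induction s using Finset.induction_on with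
  | empty =>
    obtain ⟨A, hA⟩ := hC a b hab
    exact ⟨A, a, b, hA, by simp⟩
  | insert x s _ ih =>
    obtain ⟨A, a', b', hA, hs⟩ := ih
    obtain ⟨A', a'', b'', hAA', hx, hA'⟩ := exists_extend' hT hC hA x
    refine ⟨A', a'', b'', hA', ?_⟩
    rw [Finset.coe_insert]
    exact insert_subset hx (hs.trans hAA')

/-- Arcs can be prolonged beyond their endpoints. -/
theorem exists_prolong [T2Space X] (hT : NoTriod X) (hC : ArcConn X) (hL : NoLoop X)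
    (hI : IntArc X) {a b : X} {A : Set X} (hA : IsArc A a b) :
    ∃ (A' : Set X) (b' : X), IsArc A' a b' ∧ A ⊆ A' ∧ b' ∉ A := by
  obtain ⟨g₁, g₂, Γ₁, Γ₂, hΓ₁, hΓ₂, hΓ⟩ := hI b
  obtain ⟨A₁, a₁, b₁, hAA₁, hg₁, hA₁⟩ := exists_extend' hT hC hA g₁
  obtain ⟨A₂, a₂, b₂, hA₁A₂, hg₂, hA₂⟩ := exists_extend' hT hC hA₁ g₂
  have hAA₂ := hAA₁.trans hA₁A₂
  have ha₂ : a ∈ A₂ := hAA₂ hA.left_mem
  have hb₂ : b ∈ A₂ := hAA₂ hA.right_mem
  have hg₁' : g₁ ∈ A₂ := hA₁A₂ hg₁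
  obtain ⟨f, hc, hi, h0, h1, hfA⟩ := hA₂
  rw [← hfA] at ha₂ hb₂ hg₁' hg₂
  obtain ⟨s, hs, rfl⟩ := ha₂
  obtain ⟨t, ht, rfl⟩ := hb₂
  obtain ⟨u₁, hu₁, rfl⟩ := hg₁'
  obtain ⟨u₂, hu₂, rfl⟩ := hg₂
  have eA := hA.eq_image hL hc hi hs ht
  have e1 := hΓ₁.eq_image hL hc hi ht hu₁
  have e2 := hΓ₂.eq_image hL hc hi ht hu₂
  have n1 : t ≠ u₁ := fun h => hΓ₁.ne (by rw [h])
  have n2 : t ≠ u₂ := fun h => hΓ₂.ne (by rw [h])
  have hst : s ≠ t := fun h => hA.ne (by rw [h])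
  have nn1 : ¬ (t < u₁ ∧ t < u₂) := by
    rintro ⟨k1, k2⟩
    have hm : t < min u₁ u₂ := lt_min k1 k2
    have : f (min u₁ u₂) ∈ Γ₁ ∩ Γ₂ := by
      rw [e1, e2]
      refine ⟨mem_image_of_mem f ?_, mem_image_of_mem f ?_⟩
      · rw [uIcc_of_le k1.le]; exact ⟨hm.le, min_le_left _ _⟩
      · rw [uIcc_of_le k2.le]; exact ⟨hm.le, min_le_right _ _⟩
    have h3 : f (min u₁ u₂) = f t := hΓ this
    have : min u₁ u₂ = t := hi ⟨ht.1.trans hm.le, (min_le_left _ _).trans hu₁.2⟩ ht h3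
    linarith
  have nn2 : ¬ (u₁ < t ∧ u₂ < t) := by
    rintro ⟨k1, k2⟩
    have hm : max u₁ u₂ < t := max_lt k1 k2
    have : f (max u₁ u₂) ∈ Γ₁ ∩ Γ₂ := by
      rw [e1, e2]
      refine ⟨mem_image_of_mem f ?_, mem_image_of_mem f ?_⟩
      · rw [uIcc_of_ge k1.le]; exact ⟨le_max_left _ _, hm.le⟩
      · rw [uIcc_of_ge k2.le]; exact ⟨le_max_right _ _, hm.le⟩
    have h3 : f (max u₁ u₂) = f t := hΓ this
    have : max u₁ u₂ = t := hi ⟨hu₁.1.trans (le_max_left _ _), hm.le.trans ht.2⟩ ht h3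
    linarith
  have ht1 : t < 1 := by
    rcases lt_or_gt_of_ne n1 with h | h
    · linarith [hu₁.2]
    · rcases lt_or_gt_of_ne n2 with h' | h'
      · linarith [hu₂.2]
      · exact absurd ⟨h, h'⟩ nn2
  have ht0 : 0 < t := by
    rcases lt_or_gt_of_ne n1 with h | h
    · rcases lt_or_gt_of_ne n2 with h' | h'
      · exact absurd ⟨h, h'⟩ nn1
      · linarith [hu₂.1]
    · linarith [hu₁.1]
  have i0 : (0:ℝ) ∈ Icc (0:ℝ) 1 := by simp
  have i1 : (1:ℝ) ∈ Icc (0:ℝ) 1 := by simp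
  rcases lt_or_gt_of_ne hst with h | h
  · refine ⟨f '' uIcc s 1, f 1, isArc_uIcc hc hi hs i1 (by linarith), ?_, ?_⟩
    · rw [eA, uIcc_of_le h.le, uIcc_of_le hs.2]
      exact image_mono (Icc_subset_Icc le_rfl ht.2)
    · rw [eA, uIcc_of_le h.le]
      rintro ⟨r, hr, hr1⟩
      have : r = 1 := hi ⟨hs.1.trans hr.1, hr.2.trans ht.2⟩ i1 hr1
      linarith [hr.2]
  · refine ⟨f '' uIcc s 0, f 0, isArc_uIcc hc hi hs i0 (by linarith), ?_, ?_⟩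
    · rw [eA, uIcc_of_ge h.le, uIcc_of_ge hs.1]
      exact image_mono (Icc_subset_Icc ht.1 le_rfl)
    · rw [eA, uIcc_of_ge h.le]
      rintro ⟨r, hr, hr1⟩
      have : r = 0 := hi ⟨ht.1.trans hr.1, hr.2.trans hs.2⟩ i0 hr1
      linarith [hr.1]

end Pool.Agent.Helper43
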