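import Mathlib
import Pool.Agent.Helper43.NoTriod

/-!
# Homogeneous triod-free arcwise connected continua contain a simple closed curve (helper file)
-/

set_option autoImplicit false

open Set Topology Filter

namespace Pool.Agent.Helper43

theorem intArc_of_homog {X : Type*} [TopologicalSpace X]
    (hom : ∀ x y : X, ∃ h : X ≃ₜ X, h x = y) (hC : ArcConn X) {a b : X} (hab : a ≠ b) :
    IntArc X := by
  intro x
  obtain ⟨A, f, hc, hi, h0, h1, hA⟩ := hC a b hab
  obtain ⟨h, hh⟩ := hom (f (1/2)) x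
  have i0 : (0:ℝ) ∈ Icc (0:ℝ) 1 := by simp
  have i1 : (1:ℝ) ∈ Icc (0:ℝ) 1 := by simp
  have i2 : (1/2:ℝ) ∈ Icc (0:ℝ) 1 := by norm_num
  have e1 := (isArc_uIcc hc hi i2 i0 (by norm_num)).image h
  have e2 := (isArc_uIcc hc hi i2 i1 (by norm_num)).image h
  rw [hh] at e1 e2
  refine ⟨_, _, _, _, e1, e2, ?_⟩
  rintro _ ⟨⟨_, ⟨r, hr, rfl⟩, rfl⟩, ⟨_, ⟨r', hr', rfl⟩, hrr⟩⟩
  rw [uIcc_of_ge (by norm_num)] at hr
  rw [uIcc_of_le (by norm_num)] at hr'
  have e3 := hi ⟨by linarith [hr'.1], hr'.2⟩ ⟨hr.1, by linarith [hr.2]⟩ (h.injective hrr)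
  have : r = 1/2 := by linarith [hr.2, hr'.1]
  rw [this, hh]
  rfl

theorem noLoop_false {X : Type*} [MetricSpace X] [CompactSpace X]
    (hom : ∀ x y : X, ∃ h : X ≃ₜ X, h x = y) (hT : NoTriod X) (hC : ArcConn X)
    (hL : NoLoop X) {a₀ b₀ : X} (hab₀ : a₀ ≠ b₀) : False := by
  classical
  have hI : IntArc X := intArc_of_homog hom hC hab₀
  -- step 1: `X` is a countable union of arcs through `a₀`
  set o : X := a₀ with ho
  set P : Set (X × X) := {p | ∃ A : Set X, IsArc A p.1 p.2 ∧ o ∈ A} with hP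
  obtain ⟨D, hDP, hDc, hDd⟩ : ∃ D ⊆ P, D.Countable ∧ P ⊆ closure D :=
    (TopologicalSpace.IsSeparable.of_separableSpace P).exists_countable_dense_subset
  have hDA : ∀ p : D, ∃ A : Set X, IsArc A p.1.1 p.1.2 ∧ o ∈ A := fun p => hDP p.2
  choose 𝒜 h𝒜 ho𝒜 using hDA
  have hcov : (⋃ p : D, 𝒜 p) = univ := by
    rw [eq_univ_iff_forall]
    intro z
    by_contra hz
    rw [mem_iUnion] at hz
    push Not at hz
    have hPne : P.Nonempty := by
      obtain ⟨A, hA⟩ := hC a₀ b₀ hab₀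
      exact ⟨(a₀, b₀), A, hA, hA.left_mem⟩
    have hDne : D.Nonempty := by
      by_contra h
      rw [not_nonempty_iff_eq_empty] at h
      rw [h, closure_empty] at hDd
      obtain ⟨p, hp⟩ := hPne
      exact hDd hp
    have hzo : o ≠ z := by
      rintro rfl
      obtain ⟨p, hp⟩ := hDne
      exact hz ⟨p, hp⟩ (ho𝒜 ⟨p, hp⟩)
    obtain ⟨C, hCo⟩ := hC o z hzo
    obtain ⟨C₁, z₁, hC₁, hCC₁, hz₁⟩ := exists_prolong hT hC hL hI hCo
    obtain ⟨C₂, o₁, hC₂, hC₁C₂, ho₁⟩ := exists_prolong hT hC hL hI hC₁.symm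
    have hmem : (z₁, o₁) ∈ P := ⟨C₂, hC₂, hC₁C₂ hC₁.left_mem⟩
    set G : Set (X × X) := (Prod.fst ⁻¹' C) ∪ (Prod.snd ⁻¹' C) with hG
    have hGc : IsClosed G :=
      (hCo.isClosed.preimage continuous_fst).union (hCo.isClosed.preimage continuous_snd)
    have hDG : D ⊆ G := by
      intro p hp
      have hpA := h𝒜 ⟨p, hp⟩
      have hpo := ho𝒜 ⟨p, hp⟩
      have hpz := hz ⟨p, hp⟩
      set A := 𝒜 ⟨p, hp⟩ with hA
      have main : ∀ x y : X, ∀ A' : Set X, IsArc A x y → A ⊆ A' → IsArc A' x z → y ∈ C := by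
        intro x y A' hAxy hAA' hA'
        obtain ⟨f, hc, hi, h0, h1, hfA⟩ := hA'
        have hy : y ∈ A' := hAA' hAxy.right_mem
        have ho' : o ∈ A' := hAA' hpo
        rw [← hfA] at hy ho'
        obtain ⟨t, ht, rfl⟩ := hy
        obtain ⟨s, hs, hso⟩ := ho'
        have i0 : (0:ℝ) ∈ Icc (0:ℝ) 1 := by simp
        have i1 : (1:ℝ) ∈ Icc (0:ℝ) 1 := by simp
        rw [← h0] at hAxy
        have eA := hAxy.eq_image hL hc hi i0 ht
        have hCo' := hCo
        rw [← hso, ← h1] at hCo'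
        have eC := hCo'.eq_image hL hc hi hs i1
        rw [eA, uIcc_of_le ht.1] at hpo
        obtain ⟨s', hs', hs'o⟩ := hpo
        have : s' = s := hi ⟨hs'.1, hs'.2.trans ht.2⟩ hs (by rw [hs'o, hso])
        rw [eC, uIcc_of_le hs.2]
        exact ⟨t, ⟨by rw [← this]; exact hs'.2, ht.2⟩, rfl⟩
      obtain ⟨A', hAA', h | h⟩ := exists_extend hT hC hpA hpz
      · right
        exact main _ _ A' hpA hAA' h
      · left
        exact main _ _ A' hpA.symm hAA' h
    have : (z₁, o₁) ∈ G := closure_minimal hDG hGc (hDd hmem)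
    rcases this with h | h
    · exact hz₁ h
    · exact ho₁ (hCC₁ h)
  -- step 2: some arc has an interior point
  have : Countable D := hDc.to_subtype
  have : Nonempty X := ⟨a₀⟩
  obtain ⟨p, w, hw⟩ := nonempty_interior_of_iUnion_of_closed
    (fun p : D => (h𝒜 p).isClosed) hcov
  -- step 3: every point is interior to an arc
  have hall : ∀ v : X, ∃ (A : Set X) (c d : X), IsArc A c d ∧ A ∈ 𝓝 v := by
    intro v
    obtain ⟨h, hh⟩ := hom w v
    refine ⟨h '' 𝒜 p, _, _, (h𝒜 p).image h, ?_⟩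
    rw [← hh]
    exact h.isOpenMap.image_mem_nhds (mem_interior_iff_mem_nhds.1 hw)
  choose B c d hB hBn using hall
  -- step 4: compactness
  obtain ⟨s, -, hs⟩ := isCompact_univ.elim_nhds_subcover B (fun v _ => hBn v)
  obtain ⟨A, a', b', hA, hsA⟩ := exists_arc_finset hT hC hab₀ (s.image c ∪ s.image d)
  have hAuniv : A = univ := by
    rw [eq_univ_iff_forall]
    intro z
    have hz : z ∈ ⋃ v ∈ s, B v := hs (mem_univ z)
    simp only [mem_iUnion] at hz
    obtain ⟨v, hv, hzv⟩ := hz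
    have hcA : c v ∈ A := hsA (by
      rw [Finset.mem_coe, Finset.mem_union]
      exact Or.inl (Finset.mem_image_of_mem c hv))
    have hdA : d v ∈ A := hsA (by
      rw [Finset.mem_coe, Finset.mem_union]
      exact Or.inr (Finset.mem_image_of_mem d hv))
    obtain ⟨A', hA', hA'cd⟩ := hA.sub hcA hdA (hB v).ne
    rw [arc_unique hL (hB v) hA'cd] at hzv
    exact hA' hzv
  obtain ⟨A', b'', -, -, hb⟩ := exists_prolong hT hC hL hI hA
  exact hb (hAuniv ▸ mem_univ _)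

end Pool.Agent.Helper43
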