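import Mathlib
import Pool.Agent.Helper43.NoTriod

/-!
# Uncountable families of cut points of a continuum (helper file)
-/

set_option autoImplicit false

open Set Topology Filter

namespace Pool.Agent.Helper43

section basic

variable {X : Type*} [TopologicalSpace X]

theorem isPreconnected_side {C U V : Set X} {y : X} (hC : IsPreconnected C) (hU : IsOpen U)
    (hV : IsOpen V) (hUV : Disjoint U V) (hcov : C \ {y} ⊆ U ∪ V) (hy : y ∈ C) :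
    IsPreconnected (C ∩ U ∪ {y}) := by
  have main : ∀ G₁ G₂ : Set X, IsOpen G₁ → IsOpen G₂ → C ∩ U ∪ {y} ⊆ G₁ ∪ G₂ → y ∈ G₁ →
      ((C ∩ U ∪ {y}) ∩ G₂).Nonempty → ((C ∩ U ∪ {y}) ∩ (G₁ ∩ G₂)).Nonempty := by
    intro G₁ G₂ hG₁ hG₂ hcovG hyG hne
    by_contra hcon
    have hno : ∀ x ∈ C ∩ U ∪ {y}, x ∈ G₁ → x ∉ G₂ := fun x hx h1 h2 => hcon ⟨x, hx, h1, h2⟩
    have h1 : C ⊆ (G₁ ∪ V) ∪ (U ∩ G₂) := by
      intro x hx
      by_cases hxy : x = y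
      · rw [hxy]; exact Or.inl (Or.inl hyG)
      · rcases hcov ⟨hx, hxy⟩ with h | h
        · rcases hcovG (Or.inl ⟨hx, h⟩) with h' | h'
          · exact Or.inl (Or.inl h')
          · exact Or.inr ⟨h, h'⟩
        · exact Or.inl (Or.inr h)
    have h2 : (C ∩ (G₁ ∪ V)).Nonempty := ⟨y, hy, Or.inl hyG⟩
    have h3 : (C ∩ (U ∩ G₂)).Nonempty := by
      obtain ⟨x, hx, hxG⟩ := hne
      rcases hx with hx | hx
      · exact ⟨x, hx.1, hx.2, hxG⟩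
      · exfalso
        have hx' : x = y := hx
        rw [hx'] at hxG
        exact hno y (Or.inr rfl) hyG hxG
    obtain ⟨x, hxC, hx1, hx2⟩ := hC _ _ (hG₁.union hV) (hU.inter hG₂) h1 h2 h3
    rcases hx1 with h | h
    · exact hno x (Or.inl ⟨hxC, hx2.1⟩) h hx2.2
    · exact disjoint_left.1 hUV hx2.1 h
  intro G₁ G₂ hG₁ hG₂ hcovG hne₁ hne₂
  rcases hcovG (Or.inr rfl : y ∈ C ∩ U ∪ {y}) with h | h
  · exact main G₁ G₂ hG₁ hG₂ hcovG h hne₂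
  · have := main G₂ G₁ hG₂ hG₁ (by rwa [union_comm G₂ G₁]) h hne₁
    rwa [inter_comm G₂ G₁] at this

/-- Data: a family of cut points of `C` separating `a` from `b`. -/
structure CutFam (C E : Set X) (a b : X) (U V : X → Set X) : Prop where
  conn : IsPreconnected C
  sub : E ⊆ C
  ha : a ∈ C
  hb : b ∈ C
  openU : ∀ y ∈ E, IsOpen (U y)
  openV : ∀ y ∈ E, IsOpen (V y)
  disj : ∀ y ∈ E, Disjoint (U y) (V y)
  cov : ∀ y ∈ E, C \ {y} ⊆ U y ∪ V y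
  notU : ∀ y ∈ E, y ∉ U y
  notV : ∀ y ∈ E, y ∉ V y
  aU : ∀ y ∈ E, a ∈ U y
  bV : ∀ y ∈ E, b ∈ V y

variable {C E : Set X} {a b : X} {U V : X → Set X}

theorem CutFam.swap (h : CutFam C E a b U V) : CutFam C E b a V U where
  conn := h.conn
  sub := h.sub
  ha := h.hb
  hb := h.ha
  openU := h.openV
  openV := h.openU
  disj := fun y hy => (h.disj y hy).symm
  cov := fun y hy => by rw [union_comm]; exact h.cov y hy
  notU := h.notV
  notV := h.notU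
  aU := h.bV
  bV := h.aU

theorem CutFam.order (h : CutFam C E a b U V) {y z : X} (hy : y ∈ E) (hz : z ∈ E)
    (hyz : y ≠ z) (hyU : y ∈ U z) : C ∩ V z ∪ {z} ⊆ V y := by
  have hS : IsPreconnected (C ∩ V z ∪ {z}) := by
    apply isPreconnected_side h.conn (h.openV z hz) (h.openU z hz) (h.disj z hz).symm _ (h.sub hz)
    rw [union_comm]
    exact h.cov z hz
  have hyS : y ∉ C ∩ V z ∪ {z} := by
    rintro (h1 | h1)
    · exact disjoint_left.1 (h.disj z hz) hyU h1.2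
    · exact hyz h1
  have hsub : C ∩ V z ∪ {z} ⊆ U y ∪ V y := by
    intro x hx
    apply h.cov y hy
    refine ⟨?_, ?_⟩
    · rcases hx with hx | hx
      · exact hx.1
      · have hx' : x = z := hx
        rw [hx']; exact h.sub hz
    · intro hxy
      have hx' : x = y := hxy
      rw [hx'] at hx
      exact hyS hx
  exact hS.subset_right_of_subset_union (h.openU y hy) (h.openV y hy) (h.disj y hy) hsub
    ⟨b, Or.inl ⟨h.hb, h.bV z hz⟩, h.bV y hy⟩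

theorem CutFam.mem_V_of_mem_U (h : CutFam C E a b U V) {y z : X} (hy : y ∈ E) (hz : z ∈ E)
    (hyU : y ∈ U z) : z ∈ V y := by
  have hyz : y ≠ z := by
    rintro rfl
    exact h.notU y hy hyU
  exact h.order hy hz hyz hyU (Or.inr rfl)

theorem CutFam.mem_U_of_mem_V (h : CutFam C E a b U V) {y z : X} (hy : y ∈ E) (hz : z ∈ E)
    (hyV : y ∈ V z) : z ∈ U y := h.swap.mem_V_of_mem_U hy hz hyV

theorem CutFam.total (h : CutFam C E a b U V) {y z : X} (hy : y ∈ E) (hz : z ∈ E)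
    (hyz : y ≠ z) : y ∈ U z ∨ z ∈ U y := by
  rcases h.cov z hz ⟨h.sub hy, hyz⟩ with h1 | h1
  · exact Or.inl h1
  · exact Or.inr (h.mem_U_of_mem_V hy hz h1)

end basic

section whyburn

variable {X : Type*} [MetricSpace X] [CompactSpace X]
variable {C E : Set X} {a b : X} {U V : X → Set X}

theorem CutFam.left_bad_countable_aux (h : CutFam C E a b U V) (hCc : IsClosed C) (B : Set X)
    (hB : IsOpen B) :
    {y ∈ E | y ∈ B ∧ (∃ u ∈ E, y ∈ V u) ∧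
      ∀ u ∈ E, y ∈ V u → ¬ (C ∩ V u ∩ (U y ∪ {y}) ⊆ B)}.Countable := by
  set L := {y ∈ E | y ∈ B ∧ (∃ u ∈ E, y ∈ V u) ∧
      ∀ u ∈ E, y ∈ V u → ¬ (C ∩ V u ∩ (U y ∪ {y}) ⊆ B)} with hL
  -- choose the points `z y`
  have hz : ∀ y ∈ L, ∃ z ∈ C, z ∈ U y ∧ ∀ u ∈ E, y ∈ V u → z ∉ U u := by
    rintro y ⟨hy, hyB, ⟨u₀, hu₀, hu₀'⟩, hbad⟩
    have : Nonempty {u // u ∈ E ∧ y ∈ V u} := ⟨⟨u₀, hu₀, hu₀'⟩⟩
    set F : {u // u ∈ E ∧ y ∈ V u} → Set X := fun u => C ∩ (U u)ᶜ ∩ (V y)ᶜ ∩ Bᶜ with hF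
    have hFc : ∀ i, IsClosed (F i) := fun i =>
      ((hCc.inter (h.openU i i.2.1).isClosed_compl).inter (h.openV y hy).isClosed_compl).inter
        hB.isClosed_compl
    have hdir : Directed (· ⊇ ·) F := by
      intro i j
      by_cases hij : (i : X) = j
      · refine ⟨i, Subset.rfl, ?_⟩
        rw [Subtype.ext hij]
      · rcases h.total i.2.1 j.2.1 hij with h1 | h1
        · -- `i < j`
          refine ⟨j, ?_, Subset.rfl⟩
          have h2 : C ∩ U i ∪ {(i : X)} ⊆ U j :=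
            h.swap.order j.2.1 i.2.1 (fun e => hij e.symm) (h.mem_V_of_mem_U i.2.1 j.2.1 h1)
          rintro x ⟨⟨⟨hx1, hx2⟩, hx3⟩, hx4⟩
          exact ⟨⟨⟨hx1, fun hx => hx2 (h2 (Or.inl ⟨hx1, hx⟩))⟩, hx3⟩, hx4⟩
        · refine ⟨i, Subset.rfl, ?_⟩
          have h2 : C ∩ U j ∪ {(j : X)} ⊆ U i :=
            h.swap.order i.2.1 j.2.1 hij (h.mem_V_of_mem_U j.2.1 i.2.1 h1)
          rintro x ⟨⟨⟨hx1, hx2⟩, hx3⟩, hx4⟩
          exact ⟨⟨⟨hx1, fun hx => hx2 (h2 (Or.inl ⟨hx1, hx⟩))⟩, hx3⟩, hx4⟩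
    have hne : ∀ i, (F i).Nonempty := by
      rintro ⟨u, hu, hyu⟩
      obtain ⟨x, ⟨⟨hx1, hx2⟩, hx3⟩, hxB⟩ := not_subset.1 (hbad u hu hyu)
      refine ⟨x, ⟨⟨hx1, fun hxu => disjoint_left.1 (h.disj u hu) hxu hx2⟩, ?_⟩, hxB⟩
      intro hxV
      rcases hx3 with hx3 | hx3
      · exact disjoint_left.1 (h.disj y hy) hx3 hxV
      · have hx' : x = y := hx3
        rw [hx'] at hxV
        exact h.notV y hy hxV
    obtain ⟨z, hz⟩ := IsCompact.nonempty_iInter_of_directed_nonempty_isCompact_isClosed F hdir hne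
      (fun i => (hFc i).isCompact) hFc
    rw [mem_iInter] at hz
    have hz0 := hz ⟨u₀, hu₀, hu₀'⟩
    have hzC : z ∈ C := hz0.1.1.1
    have hzy : z ≠ y := by
      rintro rfl
      exact hz0.2 hyB
    refine ⟨z, hzC, ?_, ?_⟩
    · rcases h.cov y hy ⟨hzC, hzy⟩ with h1 | h1
      · exact h1
      · exact absurd h1 hz0.1.2
    · intro u hu hyu
      exact (hz ⟨u, hu, hyu⟩).1.1.2
  choose! z hzC hzU hzn using hz
  -- choose basic open sets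
  set 𝓑 := TopologicalSpace.countableBasis X with h𝓑
  have hb : ∀ y ∈ L, ∃ n ∈ 𝓑, z y ∈ n ∧ n ⊆ U y := by
    intro y hy
    obtain ⟨n, hn, h1, h2⟩ := (TopologicalSpace.isBasis_countableBasis X).exists_subset_of_mem_open
      (hzU y hy) (h.openU y hy.1)
    exact ⟨n, hn, h1, h2⟩
  choose! n hn hzn' hnU using hb
  apply MapsTo.countable_of_injOn (f := n) (t := 𝓑) (fun y hy => hn y hy) _
    (TopologicalSpace.countable_countableBasis X)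
  intro y₁ hy₁ y₂ hy₂ hn12
  by_contra hne
  have key : ∀ y₁ ∈ L, ∀ y₂ ∈ L, n y₁ = n y₂ → y₁ ∈ U y₂ → False := by
    intro y₁ hy₁ y₂ hy₂ hn12 hlt
    have h1 : y₂ ∈ V y₁ := h.mem_V_of_mem_U hy₁.1 hy₂.1 hlt
    have h2 : z y₂ ∉ U y₁ := hzn y₂ hy₂ y₁ hy₁.1 h1
    apply h2
    apply hnU y₁ hy₁
    rw [hn12]
    exact hzn' y₂ hy₂
  rcases h.total hy₁.1 hy₂.1 hne with h1 | h1
  · exact key y₁ hy₁ y₂ hy₂ hn12 h1
  · exact key y₂ hy₂ y₁ hy₁ hn12.symm h1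

theorem CutFam.left_bad_countable (h : CutFam C E a b U V) (hCc : IsClosed C) :
    {y ∈ E | ¬ ∀ W ∈ 𝓝 y, ∃ u ∈ E, y ∈ V u ∧ C ∩ V u ∩ (U y ∪ {y}) ⊆ W}.Countable := by
  set 𝓑 := TopologicalSpace.countableBasis X with h𝓑
  have h1 : ({y ∈ E | ¬ ∃ u ∈ E, y ∈ V u}).Countable := by
    apply Set.Subsingleton.countable
    rintro y ⟨hy, hy'⟩ z ⟨hz, hz'⟩
    by_contra hyz
    rcases h.total hy hz hyz with h2 | h2
    · exact hz' ⟨y, hy, h.mem_V_of_mem_U hy hz h2⟩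
    · exact hy' ⟨z, hz, h.mem_V_of_mem_U hz hy h2⟩
  have h2 : (⋃ B ∈ 𝓑, {y ∈ E | y ∈ B ∧ (∃ u ∈ E, y ∈ V u) ∧
      ∀ u ∈ E, y ∈ V u → ¬ (C ∩ V u ∩ (U y ∪ {y}) ⊆ B)}).Countable := by
    apply (TopologicalSpace.countable_countableBasis X).biUnion
    intro B hB
    exact h.left_bad_countable_aux hCc B
      ((TopologicalSpace.isBasis_countableBasis X).isOpen hB)
  apply (h1.union h2).mono
  rintro y ⟨hy, hbad⟩
  by_cases hex : ∃ u ∈ E, y ∈ V u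
  · right
    push Not at hbad
    obtain ⟨W, hW, hWbad⟩ := hbad
    obtain ⟨B, hB, hyB, hBW⟩ :=
      (TopologicalSpace.isBasis_countableBasis X).mem_nhds_iff.1 hW
    rw [mem_iUnion₂]
    refine ⟨B, hB, hy, hyB, hex, ?_⟩
    intro u hu hyu hsub
    exact hWbad u hu hyu (hsub.trans hBW)
  · left
    exact ⟨hy, hex⟩

/-- Among uncountably many points separating `a` from `b` in a continuum `C` there is one with
arbitrarily small relative neighbourhoods bounded by two members of the family. -/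
theorem CutFam.exists_good (h : CutFam C E a b U V) (hCc : IsClosed C) (hE : ¬ E.Countable) :
    ∃ y ∈ E, ∀ W ∈ 𝓝 y, ∃ u ∈ E, ∃ v ∈ E, y ∈ V u ∧ y ∈ U v ∧ C ∩ V u ∩ U v ⊆ W := by
  have h1 := h.left_bad_countable hCc
  have h2 := h.swap.left_bad_countable hCc
  obtain ⟨y, hy, hy'⟩ : ∃ y ∈ E, y ∉
      {y ∈ E | ¬ ∀ W ∈ 𝓝 y, ∃ u ∈ E, y ∈ V u ∧ C ∩ V u ∩ (U y ∪ {y}) ⊆ W} ∪
      {y ∈ E | ¬ ∀ W ∈ 𝓝 y, ∃ u ∈ E, y ∈ U u ∧ C ∩ U u ∩ (V y ∪ {y}) ⊆ W} := by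
    by_contra hcon
    apply hE
    apply (h1.union h2).mono
    intro y hy
    by_contra hy'
    exact hcon ⟨y, hy, hy'⟩
  refine ⟨y, hy, ?_⟩
  intro W hW
  have g1 : ∃ u ∈ E, y ∈ V u ∧ C ∩ V u ∩ (U y ∪ {y}) ⊆ W := by
    by_contra hcon
    exact hy' (Or.inl ⟨hy, fun hh => hcon (hh W hW)⟩)
  have g2 : ∃ u ∈ E, y ∈ U u ∧ C ∩ U u ∩ (V y ∪ {y}) ⊆ W := by
    by_contra hcon
    exact hy' (Or.inr ⟨hy, fun hh => hcon (hh W hW)⟩)
  obtain ⟨u, hu, hyu, hu'⟩ := g1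
  obtain ⟨v, hv, hyv, hv'⟩ := g2
  refine ⟨u, hu, v, hv, hyu, hyv, ?_⟩
  rintro x ⟨⟨hxC, hxV⟩, hxU⟩
  by_cases hxy : x = y
  · rw [hxy]; exact mem_of_mem_nhds hW
  · rcases h.cov y hy ⟨hxC, hxy⟩ with h3 | h3
    · exact hu' ⟨⟨hxC, hxV⟩, Or.inl h3⟩
    · exact hv' ⟨⟨hxC, hxU⟩, Or.inl h3⟩

end whyburn

end Pool.Agent.Helper43
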