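import Mathlib
import Pool.Agent.Helper43.CutPoints

/-!
# Separating pairs and local cut points (helper file)
-/

set_option autoImplicit false

open Set Topology Filter

namespace Pool.Agent.Helper43

section defs

variable {X : Type*} [TopologicalSpace X]

/-- small neighbourhoods in the local component are bounded by two points -/
def LocTwo (x : X) : Prop :=
  ∃ N ∈ 𝓝 x, ∀ W ∈ 𝓝 x, ∃ u v : X, u ≠ x ∧ v ≠ x ∧
    ∀ T : Set X, T ⊆ N → IsPreconnected T → x ∈ T → u ∉ T → v ∉ T → T ⊆ W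

theorem LocTwo.homeo {x : X} (hx : LocTwo x) (h : X ≃ₜ X) : LocTwo (h x) := by
  obtain ⟨N, hN, hNW⟩ := hx
  refine ⟨h '' N, h.isOpenMap.image_mem_nhds hN, ?_⟩
  intro W hW
  obtain ⟨u, v, hu, hv, hT⟩ := hNW (h ⁻¹' W) (h.continuous.continuousAt hW)
  refine ⟨h u, h v, fun e => hu (h.injective e), fun e => hv (h.injective e), ?_⟩
  intro T hTN hTc hxT huT hvT
  have := hT (h ⁻¹' T) ?_ ?_ hxT huT hvT
  · intro y hy
    obtain ⟨z, rfl⟩ := h.surjective y
    exact this hy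
  · intro y hy
    obtain ⟨z, hz, hzy⟩ := hTN hy
    rwa [← h.injective hzy]
  · exact h.isPreconnected_preimage.2 hTc

/-- `z` can be reached from `U` inside every neighbourhood by a connected set. -/
def Acc (z : X) (U : Set X) : Prop :=
  ∀ N ∈ 𝓝 z, ∃ T ⊆ N, IsPreconnected T ∧ z ∈ T ∧ (T ∩ U).Nonempty

/-- separating pair, accessible at the first point from both sides -/
structure Sep (z z' : X) (U V : Set X) : Prop where
  ne : z ≠ z'
  openU : IsOpen U
  openV : IsOpen V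
  disj : Disjoint U V
  cov : ({z, z'} : Set X)ᶜ = U ∪ V
  accU : Acc z U
  accV : Acc z V

theorem Acc.homeo {z : X} {U : Set X} (hz : Acc z U) (h : X ≃ₜ X) : Acc (h z) (h '' U) := by
  intro N hN
  obtain ⟨T, hTN, hTc, hzT, ⟨x, hxT, hxU⟩⟩ := hz (h ⁻¹' N) (h.continuous.continuousAt hN)
  refine ⟨h '' T, image_subset_iff.2 hTN, hTc.image h h.continuous.continuousOn,
    mem_image_of_mem h hzT, ⟨h x, mem_image_of_mem h hxT, mem_image_of_mem h hxU⟩⟩

theorem Sep.homeo {z z' : X} {U V : Set X} (hz : Sep z z' U V) (h : X ≃ₜ X) :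
    Sep (h z) (h z') (h '' U) (h '' V) where
  ne := fun e => hz.ne (h.injective e)
  openU := h.isOpenMap U hz.openU
  openV := h.isOpenMap V hz.openV
  disj := (disjoint_image_iff h.injective).2 hz.disj
  cov := by
    rw [← image_union, ← hz.cov, h.image_compl, image_pair]
  accU := hz.accU.homeo h
  accV := hz.accV.homeo h

theorem IsArc.small {A : Set X} {x a : X} (h : IsArc A x a) {N : Set X} (hN : N ∈ 𝓝 x) :
    ∃ T ⊆ A, T ⊆ N ∧ IsPreconnected T ∧ x ∈ T ∧ ∃ y ∈ T, y ≠ x := by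
  obtain ⟨f, hc, hi, h0, h1, hA⟩ := h
  have i0 : (0:ℝ) ∈ Icc (0:ℝ) 1 := by simp
  have hcont := hc 0 i0
  rw [ContinuousWithinAt, h0] at hcont
  have hmem := hcont hN
  rw [Filter.mem_map, Metric.mem_nhdsWithin_iff] at hmem
  obtain ⟨ε, hε, hsub⟩ := hmem
  set δ := min (ε / 2) 1 with hδ
  have hδ0 : 0 < δ := lt_min (half_pos hε) one_pos
  have hδ1 : δ ≤ 1 := min_le_right _ _
  have hδε : δ < ε := lt_of_le_of_lt (min_le_left _ _) (half_lt_self hε)
  have hsub1 : Icc 0 δ ⊆ Icc (0:ℝ) 1 := Icc_subset_Icc le_rfl hδ1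
  refine ⟨f '' Icc 0 δ, ?_, ?_, isPreconnected_Icc.image f (hc.mono hsub1), ⟨0, ⟨le_rfl, hδ0.le⟩, h0⟩,
    f δ, ⟨δ, ⟨hδ0.le, le_rfl⟩, rfl⟩, ?_⟩
  · rw [← hA]; exact image_mono hsub1
  · rintro _ ⟨r, hr, rfl⟩
    apply hsub
    refine ⟨?_, hsub1 hr⟩
    rw [Metric.mem_ball, Real.dist_eq, sub_zero, abs_of_nonneg hr.1]
    exact lt_of_le_of_lt hr.2 hδε
  · rw [← h0]
    intro e
    have := hi (hsub1 ⟨hδ0.le, le_rfl⟩) i0 e
    linarith

theorem noTriod_of_locTwo [T1Space X] (h : ∀ x : X, LocTwo x) : NoTriod X := by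
  intro x a b c A B C hA hB hC hAB hAC hBC
  obtain ⟨N, hN, hNW⟩ := h x
  obtain ⟨T₁, hT₁A, hT₁N, hT₁c, hxT₁, y₁, hy₁, hyx₁⟩ := hA.small hN
  obtain ⟨T₂, hT₂B, hT₂N, hT₂c, hxT₂, y₂, hy₂, hyx₂⟩ := hB.small hN
  obtain ⟨T₃, hT₃C, hT₃N, hT₃c, hxT₃, y₃, hy₃, hyx₃⟩ := hC.small hN
  have hW : ({y₁} : Set X)ᶜ ∩ {y₂}ᶜ ∩ {y₃}ᶜ ∈ 𝓝 x :=
    inter_mem (inter_mem (isOpen_compl_singleton.mem_nhds hyx₁.symm)
      (isOpen_compl_singleton.mem_nhds hyx₂.symm)) (isOpen_compl_singleton.mem_nhds hyx₃.symm)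
  obtain ⟨u, v, hu, hv, hT⟩ := hNW _ hW
  have k1 : u ∈ T₁ ∨ v ∈ T₁ := by
    by_contra hcon
    push Not at hcon
    exact (hT T₁ hT₁N hT₁c hxT₁ hcon.1 hcon.2 hy₁).1.1 rfl
  have k2 : u ∈ T₂ ∨ v ∈ T₂ := by
    by_contra hcon
    push Not at hcon
    exact (hT T₂ hT₂N hT₂c hxT₂ hcon.1 hcon.2 hy₂).1.2 rfl
  have k3 : u ∈ T₃ ∨ v ∈ T₃ := by
    by_contra hcon
    push Not at hcon
    exact (hT T₃ hT₃N hT₃c hxT₃ hcon.1 hcon.2 hy₃).2 rfl
  rcases k1 with k1 | k1 <;> rcases k2 with k2 | k2 <;> rcases k3 with k3 | k3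
  · exact hu (hAB ⟨hT₁A k1, hT₂B k2⟩)
  · exact hu (hAB ⟨hT₁A k1, hT₂B k2⟩)
  · exact hu (hAC ⟨hT₁A k1, hT₃C k3⟩)
  · exact hv (hBC ⟨hT₂B k2, hT₃C k3⟩)
  · exact hu (hBC ⟨hT₂B k2, hT₃C k3⟩)
  · exact hv (hAC ⟨hT₁A k1, hT₃C k3⟩)
  · exact hv (hAB ⟨hT₁A k1, hT₂B k2⟩)
  · exact hv (hAB ⟨hT₁A k1, hT₂B k2⟩)

end defs

section exist

variable {X : Type*} [MetricSpace X]

/-- One point of a separating pair is accessible from both sides. -/
theorem exists_sep [PathConnectedSpace X] {a b : X} (hab : a ≠ b)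
    (hnc : ¬ IsConnected (({a, b} : Set X)ᶜ)) :
    ∃ (z z' : X) (U V : Set X), Sep z z' U V := by
  -- the complement is nonempty
  have hne : (({a, b} : Set X)ᶜ).Nonempty := by
    by_contra h
    rw [not_nonempty_iff_eq_empty, compl_empty_iff] at h
    have h1 : (univ : Set X).Infinite :=
      (isPreconnected_univ (α := X)).infinite_of_nontrivial ⟨a, trivial, b, trivial, hab⟩
    rw [← h] at h1
    exact h1 (toFinite _)
  have hnp : ¬ IsPreconnected (({a, b} : Set X)ᶜ) := fun h => hnc ⟨hne, h⟩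
  have hopen : IsOpen (({a, b} : Set X)ᶜ) := (toFinite _).isClosed.isOpen_compl
  unfold IsPreconnected at hnp
  push Not at hnp
  obtain ⟨u, v, hu, hv, huv, hune, hvne, hemp⟩ := hnp
  set U : Set X := ({a, b} : Set X)ᶜ ∩ u with hU
  set V : Set X := ({a, b} : Set X)ᶜ ∩ v with hV
  have hUo : IsOpen U := hopen.inter hu
  have hVo : IsOpen V := hopen.inter hv
  have hUV : Disjoint U V := by
    rw [disjoint_left]
    rintro x ⟨hx1, hx2⟩ ⟨_, hx3⟩
    have : x ∈ ({a, b} : Set X)ᶜ ∩ (u ∩ v) := ⟨hx1, hx2, hx3⟩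
    rw [hemp] at this
    exact this
  have hcov : ({a, b} : Set X)ᶜ = U ∪ V := by
    rw [hU, hV, ← inter_union_distrib_left]
    exact (inter_eq_left.2 huv).symm
  obtain ⟨x, hxU⟩ := hune
  obtain ⟨y, hyV⟩ := hvne
  obtain ⟨γ⟩ := PathConnectedSpace.joined x y
  set f : ℝ → X := ⇑γ.extend with hf
  have hfc : Continuous f := γ.continuous_extend
  have hf0 : f 0 = x := by simp [hf]
  have hf1 : f 1 = y := by simp [hf]
  have hx' : f 0 ∈ U := by rw [hf0]; exact hxU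
  have hy' : f 1 ∈ V := by rw [hf1]; exact hyV
  have hmemc : ∀ p, p ∉ U → p ∉ V → p ∈ ({a, b} : Set X) := by
    intro p h1 h2
    by_contra h3
    have : p ∈ ({a, b} : Set X)ᶜ := h3
    rw [hcov] at this
    rcases this with h | h
    · exact h1 h
    · exact h2 h
  -- first entrance time of `V`
  set SV : Set ℝ := {t | t ∈ Icc (0:ℝ) 1 ∧ f t ∈ V} with hSV
  have hSVn : SV.Nonempty := ⟨1, by simp, hy'⟩
  have hSVb : BddBelow SV := ⟨0, fun t ht => ht.1.1⟩
  set t₀ := sInf SV with ht₀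
  have ht₀0 : 0 ≤ t₀ := le_csInf hSVn fun t ht => ht.1.1
  have ht₀1 : t₀ ≤ 1 := csInf_le hSVb ⟨by simp, hy'⟩
  have hbelow : ∀ t, 0 ≤ t → t < t₀ → f t ∉ V := by
    intro t ht0 ht htV
    have : t₀ ≤ t := csInf_le hSVb ⟨⟨ht0, ht.le.trans ht₀1⟩, htV⟩
    linarith
  have ht₀V : f t₀ ∉ V := by
    intro h
    have hpos : 0 < t₀ := by
      rcases eq_or_lt_of_le ht₀0 with h' | h'
      · exfalso
        rw [← h'] at h
        exact disjoint_left.1 hUV hx' h
      · exact h'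
    have hnb : f ⁻¹' V ∈ 𝓝 t₀ := (hVo.preimage hfc).mem_nhds h
    obtain ⟨ε, hε, hball⟩ := Metric.mem_nhds_iff.1 hnb
    set t := max 0 (t₀ - ε / 2) with ht
    have h1 : t < t₀ := max_lt hpos (by linarith)
    have h2 : t ∈ Metric.ball t₀ ε := by
      rw [Metric.mem_ball, Real.dist_eq, abs_of_nonpos (by linarith)]
      have : t₀ - ε / 2 ≤ t := le_max_right _ _
      linarith
    exact hbelow t (le_max_left _ _) h1 (hball h2)
  have hnear : ∀ ε > 0, ∃ t ∈ SV, t < t₀ + ε := fun ε hε =>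
    exists_lt_of_csInf_lt hSVn (by linarith)
  have ht₀U : f t₀ ∉ U := by
    intro h
    have hnb : f ⁻¹' U ∈ 𝓝 t₀ := (hUo.preimage hfc).mem_nhds h
    obtain ⟨ε, hε, hball⟩ := Metric.mem_nhds_iff.1 hnb
    obtain ⟨t, ht, htε⟩ := hnear ε hε
    have h1 : t₀ ≤ t := csInf_le hSVb ht
    have h2 : t ∈ Metric.ball t₀ ε := by
      rw [Metric.mem_ball, Real.dist_eq, abs_of_nonneg (by linarith)]
      linarith
    exact disjoint_left.1 hUV (hball h2) ht.2
  -- last exit time of `U` before `t₀`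
  set SU : Set ℝ := {t | t ∈ Icc (0:ℝ) t₀ ∧ f t ∈ U} with hSU
  have hSUn : SU.Nonempty := ⟨0, ⟨le_rfl, ht₀0⟩, hx'⟩
  have hSUb : BddAbove SU := ⟨t₀, fun t ht => ht.1.2⟩
  set s₀ := sSup SU with hs₀
  have hs₀0 : 0 ≤ s₀ := le_csSup hSUb ⟨⟨le_rfl, ht₀0⟩, hx'⟩
  have hs₀t : s₀ ≤ t₀ := csSup_le hSUn fun t ht => ht.1.2
  have habove : ∀ t, s₀ < t → t ≤ t₀ → f t ∉ U := by
    intro t ht0 ht htU
    have : t ≤ s₀ := le_csSup hSUb ⟨⟨hs₀0.trans ht0.le, ht⟩, htU⟩
    linarith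
  have hs₀U : f s₀ ∉ U := by
    intro h
    have hlt : s₀ < t₀ := by
      rcases eq_or_lt_of_le hs₀t with h' | h'
      · exfalso
        rw [h'] at h
        exact ht₀U h
      · exact h'
    have hnb : f ⁻¹' U ∈ 𝓝 s₀ := (hUo.preimage hfc).mem_nhds h
    obtain ⟨ε, hε, hball⟩ := Metric.mem_nhds_iff.1 hnb
    set t := min t₀ (s₀ + ε / 2) with ht
    have h1 : s₀ < t := lt_min hlt (by linarith)
    have h2 : t ∈ Metric.ball s₀ ε := by
      rw [Metric.mem_ball, Real.dist_eq, abs_of_nonneg (by linarith)]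
      have : t ≤ s₀ + ε / 2 := min_le_right _ _
      linarith
    exact habove t h1 (min_le_left _ _) (hball h2)
  have hs₀V : f s₀ ∉ V := by
    rcases eq_or_lt_of_le hs₀t with h' | h'
    · rw [h']; exact ht₀V
    · exact hbelow s₀ hs₀0 h'
  have hnear' : ∀ ε > 0, ∃ t ∈ SU, s₀ - ε < t := fun ε hε =>
    exists_lt_of_lt_csSup hSUn (by linarith)
  -- `f` is constant on `[s₀, t₀]`
  have hconst : f s₀ = f t₀ := by
    by_contra hne'
    have hsub : f '' Icc s₀ t₀ ⊆ ({a, b} : Set X) := by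
      rintro _ ⟨r, hr, rfl⟩
      rcases eq_or_lt_of_le hr.1 with h1 | h1
      · rw [← h1]; exact hmemc _ hs₀U hs₀V
      · rcases eq_or_lt_of_le hr.2 with h2 | h2
        · rw [h2]; exact hmemc _ ht₀U ht₀V
        · exact hmemc _ (habove r h1 h2.le) (hbelow r (hs₀0.trans h1.le) h2)
    have hinf : (f '' Icc s₀ t₀).Infinite :=
      (isPreconnected_Icc.image f hfc.continuousOn).infinite_of_nontrivial
        ⟨f s₀, ⟨s₀, ⟨le_rfl, hs₀t⟩, rfl⟩, f t₀, ⟨t₀, ⟨hs₀t, le_rfl⟩, rfl⟩, hne'⟩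
    exact hinf ((toFinite _).subset hsub)
  set z := f t₀ with hz
  have haccV : Acc z V := by
    intro N hN
    have hnb : f ⁻¹' N ∈ 𝓝 t₀ := hfc.continuousAt hN
    obtain ⟨ε, hε, hball⟩ := Metric.mem_nhds_iff.1 hnb
    obtain ⟨t, ht, htε⟩ := hnear ε hε
    have h1 : t₀ ≤ t := csInf_le hSVb ht
    refine ⟨f '' Icc t₀ t, ?_, isPreconnected_Icc.image f hfc.continuousOn,
      ⟨t₀, ⟨le_rfl, h1⟩, rfl⟩, ⟨f t, ⟨t, ⟨h1, le_rfl⟩, rfl⟩, ht.2⟩⟩
    rintro _ ⟨r, hr, rfl⟩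
    apply hball
    rw [Metric.mem_ball, Real.dist_eq, abs_of_nonneg (by linarith [hr.1])]
    linarith [hr.2]
  have haccU : Acc z U := by
    intro N hN
    rw [← hconst] at hN
    have hnb : f ⁻¹' N ∈ 𝓝 s₀ := hfc.continuousAt hN
    obtain ⟨ε, hε, hball⟩ := Metric.mem_nhds_iff.1 hnb
    obtain ⟨t, ht, htε⟩ := hnear' ε hε
    have h1 : t ≤ s₀ := le_csSup hSUb ht
    refine ⟨f '' Icc t s₀, ?_, isPreconnected_Icc.image f hfc.continuousOn,
      ⟨s₀, ⟨h1, le_rfl⟩, hconst⟩, ⟨f t, ⟨t, ⟨le_rfl, h1⟩, rfl⟩, ht.2⟩⟩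
    rintro _ ⟨r, hr, rfl⟩
    apply hball
    rw [Metric.mem_ball, Real.dist_eq, abs_of_nonpos (by linarith [hr.2])]
    linarith [hr.1]
  rcases hmemc z ht₀U ht₀V with h | h
  · refine ⟨z, b, U, V, ?_, hUo, hVo, hUV, ?_, haccU, haccV⟩
    · rw [h]; exact hab
    · rw [h]; exact hcov
  · have h' : z = b := h
    refine ⟨z, a, U, V, ?_, hUo, hVo, hUV, ?_, haccU, haccV⟩
    · rw [h']; exact hab.symm
    · rw [h', pair_comm]; exact hcov

/-- The set of values of a nonconstant path is uncountable. -/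
theorem range_not_countable {f : ℝ → X} (hf : Continuous f) (h01 : f 0 ≠ f 1) :
    ¬ (range f).Countable := by
  intro hc
  set g : ℝ → ℝ := fun t => dist (f 0) (f t) with hg
  have hgc : Continuous g := continuous_const.dist hf
  have h1 : (range g).Countable := by
    have : range g = (fun y => dist (f 0) y) '' range f := by
      rw [← range_comp]; rfl
    rw [this]
    exact hc.image _
  have h2 : Icc (g 0) (g 1) ⊆ range g :=
    (intermediate_value_Icc zero_le_one hgc.continuousOn).trans (image_subset_range _ _)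
  have h3 : g 1 ≤ g 0 := Cardinal.Real.Icc_countable_iff.1 (h1.mono h2)
  have h4 : g 0 = 0 := dist_self _
  have h5 : 0 < g 1 := dist_pos.2 h01
  linarith

theorem exists_locTwo [CompactSpace X] [PathConnectedSpace X]
    (hom : ∀ x y : X, ∃ h : X ≃ₜ X, h x = y) {a b : X} (hab : a ≠ b)
    (hnc : ¬ IsConnected (({a, b} : Set X)ᶜ)) : ∃ x : X, LocTwo x := by
  obtain ⟨z, z', U₀, V₀, hsep⟩ := exists_sep hab hnc
  have hall : ∀ y : X, ∃ (y' : X) (U V : Set X), Sep y y' U V := by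
    intro y
    obtain ⟨h, rfl⟩ := hom z y
    exact ⟨_, _, _, hsep.homeo h⟩
  choose p U V hS using hall
  -- a nonconstant path
  obtain ⟨γ⟩ := PathConnectedSpace.joined a b
  set f : ℝ → X := ⇑γ.extend with hf
  have hfc : Continuous f := γ.continuous_extend
  have hf0 : f 0 = a := by simp [hf]
  have hf1 : f 1 = b := by simp [hf]
  have hunc : ¬ (range f).Countable := range_not_countable hfc (by rw [hf0, hf1]; exact hab)
  set 𝓑 := TopologicalSpace.countableBasis X with h𝓑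
  have hbasis := TopologicalSpace.isBasis_countableBasis X
  set E₀ : Set X → ℚ → Set X := fun B r =>
    {y | y ∈ B ∧ p y ∉ closure B ∧ ∃ t, f t = y ∧ t ∈ connectedComponentIn (f ⁻¹' B) (r:ℝ)}
    with hE₀
  have hcover : range f ⊆ ⋃ B ∈ 𝓑, ⋃ r : ℚ, E₀ B r := by
    rintro _ ⟨t, rfl⟩
    have hn : ({p (f t)} : Set X)ᶜ ∈ 𝓝 (f t) := isOpen_compl_singleton.mem_nhds (hS (f t)).ne
    obtain ⟨B, hB, htB, hBc⟩ := hbasis.exists_closure_subset hn
    have hBo : IsOpen B := hbasis.isOpen hB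
    have hK : IsOpen (connectedComponentIn (f ⁻¹' B) t) := (hBo.preimage hfc).connectedComponentIn
    have hKt : t ∈ connectedComponentIn (f ⁻¹' B) t := mem_connectedComponentIn htB
    obtain ⟨r, hr⟩ := Rat.denseRange_cast.exists_mem_open hK ⟨t, hKt⟩
    rw [mem_iUnion₂]
    refine ⟨B, hB, ?_⟩
    rw [mem_iUnion]
    refine ⟨r, htB, fun h => hBc h rfl, t, rfl, ?_⟩
    rw [← connectedComponentIn_eq hr]
    exact hKt
  obtain ⟨B, hB, r, hE₀unc⟩ : ∃ B ∈ 𝓑, ∃ r : ℚ, ¬ (E₀ B r).Countable := by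
    by_contra hcon
    push Not at hcon
    apply hunc
    apply Countable.mono hcover
    apply (TopologicalSpace.countable_countableBasis X).biUnion
    intro B hB
    exact countable_iUnion fun r => hcon B hB r
  have hBo : IsOpen B := hbasis.isOpen hB
  set N : Set X := closure B with hN
  set C : Set X := connectedComponentIn N (f r) with hC
  have hE₀ne : (E₀ B r).Nonempty := by
    by_contra h
    rw [not_nonempty_iff_eq_empty] at h
    rw [h] at hE₀unc
    exact hE₀unc countable_empty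
  have hrB : f r ∈ B := by
    obtain ⟨y, -, -, t, -, ht⟩ := hE₀ne
    have h1 : (r:ℝ) ∈ f ⁻¹' B := connectedComponentIn_nonempty_iff.1 ⟨t, ht⟩
    exact h1
  have hrC : f r ∈ C := mem_connectedComponentIn (subset_closure hrB)
  have hCN : C ⊆ N := connectedComponentIn_subset _ _
  have hCc : IsClosed C := by
    apply isClosed_of_closure_subset
    apply IsPreconnected.subset_connectedComponentIn
    · exact isPreconnected_connectedComponentIn.closure
    · exact subset_closure hrC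
    · exact closure_minimal hCN isClosed_closure
  have hCp : IsPreconnected C := isPreconnected_connectedComponentIn
  have hEC : E₀ B r ⊆ C := by
    rintro y ⟨-, -, t, rfl, ht⟩
    have h1 : IsPreconnected (f '' connectedComponentIn (f ⁻¹' B) (r:ℝ)) :=
      isPreconnected_connectedComponentIn.image f hfc.continuousOn
    have h2 : f '' connectedComponentIn (f ⁻¹' B) (r:ℝ) ⊆ N := by
      rintro _ ⟨s, hs, rfl⟩
      have h1 : s ∈ f ⁻¹' B := connectedComponentIn_subset _ _ hs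
      exact subset_closure h1
    have h3 : f r ∈ f '' connectedComponentIn (f ⁻¹' B) (r:ℝ) :=
      mem_image_of_mem f (mem_connectedComponentIn hrB)
    exact h1.subset_connectedComponentIn h3 h2 (mem_image_of_mem f ht)
  have hTC : ∀ y ∈ C, ∀ T ⊆ N, IsPreconnected T → y ∈ T → T ⊆ C := by
    intro y hy T hTN hT hyT
    rw [hC, connectedComponentIn_eq hy]
    exact hT.subset_connectedComponentIn hyT hTN
  have hEN : ∀ y ∈ E₀ B r, N ∈ 𝓝 y := fun y hy =>
    mem_of_superset (hBo.mem_nhds hy.1) subset_closure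
  -- a countable dense subset of `C`
  obtain ⟨D, hDC, hDc, hDd⟩ : ∃ D ⊆ C, D.Countable ∧ C ⊆ closure D :=
    (TopologicalSpace.IsSeparable.of_separableSpace C).exists_countable_dense_subset
  have hpick : ∀ y ∈ E₀ B r, ∀ G : Set X, IsOpen G → Acc y G → ∃ d ∈ D, d ∈ G := by
    intro y hy G hG hacc
    obtain ⟨T, hTN, hTp, hyT, x, hxT, hxG⟩ := hacc N (hEN y hy)
    have hxC : x ∈ C := hTC y (hEC hy) T hTN hTp hyT hxT
    obtain ⟨d, hd1, hd2⟩ := mem_closure_iff.1 (hDd hxC) G hG hxG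
    exact ⟨d, hd2, hd1⟩
  obtain ⟨c, hcD, d, hdD, hEunc⟩ : ∃ c ∈ D, ∃ d ∈ D,
      ¬ {y ∈ E₀ B r | c ∈ U y ∧ d ∈ V y}.Countable := by
    by_contra hcon
    push Not at hcon
    apply hE₀unc
    have : E₀ B r ⊆ ⋃ c ∈ D, ⋃ d ∈ D, {y ∈ E₀ B r | c ∈ U y ∧ d ∈ V y} := by
      intro y hy
      obtain ⟨c, hc, hcU⟩ := hpick y hy (U y) (hS y).openU (hS y).accU
      obtain ⟨d, hd, hdV⟩ := hpick y hy (V y) (hS y).openV (hS y).accV
      rw [mem_iUnion₂]
      refine ⟨c, hc, ?_⟩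
      rw [mem_iUnion₂]
      exact ⟨d, hd, hy, hcU, hdV⟩
    apply Countable.mono this
    apply hDc.biUnion
    intro c hc
    apply hDc.biUnion
    intro d hd
    exact hcon c hc d hd
  have hnotmem : ∀ y, y ∉ U y ∧ y ∉ V y := by
    intro y
    have h1 : y ∉ U y ∪ V y := by
      rw [← (hS y).cov]
      intro h
      exact h (Or.inl rfl)
    exact ⟨fun h => h1 (Or.inl h), fun h => h1 (Or.inr h)⟩
  have hfam : CutFam C {y ∈ E₀ B r | c ∈ U y ∧ d ∈ V y} c d U V :=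
    { conn := hCp
      sub := fun y hy => hEC hy.1
      ha := hDC hcD
      hb := hDC hdD
      openU := fun y _ => (hS y).openU
      openV := fun y _ => (hS y).openV
      disj := fun y _ => (hS y).disj
      cov := by
        intro y hy x hx
        rw [← (hS y).cov]
        rintro (h | h)
        · exact hx.2 h
        · have h' : x = p y := h
          rw [h'] at hx
          exact hy.1.2.1 (hCN hx.1)
      notU := fun y _ => (hnotmem y).1
      notV := fun y _ => (hnotmem y).2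
      aU := fun y hy => hy.2.1
      bV := fun y hy => hy.2.2 }
  obtain ⟨y, hy, hgood⟩ := hfam.exists_good hCc hEunc
  refine ⟨y, N, hEN y hy.1, ?_⟩
  intro W hW
  obtain ⟨u, hu, v, hv, hyu, hyv, huv⟩ := hgood W hW
  refine ⟨u, v, ?_, ?_, ?_⟩
  · rintro rfl
    exact (hnotmem u).2 hyu
  · rintro rfl
    exact (hnotmem v).1 hyv
  intro T hTN hTp hyT huT hvT
  have hTC' : T ⊆ C := hTC y (hEC hy.1) T hTN hTp hyT
  have h1 : T ⊆ V u := by
    apply hTp.subset_right_of_subset_union (hfam.openU u hu) (hfam.openV u hu) (hfam.disj u hu) _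
      ⟨y, hyT, hyu⟩
    intro x hx
    apply hfam.cov u hu
    exact ⟨hTC' hx, fun h => huT (by rw [← (h : x = u)]; exact hx)⟩
  have h2 : T ⊆ U v := by
    apply hTp.subset_left_of_subset_union (hfam.openU v hv) (hfam.openV v hv) (hfam.disj v hv) _
      ⟨y, hyT, hyv⟩
    intro x hx
    apply hfam.cov v hv
    exact ⟨hTC' hx, fun h => hvT (by rw [← (h : x = v)]; exact hx)⟩
  intro x hx
  exact huv ⟨⟨hTC' hx, h1 hx⟩, h2 hx⟩

end exist

end Pool.Agent.Helper43
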