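import Mathlib
import Pool.Agent.Helper43.CutLoops
import Pool.Agent.Helper43.NoLoopFalse
import Pool.Agent.Helper43.SepPair

/-!
# Homogeneous arcwise connected continua separated by a pair of points (helper file)
-/

set_option autoImplicit false

open Set Topology Filter

namespace Pool.Agent.Helper43

/-- A homogeneous path-connected compact metric space with more than one point and without
triods is a circle. -/
theorem circle_of_noTriod {X : Type*} [MetricSpace X] [CompactSpace X] [PathConnectedSpace X]
    (hom : ∀ x y : X, ∃ h : X ≃ₜ X, h x = y) (hT : NoTriod X) {a b : X} (hab : a ≠ b) :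
    Nonempty (X ≃ₜ Circle) := by
  have hC : ArcConn X := fun a b hab => exists_isArc hab
  by_cases hL : NoLoop X
  · exact (noLoop_false hom hT hC hL hab).elim
  · unfold NoLoop at hL
    push Not at hL
    obtain ⟨c, d, A, B, hA, hB, hAB, -⟩ := hL
    exact circle_of_two_arcs hA hB.symm hAB (loop_eq_univ hT hC hA hB hAB)

theorem gordh {X : Type*} [MetricSpace X] [CompactSpace X] [PathConnectedSpace X]
    (hom : ∀ x y : X, ∃ h : X ≃ₜ X, h x = y)
    (hsep : ∃ a b : X, a ≠ b ∧ ¬ IsConnected (({a, b} : Set X)ᶜ)) :
    Nonempty (X ≃ₜ Circle) := by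
  obtain ⟨a, b, hab, hnc⟩ := hsep
  obtain ⟨x, hx⟩ := exists_locTwo hom hab hnc
  have hall : ∀ y : X, LocTwo y := by
    intro y
    obtain ⟨h, rfl⟩ := hom x y
    exact hx.homeo h
  exact circle_of_noTriod hom (noTriod_of_locTwo hall) hab

end Pool.Agent.Helper43
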