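import Mathlib

/-!
# Levy-Lieb, task C: dependent rounding
-/

open Finset

noncomputable section

namespace Pool.Agent.Helper43.LL

variable {ι : Type*} [Fintype ι] [DecidableEq ι]

/-- The first five properties of `dependent_rounding`. -/
def DR (lam : ι → ℝ) (M : ℕ) (q : Finset ι → ℝ) : Prop :=
  (∀ S, 0 ≤ q S) ∧ (∑ S, q S = 1) ∧ (∀ S, q S ≠ 0 → S.card = M) ∧
    (∀ a, ∑ S, (if a ∈ S then q S else 0) = lam a) ∧
    (∀ a b, a ≠ b → ∑ S, (if a ∈ S ∧ b ∈ S then q S else 0) ≤ lam a * lam b)

theorem DR.mix {lam lam1 lam2 : ι → ℝ} {M : ℕ} {q1 q2 : Finset ι → ℝ} (h1 : DR lam1 M q1)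
    (h2 : DR lam2 M q2) {p1 p2 : ℝ} (hp1 : 0 ≤ p1) (hp2 : 0 ≤ p2) (hp : p1 + p2 = 1)
    (hm : ∀ a, p1 * lam1 a + p2 * lam2 a = lam a)
    (hc : ∀ a b, a ≠ b → p1 * (lam1 a * lam1 b) + p2 * (lam2 a * lam2 b) ≤ lam a * lam b) :
    DR lam M (fun S => p1 * q1 S + p2 * q2 S) := by
  obtain ⟨a1, a2, a3, a4, a5⟩ := h1
  obtain ⟨b1, b2, b3, b4, b5⟩ := h2
  refine ⟨fun S => add_nonneg (mul_nonneg hp1 (a1 S)) (mul_nonneg hp2 (b1 S)), ?_, ?_, ?_, ?_⟩
  · rw [sum_add_distrib, ← mul_sum, ← mul_sum, a2, b2, mul_one, mul_one, hp]
  · intro S hS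
    by_contra hne
    apply hS
    have e1 : q1 S = 0 := by
      by_contra h
      exact hne (a3 S h)
    have e2 : q2 S = 0 := by
      by_contra h
      exact hne (b3 S h)
    simp only [e1, e2, mul_zero, add_zero]
  · intro a
    rw [← hm a, ← a4 a, ← b4 a, mul_sum, mul_sum, ← sum_add_distrib]
    refine sum_congr rfl fun S _ => ?_
    by_cases h : a ∈ S
    · simp only [h, if_true]
    · simp only [h, if_false, mul_zero, add_zero]
  · intro a b hab
    refine le_trans (le_of_eq ?_) ((add_le_add (mul_le_mul_of_nonneg_left (a5 a b hab) hp1)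
      (mul_le_mul_of_nonneg_left (b5 a b hab) hp2)).trans (hc a b hab))
    rw [mul_sum, mul_sum, ← sum_add_distrib]
    refine sum_congr rfl fun S _ => ?_
    by_cases h : a ∈ S ∧ b ∈ S
    · simp only [h, if_true, and_self]
    · simp only [h, if_false, mul_zero, add_zero]

/-- number of fractional coordinates -/
def nfrac (lam : ι → ℝ) : ℕ := (univ.filter (fun a => lam a ≠ 0 ∧ lam a ≠ 1)).card

theorem nfrac_lt {lam mu : ι → ℝ} {i : ι} (hi : lam i ≠ 0 ∧ lam i ≠ 1)
    (hi' : mu i = 0 ∨ mu i = 1)
    (h : ∀ a, lam a = 0 ∨ lam a = 1 → mu a = lam a) : nfrac mu < nfrac lam := by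
  apply card_lt_card
  refine ⟨?_, ?_⟩
  · intro a ha
    simp only [mem_filter, mem_univ, true_and] at ha ⊢
    constructor
    · intro h0
      exact ha.1 ((h a (Or.inl h0)).trans h0)
    · intro h0
      exact ha.2 ((h a (Or.inr h0)).trans h0)
  · intro hsub
    have h1 : i ∈ univ.filter (fun a => lam a ≠ 0 ∧ lam a ≠ 1) := by simp [hi.1, hi.2]
    have h2 := hsub h1
    simp only [mem_filter, mem_univ, true_and] at h2
    rcases hi' with h3 | h3
    · exact h2.1 h3
    · exact h2.2 h3

/-- move mass `s` from `j` to `i` -/
def shift (lam : ι → ℝ) (i j : ι) (s : ℝ) : ι → ℝ :=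
  fun a => lam a + (if a = i then s else 0) - (if a = j then s else 0)

theorem exists_DR : ∀ (n : ℕ) (lam : ι → ℝ), nfrac lam ≤ n → (∀ a, 0 ≤ lam a) →
    (∀ a, lam a ≤ 1) → ∀ M : ℕ, ∑ a, lam a = M → ∃ q, DR lam M q := by
  intro n
  induction n with
  | zero =>
    intro lam hn h0 h1 M hM
    have h01 : ∀ a, lam a = 0 ∨ lam a = 1 := by
      intro a
      by_contra hcon
      push Not at hcon
      have : a ∈ univ.filter (fun a => lam a ≠ 0 ∧ lam a ≠ 1) := by simp [hcon.1, hcon.2]
      have h2 : 0 < nfrac lam := card_pos.2 ⟨a, this⟩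
      omega
    let S0 : Finset ι := univ.filter (fun a => lam a = 1)
    have hlam : ∀ a, lam a = if a ∈ S0 then 1 else 0 := by
      intro a
      by_cases h : lam a = 1
      · simp [S0, h]
      · have h2 : lam a = 0 := (h01 a).resolve_right h
        simp [S0, h2]
    have hcard : S0.card = M := by
      have : (∑ a, lam a) = S0.card := by
        simp_rw [hlam]
        simp
      rw [hM] at this
      exact_mod_cast this.symm
    refine ⟨fun S => if S = S0 then 1 else 0, ?_, ?_, ?_, ?_, ?_⟩
    · intro S
      dsimp only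
      split_ifs <;> norm_num
    · simp
    · intro S hS
      by_cases h : S = S0
      · rw [h, hcard]
      · simp [h] at hS
    · intro a
      rw [hlam a]
      rw [Finset.sum_eq_single S0]
      · by_cases h : a ∈ S0 <;> simp [h]
      · intro S _ hS
        simp [hS]
      · intro h
        exact absurd (mem_univ _) h
    · intro a b _
      rw [hlam a, hlam b]
      rw [Finset.sum_eq_single S0]
      · by_cases h : a ∈ S0 <;> by_cases h' : b ∈ S0 <;> simp [h, h']
      · intro S _ hS
        simp [hS]
      · intro h
        exact absurd (mem_univ _) h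
  | succ n ih =>
    intro lam hn h0 h1 M hM
    by_cases hall : ∀ a, lam a = 0 ∨ lam a = 1
    · have : nfrac lam ≤ n := by
        have : nfrac lam = 0 := by
          unfold nfrac
          rw [card_eq_zero, filter_eq_empty_iff]
          intro a _ h
          rcases hall a with h2 | h2
          · exact h.1 h2
          · exact h.2 h2
        omega
      exact ih lam this h0 h1 M hM
    push Not at hall
    obtain ⟨i, hi⟩ := hall
    -- a second fractional coordinate
    obtain ⟨j, hji, hj⟩ : ∃ j, j ≠ i ∧ lam j ≠ 0 ∧ lam j ≠ 1 := by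
      by_contra hcon
      push Not at hcon
      have h01 : ∀ j ∈ univ.erase i, lam j = ((if lam j = 1 then 1 else 0 : ℤ) : ℝ) := by
        intro j hj
        have hji : j ≠ i := (mem_erase.1 hj).1
        by_cases h : lam j = 0
        · simp [h]
        · have := hcon j hji h
          simp [this]
      have hsum : lam i + ∑ j ∈ univ.erase i, lam j = M := by
        rw [← hM, add_sum_erase _ _ (mem_univ i)]
      rw [sum_congr rfl h01, ← Int.cast_sum] at hsum
      set z : ℤ := ∑ j ∈ univ.erase i, (if lam j = 1 then 1 else 0 : ℤ)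
      have h2 : lam i = ((M - z : ℤ) : ℝ) := by push_cast; linarith
      have h3 := h0 i
      have h4 := h1 i
      rw [h2] at h3 h4
      have h5 : (0 : ℤ) ≤ M - z := by exact_mod_cast h3
      have h6 : (M - z : ℤ) ≤ 1 := by exact_mod_cast h4
      have h7 : (M - z : ℤ) = 0 ∨ (M - z : ℤ) = 1 := by omega
      rcases h7 with h7 | h7
      · exact hi.1 (by rw [h2, h7]; simp)
      · exact hi.2 (by rw [h2, h7]; simp)
    have hij : i ≠ j := Ne.symm hji
    have hi0 : 0 < lam i := lt_of_le_of_ne (h0 i) (Ne.symm hi.1)
    have hi1 : lam i < 1 := lt_of_le_of_ne (h1 i) hi.2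
    have hj0 : 0 < lam j := lt_of_le_of_ne (h0 j) (Ne.symm hj.1)
    have hj1 : lam j < 1 := lt_of_le_of_ne (h1 j) hj.2
    -- the key construction
    have key : ∀ (s : ℝ), 0 ≤ lam i + s → lam i + s ≤ 1 → 0 ≤ lam j - s → lam j - s ≤ 1 →
        ((lam i + s = 0 ∨ lam i + s = 1) ∨ (lam j - s = 0 ∨ lam j - s = 1)) →
        ∃ q, DR (shift lam i j s) M q := by
      intro s hs1 hs2 hs3 hs4 hs5
      have ei : shift lam i j s i = lam i + s := by simp [shift, hij]
      have ej : shift lam i j s j = lam j - s := by simp [shift, hji]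
      have eo : ∀ a, a ≠ i → a ≠ j → shift lam i j s a = lam a := by
        intro a h2 h3
        simp [shift, h2, h3]
      apply ih
      · have : nfrac (shift lam i j s) < nfrac lam := by
          rcases hs5 with h5 | h5
          · refine nfrac_lt hi (by rw [ei]; exact h5) ?_
            intro a ha
            by_cases hai : a = i
            · subst hai
              rcases ha with ha | ha
              · exact absurd ha hi.1
              · exact absurd ha hi.2
            · by_cases haj : a = j
              · subst haj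
                rcases ha with ha | ha
                · exact absurd ha hj.1
                · exact absurd ha hj.2
              · exact eo a hai haj
          · refine nfrac_lt hj (by rw [ej]; exact h5) ?_
            intro a ha
            by_cases hai : a = i
            · subst hai
              rcases ha with ha | ha
              · exact absurd ha hi.1
              · exact absurd ha hi.2
            · by_cases haj : a = j
              · subst haj
                rcases ha with ha | ha
                · exact absurd ha hj.1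
                · exact absurd ha hj.2
              · exact eo a hai haj
        omega
      · intro a
        by_cases hai : a = i
        · rw [hai, ei]; exact hs1
        · by_cases haj : a = j
          · rw [haj, ej]; exact hs3
          · rw [eo a hai haj]; exact h0 a
      · intro a
        by_cases hai : a = i
        · rw [hai, ei]; exact hs2
        · by_cases haj : a = j
          · rw [haj, ej]; exact hs4
          · rw [eo a hai haj]; exact h1 a
      · rw [← hM]
        simp [shift, sum_add_distrib, sum_sub_distrib]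
    set α : ℝ := min (1 - lam i) (lam j) with hα
    set β : ℝ := min (lam i) (1 - lam j) with hβ
    have hα0 : 0 < α := lt_min (by linarith) hj0
    have hβ0 : 0 < β := lt_min hi0 (by linarith)
    have hα1 : α ≤ 1 - lam i := min_le_left _ _
    have hα2 : α ≤ lam j := min_le_right _ _
    have hβ1 : β ≤ lam i := min_le_left _ _
    have hβ2 : β ≤ 1 - lam j := min_le_right _ _
    obtain ⟨q1, hq1⟩ := key α (by linarith) (by linarith) (by linarith) (by linarith) (by
      rcases min_choice (1 - lam i) (lam j) with h | h
      · left; right; rw [hα, h]; ring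
      · right; left; rw [hα, h]; ring)
    obtain ⟨q2, hq2⟩ := key (-β) (by linarith) (by linarith) (by linarith) (by linarith) (by
      rcases min_choice (lam i) (1 - lam j) with h | h
      · left; left; rw [hβ, h]; ring
      · right; right; rw [hβ, h]; ring)
    have hαβ : 0 < α + β := by linarith
    have hmean : β / (α + β) * α + α / (α + β) * (-β) = 0 := by
      field_simp
      ring
    have hpsum : β / (α + β) + α / (α + β) = 1 := by
      field_simp
      ring
    have hp1 : 0 ≤ β / (α + β) := by positivity
    have hp2 : 0 ≤ α / (α + β) := by positivity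
    set p1 : ℝ := β / (α + β) with hp1'
    set p2 : ℝ := α / (α + β) with hp2'
    refine ⟨_, DR.mix hq1 hq2 hp1 hp2 hpsum ?_ ?_⟩
    · intro a
      simp only [shift]
      by_cases hai : a = i
      · have haj : ¬ a = j := by rw [hai]; exact hij
        simp only [hai, hij, if_true, if_false]
        have : p1 * (lam i + α - 0) + p2 * (lam i + -β - 0)
            = (p1 + p2) * lam i + (p1 * α + p2 * (-β)) := by ring
        rw [this, hpsum, hmean]; ring
      · by_cases haj : a = j
        · simp only [haj, hji, if_true, if_false]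
          have : p1 * (lam j + 0 - α) + p2 * (lam j + 0 - -β)
              = (p1 + p2) * lam j - (p1 * α + p2 * (-β)) := by ring
          rw [this, hpsum, hmean]; ring
        · simp only [hai, haj, if_false]
          have : p1 * (lam a + 0 - 0) + p2 * (lam a + 0 - 0) = (p1 + p2) * lam a := by ring
          rw [this, hpsum, one_mul]
    · intro a b hab
      simp only [shift]
      -- general identity
      set x : ℝ := (if a = i then 1 else 0) - (if a = j then 1 else 0) with hx
      set y : ℝ := (if b = i then 1 else 0) - (if b = j then 1 else 0) with hy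
      have ea : ∀ s : ℝ, lam a + (if a = i then s else 0) - (if a = j then s else 0)
          = lam a + x * s := by
        intro s
        rw [hx]
        split_ifs <;> ring
      have eb : ∀ s : ℝ, lam b + (if b = i then s else 0) - (if b = j then s else 0)
          = lam b + y * s := by
        intro s
        rw [hy]
        split_ifs <;> ring
      have hxy : x * y ≤ 0 := by
        rw [hx, hy]
        by_cases h1 : a = i
        · have h2 : ¬ b = i := fun h => hab (h1.trans h.symm)
          have h3 : ¬ a = j := by rw [h1]; exact hij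
          simp only [h1, hij, h2, if_true, if_false]
          split_ifs <;> norm_num
        · by_cases h2 : a = j
          · have h3 : ¬ b = j := fun h => hab (h2.trans h.symm)
            simp only [h2, hji, h3, if_true, if_false]
            split_ifs <;> norm_num
          · simp only [h1, h2, if_false]
            norm_num
      rw [ea, ea, eb, eb]
      have : p1 * ((lam a + x * α) * (lam b + y * α)) + p2 * ((lam a + x * -β) * (lam b + y * -β))
          = (p1 + p2) * (lam a * lam b) + (p1 * α + p2 * (-β)) * (lam a * y + x * lam b)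
            + (x * y) * (p1 * α ^ 2 + p2 * β ^ 2) := by ring
      rw [this, hpsum, hmean]
      have h5 : 0 ≤ p1 * α ^ 2 + p2 * β ^ 2 := by positivity
      nlinarith [mul_nonneg (neg_nonneg.2 hxy) h5]

/-- indicator of pairs -/
def pt (S : Finset ι) : ι × ι → ℝ := fun c => if c.1 ∈ S ∧ c.2 ∈ S then 1 else 0

theorem pt_inj : Function.Injective (pt : Finset ι → ι × ι → ℝ) := by
  intro S T h
  ext a
  have h1 := congrFun h (a, a)
  simp only [pt, and_self] at h1
  by_cases h2 : a ∈ S <;> by_cases h3 : a ∈ T <;> simp_all

/-- C. Every `λ ∈ [0,1]^ι` with integer sum `M` is the vector of inclusion probabilities of a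
random `M`-subset with pairwise negative correlations, supported on few subsets. -/
theorem dependent_rounding {ι : Type*} [Fintype ι] [DecidableEq ι] (lam : ι → ℝ)
    (h0 : ∀ a, 0 ≤ lam a) (h1 : ∀ a, lam a ≤ 1) (M : ℕ) (hM : ∑ a, lam a = M) :
    ∃ q : Finset ι → ℝ, (∀ S, 0 ≤ q S) ∧ (∑ S, q S = 1) ∧ (∀ S, q S ≠ 0 → S.card = M) ∧
      (∀ a, ∑ S, (if a ∈ S then q S else 0) = lam a) ∧
      (∀ a b, a ≠ b → ∑ S, (if a ∈ S ∧ b ∈ S then q S else 0) ≤ lam a * lam b) ∧
      (Finset.univ.filter (fun S => q S ≠ 0)).card ≤ (Fintype.card ι + 1) ^ 2 + 1 := by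
  obtain ⟨q0, c1, c2, c3, c4, c5⟩ := exists_DR (nfrac lam) lam le_rfl h0 h1 M hM
  set s : Set (ι × ι → ℝ) := pt '' {S : Finset ι | S.card = M} with hs
  set y : ι × ι → ℝ := ∑ S, q0 S • pt S with hy
  have hyc : y ∈ convexHull ℝ s := by
    have e : y = ∑ S ∈ univ.filter (fun S => q0 S ≠ 0), q0 S • pt S := by
      rw [hy, sum_filter]
      refine sum_congr rfl fun S _ => ?_
      by_cases h : q0 S = 0 <;> simp [h]
    rw [e]
    refine (convex_convexHull ℝ s).sum_mem (fun S _ => c1 S) ?_ ?_
    · rw [sum_filter]
      rw [← c2]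
      refine sum_congr rfl fun S _ => ?_
      by_cases h : q0 S = 0 <;> simp [h]
    · intro S hS
      exact subset_convexHull ℝ s ⟨S, c3 S (mem_filter.1 hS).2, rfl⟩
  rw [convexHull_eq_union] at hyc
  simp only [Set.mem_iUnion] at hyc
  obtain ⟨t, hts, hai, hyt⟩ := hyc
  rw [Finset.mem_convexHull'] at hyt
  obtain ⟨w, w0, w1, w2⟩ := hyt
  have htcard : t.card ≤ Fintype.card ι * Fintype.card ι + 1 := by
    have h := hai.card_le_finrank_succ
    have h2 : Module.finrank ℝ (vectorSpan ℝ (Set.range ((↑) : t → ι × ι → ℝ)))
        ≤ Module.finrank ℝ (ι × ι → ℝ) := Submodule.finrank_le _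
    rw [Module.finrank_fintype_fun_eq_card, Fintype.card_prod] at h2
    rw [Fintype.card_coe] at h
    omega
  -- transport sums over `t` to sums over subsets
  have hsum : ∀ f : (ι × ι → ℝ) → ℝ,
      ∑ S : Finset ι, (if pt S ∈ t then f (pt S) else 0) = ∑ x ∈ t, f x := by
    intro f
    rw [← sum_filter]
    refine sum_bij (fun S _ => pt S) ?_ ?_ ?_ ?_
    · intro S hS
      exact (mem_filter.1 hS).2
    · intro S _ T _ h
      exact pt_inj h
    · intro x hx
      obtain ⟨S, _, hS⟩ := hts hx
      exact ⟨S, by simp [hS, hx], hS⟩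
    · intro S _
      rfl
  have hval : ∀ c : ι × ι, ∑ S : Finset ι, (if c.1 ∈ S ∧ c.2 ∈ S then
      (if pt S ∈ t then w (pt S) else 0) else 0)
      = ∑ S : Finset ι, (if c.1 ∈ S ∧ c.2 ∈ S then q0 S else 0) := by
    intro c
    have h3 : y c = ∑ x ∈ t, w x * x c := by
      rw [← w2]
      simp [Finset.sum_apply]
    have h4 : y c = ∑ S : Finset ι, (if c.1 ∈ S ∧ c.2 ∈ S then q0 S else 0) := by
      rw [hy]
      simp only [Finset.sum_apply, Pi.smul_apply, smul_eq_mul, pt]
      refine sum_congr rfl fun S _ => ?_
      split_ifs <;> simp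
    rw [← h4, h3, ← hsum (fun x => w x * x c)]
    refine sum_congr rfl fun S _ => ?_
    by_cases h5 : pt S ∈ t
    · simp only [h5, if_true, pt]
      split_ifs <;> simp
    · simp only [h5, if_false, ite_self]
  refine ⟨fun S => if pt S ∈ t then w (pt S) else 0, ?_, ?_, ?_, ?_, ?_, ?_⟩
  · intro S
    dsimp only
    split_ifs with h
    · exact w0 _ h
    · exact le_rfl
  · rw [hsum w, w1]
  · intro S hS
    have h : pt S ∈ t := by
      by_contra hcon
      exact hS (if_neg hcon)
    obtain ⟨T, hT, hTS⟩ := hts h
    rw [← pt_inj hTS]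
    exact hT
  · intro a
    have h := hval (a, a)
    simp only [and_self] at h
    rw [h, c4 a]
  · intro a b hab
    have h := hval (a, b)
    simp only at h
    rw [h]
    exact c5 a b hab
  · have h2 : (univ.filter (fun S : Finset ι => (if pt S ∈ t then w (pt S) else 0) ≠ 0)).card
        ≤ t.card := by
      refine card_le_card_of_injOn pt ?_ (fun S _ T _ h => pt_inj h)
      intro S hS
      have h3 := (mem_filter.1 (mem_coe.1 hS)).2
      by_contra hcon
      exact h3 (if_neg hcon)
    refine h2.trans (htcard.trans ?_)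
    nlinarith

end Pool.Agent.Helper43.LL
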