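import Pool.Agent.Helper43.LL.Core

/-!
# Task F: the Bessel system with exact density
-/

open MeasureTheory Filter Topology
open scoped ENNReal InnerProductSpace

noncomputable section

namespace Pool.Agent.Helper43.LL

open Pool.Agent.Helper1.LL
open Inp

lemma exists_param (d : ℕ) (η : ℝ) (hη : 0 < η) : ∃ s : ℝ, 0 < s ∧ s ≤ 1 / 2 ∧
    (1 + s) * (1 - s) ^ (-(2 / d : ℝ)) * (1 + s) ^ (8 / d : ℝ) ≤ 1 + η := by
  have hc : ContinuousAt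
      (fun s : ℝ => (1 + s) * (1 - s) ^ (-(2 / d : ℝ)) * (1 + s) ^ (8 / d : ℝ)) 0 := by
    refine ContinuousAt.mul (ContinuousAt.mul ?_ ?_) ?_
    · fun_prop
    · refine ContinuousAt.rpow_const ?_ (Or.inl (by norm_num))
      fun_prop
    · refine ContinuousAt.rpow_const ?_ (Or.inl (by norm_num))
      fun_prop
  have h1 : ∀ᶠ s : ℝ in 𝓝 0,
      (1 + s) * (1 - s) ^ (-(2 / d : ℝ)) * (1 + s) ^ (8 / d : ℝ) < 1 + η := by
    refine hc.eventually_lt continuousAt_const ?_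
    simp [hη]
  have h2 : ∀ᶠ s : ℝ in 𝓝 0, s < 1 / 2 := eventually_lt_nhds (by norm_num)
  have h3 : ∀ᶠ s : ℝ in 𝓝[>] 0, 0 < s := self_mem_nhdsWithin
  obtain ⟨s, hs1, hs2, hs3⟩ :=
    ((h1.filter_mono nhdsWithin_le_nhds).and ((h2.filter_mono nhdsWithin_le_nhds).and h3)).exists
  exact ⟨s, hs3, hs2.le, hs1.le⟩

variable {d : ℕ}

lemma kin_coeff (hd : 1 ≤ d) {s N τ : ℝ} (hs0 : 0 < s) (hs1 : s ≤ 1 / 2) (hN : 0 < N)
    (hτ : 0 < τ) (K : Finset (Fin d → ℤ)) (hK : K.Nonempty)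
    (hsum : ∑ k ∈ K, ∑ a, ((k a : ℝ)) ^ 2 ≤
        (1 + s) * ((d : ℝ) / (d + 2)) * K.card *
          ((N * 2 ^ d * τ ^ 2 / (1 - s)) / volume.real (Metric.ball (0 : Sp d) 1)) ^ (2 / d : ℝ)) :
    N * (Real.pi ^ 2 * ((∑ k ∈ K, ∑ a, ((k a : ℝ)) ^ 2) / K.card)) ≤
      (1 + s) * (1 - s) ^ (-(2 / d : ℝ)) * Kcl d * N ^ (1 + 2 / d : ℝ) * τ ^ (4 / d : ℝ) := by
  have hcard : 0 < (K.card : ℝ) := by exact_mod_cast hK.card_pos
  have hd0 : (0 : ℝ) < d := by exact_mod_cast hd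
  have hb : 0 < volume.real (Metric.ball (0 : Sp d) 1) := by
    refine ENNReal.toReal_pos ?_ measure_ball_lt_top.ne
    exact (Metric.isOpen_ball.measure_pos volume ⟨0, Metric.mem_ball_self one_pos⟩).ne'
  set b := volume.real (Metric.ball (0 : Sp d) 1) with hbdef
  have h1s : 0 < 1 - s := by linarith
  have hS : (∑ k ∈ K, ∑ a, ((k a : ℝ)) ^ 2) / K.card ≤ (1 + s) * ((d : ℝ) / (d + 2)) *
      ((N * 2 ^ d * τ ^ 2 / (1 - s)) / b) ^ (2 / d : ℝ) := by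
    rw [div_le_iff₀ hcard]
    linarith
  have hpow : ((N * 2 ^ d * τ ^ 2 / (1 - s)) / b) ^ (2 / d : ℝ) =
      4 * N ^ (2 / d : ℝ) * τ ^ (4 / d : ℝ) * (1 - s) ^ (-(2 / d : ℝ)) * b ^ (-(2 : ℝ) / d) := by
    rw [Real.div_rpow (by positivity) hb.le, Real.div_rpow (by positivity) h1s.le,
      Real.mul_rpow (by positivity) (by positivity), Real.mul_rpow (by positivity) (by positivity)]
    have e1 : ((2 : ℝ) ^ d) ^ (2 / d : ℝ) = 4 := by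
      rw [← Real.rpow_natCast, ← Real.rpow_mul (by norm_num)]
      rw [mul_div_cancel₀ _ hd0.ne']
      norm_num
    have e2 : (τ ^ 2) ^ (2 / d : ℝ) = τ ^ (4 / d : ℝ) := by
      rw [← Real.rpow_natCast, ← Real.rpow_mul hτ.le]
      congr 1
      push_cast; ring
    rw [e1, e2, Real.rpow_neg h1s.le, show (-(2 : ℝ) / d) = -(2 / d) by ring, Real.rpow_neg hb.le]
    ring
  have hNp : N ^ (1 + 2 / d : ℝ) = N * N ^ (2 / d : ℝ) := by
    rw [Real.rpow_add hN, Real.rpow_one]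
  rw [hpow] at hS
  rw [hNp]
  unfold Kcl
  rw [← hbdef]
  calc N * (Real.pi ^ 2 * ((∑ k ∈ K, ∑ a, ((k a : ℝ)) ^ 2) / K.card))
      ≤ N * (Real.pi ^ 2 * ((1 + s) * ((d : ℝ) / (d + 2)) *
      (4 * N ^ (2 / d : ℝ) * τ ^ (4 / d : ℝ) * (1 - s) ^ (-(2 / d : ℝ)) * b ^ (-(2 : ℝ) / d)))) := by
        gcongr
    _ = _ := by ring

lemma lvb_pointwise {t0 ρ : ℝ} (ht0 : 0 < t0) (hρ : 1 < ρ) (j : ℕ) {t : ℝ} (ht : 0 ≤ t) :
    thr t0 ρ (j + 1) ^ (4 / d : ℝ) * lvb t0 ρ j t ^ 2 ≤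
      (ρ ^ (8 / d : ℝ) * t ^ (4 / d : ℝ) + thr t0 ρ 1 ^ (4 / d : ℝ)) * lvb t0 ρ j t ^ 2 := by
  have hd0 : (0 : ℝ) ≤ 4 / d := by positivity
  have h1 : 0 ≤ ρ ^ (8 / d : ℝ) * t ^ (4 / d : ℝ) := by positivity
  have h2 : 0 ≤ thr t0 ρ 1 ^ (4 / d : ℝ) := by
    have := thr_pos ht0 hρ 1; positivity
  cases j with
  | zero =>
    refine mul_le_mul_of_nonneg_right ?_ (sq_nonneg _)
    simp only [zero_add]
    linarith
  | succ j =>
    rcases le_or_gt t (thr t0 ρ j) with h | h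
    · have : lvb t0 ρ (j + 1) t = 0 := by
        unfold lvb; rw [lva_succ_eq_zero_of_le ht0 hρ j h, mul_zero]
      rw [this]; simp
    · refine mul_le_mul_of_nonneg_right ?_ (sq_nonneg _)
      have h3 : thr t0 ρ (j + 1 + 1) ≤ ρ ^ 2 * t := by
        rw [thr_succ, thr_succ]
        nlinarith [mul_pos (zero_lt_one.trans hρ) (zero_lt_one.trans hρ)]
      have h4 : thr t0 ρ (j + 1 + 1) ^ (4 / d : ℝ) ≤ (ρ ^ 2 * t) ^ (4 / d : ℝ) :=
        Real.rpow_le_rpow (thr_pos ht0 hρ _).le h3 hd0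
      have h5 : (ρ ^ 2 * t) ^ (4 / d : ℝ) = ρ ^ (8 / d : ℝ) * t ^ (4 / d : ℝ) := by
        rw [Real.mul_rpow (by positivity) ht, ← Real.rpow_natCast, ← Real.rpow_mul (by linarith)]
        congr 2
        push_cast; ring
      rw [h5] at h4
      linarith

lemma lvB_top_le {t0 ρ : ℝ} (ht0 : 0 < t0) (hρ : 1 < ρ) (m : ℕ) {t : ℝ} (ht : 0 ≤ t) :
    lvB t0 ρ (m + 1) t ^ 2 ≤ (thr t0 ρ m ^ (4 / d : ℝ))⁻¹ * t ^ (2 + 4 / d : ℝ) := by
  have hth := thr_pos ht0 hρ m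
  have hth' : 0 < thr t0 ρ m ^ (4 / d : ℝ) := Real.rpow_pos_of_pos hth _
  rcases le_or_gt t (thr t0 ρ m) with h | h
  · unfold lvB
    rw [lvA_succ_eq_zero ht0 hρ m h]
    simp only [mul_zero, ne_eq, OfNat.ofNat_ne_zero, not_false_eq_true, zero_pow]
    positivity
  · have h1 : lvB t0 ρ (m + 1) t ^ 2 ≤ t ^ 2 := by
      unfold lvB; rw [mul_pow]
      nlinarith [lvA_sq_le_one t0 ρ (m + 1) t, sq_nonneg t]
    have h2 : t ^ (2 + 4 / d : ℝ) = t ^ 2 * t ^ (4 / d : ℝ) := by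
      rw [Real.rpow_add (hth.trans h)]
      norm_num
    have h3 : thr t0 ρ m ^ (4 / d : ℝ) ≤ t ^ (4 / d : ℝ) :=
      Real.rpow_le_rpow hth.le h.le (by positivity)
    rw [h2]
    rw [inv_mul_eq_div, le_div_iff₀ hth']
    calc lvB t0 ρ (m + 1) t ^ 2 * thr t0 ρ m ^ (4 / d : ℝ) ≤ t ^ 2 * t ^ (4 / d : ℝ) :=
      mul_le_mul h1 h3 hth'.le (sq_nonneg _)

lemma WE_mul_sq_integrable {φ : Sp d → ℝ} (hφ : MemLp φ 2 volume) (c : Col d)
    (E : Set (Fin d → ℤ)) : Integrable (fun x => (WE c E x * φ x) ^ 2) volume := by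
  refine hφ.integrable_sq.mono' ?_ (Filter.Eventually.of_forall fun x => ?_)
  · exact (((WE_contDiff c E (n := 1)).continuous.aestronglyMeasurable).mul hφ.1).pow 2
  · rw [Real.norm_eq_abs, abs_of_nonneg (sq_nonneg _), mul_pow]
    have h1 := WE_nonneg c E x
    have h2 := WE_le_one c E x
    have h3 : WE c E x ^ 2 ≤ 1 := by nlinarith
    nlinarith [sq_nonneg (φ x)]

open Classical in
/-- grouping of the sparse cells -/
lemma exists_cells {φ : Sp d → ℝ} (hφ : MemLp φ 2 volume) (hφ1 : ∫ x, φ x ^ 2 ≤ 1)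
    (N δ : ℝ) (hN : 0 ≤ N) (hδ : 0 < δ) (c : Col d) :
    ∃ (D : Finset (Fin d → ℤ)) (g : (Fin d → ℤ) → Fin (⌊2 * N / δ⌋₊ + 1)),
      (D.card : ℝ) ≤ 2 * N / δ ∧
      ∀ k, N * ∫ x, (WE c {i | i ∉ D ∧ g i = k} x * φ x) ^ 2 ≤ δ := by
  set ν : Measure (Fin d → ℤ) := Measure.map (cell c)
    ((volume : Measure (Sp d)).withDensity (fun x => ENNReal.ofReal (N * (WF c x * φ x) ^ 2)))
    with hν
  have hνE : ∀ E : Set (Fin d → ℤ), ν E = ENNReal.ofReal (N * ∫ x, (WE c E x * φ x) ^ 2) := by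
    intro E
    have hE : MeasurableSet (cell c ⁻¹' E) :=
      measurable_cell c ((Set.to_countable E).measurableSet)
    rw [hν, Measure.map_apply (measurable_cell c) ((Set.to_countable E).measurableSet),
      withDensity_apply _ hE, ← lintegral_indicator hE, ← integral_const_mul,
      ofReal_integral_eq_lintegral_ofReal ((WE_mul_sq_integrable hφ c E).const_mul N)
        (Filter.Eventually.of_forall fun x => mul_nonneg hN (sq_nonneg _))]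
    refine lintegral_congr fun x => ?_
    by_cases hx : cell c x ∈ E
    · rw [Set.indicator_of_mem (by exact hx)]
      simp only [WE_eq, if_pos hx]
    · rw [Set.indicator_of_notMem (by exact hx)]
      simp only [WE_eq, if_neg hx]
      simp
  have huniv : ν Set.univ ≤ ENNReal.ofReal N := by
    rw [hνE]
    refine ENNReal.ofReal_le_ofReal ?_
    have h1 : ∫ x, (WE c Set.univ x * φ x) ^ 2 ≤ ∫ x, φ x ^ 2 := by
      refine integral_mono (WE_mul_sq_integrable hφ c _) hφ.integrable_sq fun x => ?_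
      simp only
      rw [mul_pow]
      have h1 := WE_nonneg c Set.univ x
      have h2 := WE_le_one c Set.univ x
      have h3 : WE c Set.univ x ^ 2 ≤ 1 := by nlinarith
      nlinarith [sq_nonneg (φ x)]
    nlinarith
  obtain ⟨D, g, hD, hg⟩ := exists_grouping ν N δ hδ hN huniv
  refine ⟨D, g, hD, fun k => ?_⟩
  have := hg k
  rw [hνE] at this
  exact (ENNReal.ofReal_le_ofReal_iff hδ.le).1 this


/-- the kinetic energy of the modulated pieces -/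
lemma energy_sum (hd : 1 ≤ d) {φ : Sp d → ℝ} {G : Fin d → Sp d → ℝ} (h : IsH1 φ G)
    (hφ0 : ∀ x, 0 ≤ φ x) (hint_p : Integrable (fun x => φ x ^ (2 + 4 / d : ℝ)) volume)
    {s N t0 : ℝ} (hs0 : 0 < s) (hs1 : s ≤ 1 / 2) (hN0 : 0 < N) (ht0 : 0 < t0) (J : ℕ)
    (KJ : ℕ → Finset (Fin d → ℤ)) (hKJne : ∀ j, (KJ j).Nonempty)
    (hKJ3 : ∀ j, ∑ k ∈ KJ j, ∑ a, ((k a : ℝ)) ^ 2 ≤
        (1 + s) * ((d : ℝ) / (d + 2)) * (KJ j).card *
          ((N * 2 ^ d * thr t0 (1 + s) (j + 1) ^ 2 / (1 - s)) /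
            volume.real (Metric.ball (0 : Sp d) 1)) ^ (2 / d : ℝ))
    (hlvbint : ∀ j, Integrable (fun x => lvb t0 (1 + s) j (φ x) ^ 2) volume) :
    N * ∑ j ∈ Finset.range J, Real.pi ^ 2 *
          ((∑ k ∈ KJ j, ∑ a, (k a : ℝ) ^ 2) / (KJ j).card) *
            ∫ x, lvb t0 (1 + s) j (φ x) ^ 2 ≤
        ((1 + s) * (1 - s) ^ (-(2 / d : ℝ)) * Kcl d * N ^ (1 + 2 / d : ℝ)) *
        ((1 + s) ^ (8 / d : ℝ) * (∫ x, φ x ^ (2 + 4 / d : ℝ)) +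
          thr t0 (1 + s) 1 ^ (4 / d : ℝ) * ∫ x, φ x ^ 2) := by
  have hρ : 1 < 1 + s := by linarith
  have h1s : 0 < 1 - s := by linarith
  have hKcl0 : 0 ≤ Kcl d := by unfold Kcl; positivity
  have hQ0 : 0 ≤ (1 + s) * (1 - s) ^ (-(2 / d : ℝ)) * Kcl d * N ^ (1 + 2 / d : ℝ) := by positivity
  generalize hQdef : (1 + s) * (1 - s) ^ (-(2 / d : ℝ)) * Kcl d * N ^ (1 + 2 / d : ℝ) = Q at hQ0 ⊢
  have hpt : ∀ x, φ x ^ (4 / d : ℝ) * φ x ^ 2 = φ x ^ (2 + 4 / d : ℝ) := by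
    intro x
    rw [Real.rpow_add_of_nonneg (hφ0 x) (by norm_num) (by positivity)]
    norm_num
    ring
  rw [Finset.mul_sum]
  have h6 : ∀ j ∈ Finset.range J, N * (Real.pi ^ 2 *
      ((∑ k ∈ KJ j, ∑ a, (k a : ℝ) ^ 2) / (KJ j).card) * ∫ x, lvb t0 (1 + s) j (φ x) ^ 2) ≤
      ∫ x, Q * (thr t0 (1 + s) (j + 1) ^ (4 / d : ℝ) * lvb t0 (1 + s) j (φ x) ^ 2) := by
    intro j _
    have h7 := kin_coeff hd hs0 hs1 hN0 (thr_pos ht0 hρ (j + 1)) (KJ j) (hKJne j) (hKJ3 j)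
    rw [hQdef] at h7
    rw [integral_const_mul, integral_const_mul]
    have h8 : 0 ≤ ∫ x, lvb t0 (1 + s) j (φ x) ^ 2 := integral_nonneg fun x => sq_nonneg _
    calc N * (Real.pi ^ 2 *
      ((∑ k ∈ KJ j, ∑ a, (k a : ℝ) ^ 2) / (KJ j).card) * ∫ x, lvb t0 (1 + s) j (φ x) ^ 2)
        = (N * (Real.pi ^ 2 * ((∑ k ∈ KJ j, ∑ a, (k a : ℝ) ^ 2) / (KJ j).card))) *
          ∫ x, lvb t0 (1 + s) j (φ x) ^ 2 := by ring
      _ ≤ (Q * thr t0 (1 + s) (j + 1) ^ (4 / d : ℝ)) * ∫ x, lvb t0 (1 + s) j (φ x) ^ 2 :=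
          mul_le_mul_of_nonneg_right h7 h8
      _ = _ := by ring
  refine (Finset.sum_le_sum h6).trans ?_
  rw [← integral_finsetSum _ fun j _ => ((hlvbint j).const_mul _).const_mul _]
  have h9 : Q * ((1 + s) ^ (8 / d : ℝ) * (∫ x, φ x ^ (2 + 4 / d : ℝ)) +
      thr t0 (1 + s) 1 ^ (4 / d : ℝ) * ∫ x, φ x ^ 2) =
      ∫ x, Q * ((1 + s) ^ (8 / d : ℝ) * φ x ^ (2 + 4 / d : ℝ) +
        thr t0 (1 + s) 1 ^ (4 / d : ℝ) * φ x ^ 2) := by
    rw [integral_const_mul, integral_add (hint_p.const_mul _)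
      (h.memLp.integrable_sq.const_mul _), integral_const_mul, integral_const_mul]
  rw [h9]
  refine integral_mono (integrable_finsetSum _ fun j _ => ((hlvbint j).const_mul _).const_mul _)
    (((hint_p.const_mul _).add (h.memLp.integrable_sq.const_mul _)).const_mul _) fun x => ?_
  simp only
  rw [← Finset.mul_sum]
  refine mul_le_mul_of_nonneg_left ?_ hQ0
  have hτ := thr_pos ht0 hρ 1
  calc ∑ j ∈ Finset.range J, thr t0 (1 + s) (j + 1) ^ (4 / d : ℝ) * lvb t0 (1 + s) j (φ x) ^ 2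
      ≤ ∑ j ∈ Finset.range J, ((1 + s) ^ (8 / d : ℝ) * φ x ^ (4 / d : ℝ) +
          thr t0 (1 + s) 1 ^ (4 / d : ℝ)) * lvb t0 (1 + s) j (φ x) ^ 2 :=
        Finset.sum_le_sum fun j _ => lvb_pointwise ht0 hρ j (hφ0 x)
    _ = ((1 + s) ^ (8 / d : ℝ) * φ x ^ (4 / d : ℝ) + thr t0 (1 + s) 1 ^ (4 / d : ℝ)) *
          ∑ j ∈ Finset.range J, lvb t0 (1 + s) j (φ x) ^ 2 := by rw [← Finset.mul_sum]
    _ ≤ ((1 + s) ^ (8 / d : ℝ) * φ x ^ (4 / d : ℝ) + thr t0 (1 + s) 1 ^ (4 / d : ℝ)) *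
          φ x ^ 2 := by
        have h10 := sum_lvb_sq ht0 hρ J (φ x)
        have h11 : 0 ≤ (1 + s) ^ (8 / d : ℝ) * φ x ^ (4 / d : ℝ) +
            thr t0 (1 + s) 1 ^ (4 / d : ℝ) := by
          have := hφ0 x
          positivity
        refine mul_le_mul_of_nonneg_left ?_ h11
        have h12 := sq_nonneg (lvB t0 (1 + s) J (φ x))
        linarith
    _ = _ := by rw [add_mul, mul_assoc, hpt]

/-- arithmetic of the rank -/
lemma rank_bound (d : ℕ) {s δ N y t0 : ℝ} (hs0 : 0 < s) (hs1 : s ≤ 1 / 2) (hδ : 0 < δ)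
    (hN1 : 1 ≤ N) (hy : 0 < y) (ht0 : 0 < t0) (ht0' : t0 * (1 + s) ≤ 1) (n : ℕ)
    (hn : (1 + s) ^ n ≤ 1 + (N * y) ^ d / t0) (κ : ℕ → ℕ)
    (hκ : ∀ j, (κ j : ℝ) ≤ 2 * (N * 2 ^ d * thr t0 (1 + s) (j + 1) ^ 2 / (1 - s)))
    (D : ℕ) (hD : (D : ℝ) ≤ 2 * N / δ) :
    ((D * ∑ j ∈ Finset.range (n + 2), κ j + ((⌊2 * N / δ⌋₊ + 1) + 1) : ℕ) : ℝ) ≤
      ((2 / δ) * ((1 + y ^ d / t0) / s + 2) * (16 * 2 ^ d * (1 + y ^ d / t0) ^ 2) + (2 / δ + 2)) *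
        N ^ (3 * d + 2) := by
  have hN0 : 0 < N := by linarith
  have hρ : 1 < 1 + s := by linarith
  have h1s : 0 < 1 - s := by linarith
  obtain ⟨c1, hc1⟩ : ∃ c1, c1 = 1 + y ^ d / t0 := ⟨_, rfl⟩
  have hc1' : 1 ≤ c1 := by
    have : 0 ≤ y ^ d / t0 := by positivity
    linarith
  obtain ⟨U, hU⟩ : ∃ U, U = 1 + (N * y) ^ d / t0 := ⟨_, rfl⟩
  rw [← hc1]
  rw [← hU] at hn
  have hU1 : 1 ≤ U := by
    have : 0 ≤ (N * y) ^ d / t0 := by positivity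
    linarith
  have hUN : U ≤ c1 * N ^ d := by
    rw [hU, hc1, mul_pow]
    have h1 : (1 : ℝ) ≤ N ^ d := one_le_pow₀ hN1
    have h2 : N ^ d * y ^ d / t0 = y ^ d / t0 * N ^ d := by ring
    rw [h2]
    linarith
  have hthrJ : thr t0 (1 + s) (n + 2) ≤ 2 * U := by
    unfold thr
    rw [pow_add]
    have h1 : t0 * (1 + s) ^ 2 ≤ 3 / 2 := by nlinarith
    have h2 : t0 * ((1 + s) ^ n * (1 + s) ^ 2) = (t0 * (1 + s) ^ 2) * (1 + s) ^ n := by ring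
    rw [h2]
    calc (t0 * (1 + s) ^ 2) * (1 + s) ^ n ≤ (3 / 2) * U :=
          mul_le_mul h1 hn (by positivity) (by norm_num)
      _ ≤ 2 * U := by linarith
  have hcard : ∀ j ∈ Finset.range (n + 2), (κ j : ℝ) ≤ 16 * 2 ^ d * N * U ^ 2 := by
    intro j hj
    have h1 : thr t0 (1 + s) (j + 1) ≤ 2 * U :=
      (thr_mono ht0 hρ (by rw [Finset.mem_range] at hj; omega)).trans hthrJ
    have h3 : thr t0 (1 + s) (j + 1) ^ 2 ≤ (2 * U) ^ 2 :=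
      pow_le_pow_left₀ (thr_pos ht0 hρ _).le h1 2
    have h2 : N * 2 ^ d * thr t0 (1 + s) (j + 1) ^ 2 / (1 - s) ≤ N * 2 ^ d * (2 * U) ^ 2 * 2 := by
      rw [div_le_iff₀ h1s]
      have h4 : N * 2 ^ d * thr t0 (1 + s) (j + 1) ^ 2 ≤ N * 2 ^ d * (2 * U) ^ 2 :=
        mul_le_mul_of_nonneg_left h3 (by positivity)
      have h5 : 0 ≤ N * 2 ^ d * (2 * U) ^ 2 := by positivity
      nlinarith
    calc (κ j : ℝ) ≤ 2 * (N * 2 ^ d * thr t0 (1 + s) (j + 1) ^ 2 / (1 - s)) := hκ j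
      _ ≤ 2 * (N * 2 ^ d * (2 * U) ^ 2 * 2) := by linarith
      _ = _ := by ring
  have hJle : ((n + 2 : ℕ) : ℝ) ≤ (c1 / s + 2) * N ^ d := by
    have h1 := one_add_mul_le_pow (show (-2 : ℝ) ≤ s by linarith) n
    have h2 : (n : ℝ) * s ≤ c1 * N ^ d := by
      have : (1 + s) ^ n ≤ c1 * N ^ d := hn.trans hUN
      linarith
    have h3 : (n : ℝ) ≤ c1 / s * N ^ d := by
      rw [div_mul_eq_mul_div, le_div_iff₀ hs0]; exact h2
    have h4 : (1 : ℝ) ≤ N ^ d := one_le_pow₀ hN1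
    push_cast
    nlinarith
  have hsum : ((∑ j ∈ Finset.range (n + 2), κ j : ℕ) : ℝ) ≤
      (c1 / s + 2) * (16 * 2 ^ d * c1 ^ 2) * N ^ (3 * d + 1) := by
    push_cast
    calc ∑ j ∈ Finset.range (n + 2), (κ j : ℝ)
        ≤ ∑ j ∈ Finset.range (n + 2), 16 * 2 ^ d * N * U ^ 2 := Finset.sum_le_sum hcard
      _ = ((n + 2 : ℕ) : ℝ) * (16 * 2 ^ d * N * U ^ 2) := by
          rw [Finset.sum_const, Finset.card_range, nsmul_eq_mul]
      _ ≤ ((c1 / s + 2) * N ^ d) * (16 * 2 ^ d * N * (c1 * N ^ d) ^ 2) := by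
          refine mul_le_mul hJle ?_ (by positivity) (by positivity)
          refine mul_le_mul_of_nonneg_left ?_ (by positivity)
          exact pow_le_pow_left₀ (by linarith) hUN 2
      _ = _ := by ring
  have hfloor : ((⌊2 * N / δ⌋₊ : ℕ) : ℝ) ≤ 2 * N / δ := Nat.floor_le (by positivity)
  have hNpow : N ≤ N ^ (3 * d + 2) := by
    calc N = N ^ 1 := (pow_one N).symm
      _ ≤ N ^ (3 * d + 2) := pow_le_pow_right₀ hN1 (by omega)
  rw [Nat.cast_add, Nat.cast_mul]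
  have h1 : (D : ℝ) * ((∑ j ∈ Finset.range (n + 2), κ j : ℕ) : ℝ) ≤
      (2 * N / δ) * ((c1 / s + 2) * (16 * 2 ^ d * c1 ^ 2) * N ^ (3 * d + 1)) :=
    mul_le_mul hD hsum (Nat.cast_nonneg _) (by positivity)
  have h2 : (((⌊2 * N / δ⌋₊ + 1) + 1 : ℕ) : ℝ) ≤ (2 / δ + 2) * N ^ (3 * d + 2) := by
    push_cast
    calc ((⌊2 * N / δ⌋₊ : ℕ) : ℝ) + 1 + 1 ≤ 2 * N / δ + 2 * N := by linarith
      _ = (2 / δ + 2) * N := by ring
      _ ≤ (2 / δ + 2) * N ^ (3 * d + 2) := mul_le_mul_of_nonneg_left hNpow (by positivity)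
  have h3 : (2 * N / δ) * ((c1 / s + 2) * (16 * 2 ^ d * c1 ^ 2) * N ^ (3 * d + 1)) =
      (2 / δ) * (c1 / s + 2) * (16 * 2 ^ d * c1 ^ 2) * N ^ (3 * d + 2) := by
    rw [show 3 * d + 2 = (3 * d + 1) + 1 by ring, pow_succ N (3 * d + 1)]
    ring
  rw [h3] at h1
  linarith

/-- mass of the top level -/
lemma top_mass (hd : 1 ≤ d) {φ : Sp d → ℝ}
    (hφ0 : ∀ x, 0 ≤ φ x) (hint_p : Integrable (fun x => φ x ^ (2 + 4 / d : ℝ)) volume)
    {ρ N t0 B δ : ℝ} (hρ : 1 < ρ) (ht0 : 0 < t0) (hN1 : 1 ≤ N) (hδ : 0 < δ) (hδ1 : δ ≤ 1)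
    (hB : 0 ≤ B) (hφB : ∫ x, φ x ^ (2 + 4 / d : ℝ) ≤ B) (n : ℕ)
    (hlvBint : Integrable (fun x => lvB t0 ρ (n + 2) (φ x) ^ 2) volume)
    (hn2 : 1 + (N * ((B + 1) / δ)) ^ d / t0 < ρ ^ (n + 1)) :
    N * ∫ x, (lvB t0 ρ (n + 2) (φ x)) ^ 2 ≤ δ := by
  have hd0 : (0 : ℝ) < d := by exact_mod_cast hd
  have hN0 : 0 < N := by linarith
  obtain ⟨y, hy⟩ : ∃ y, y = (B + 1) / δ := ⟨_, rfl⟩
  have hy0 : 0 < y := by rw [hy]; positivity
  have hy1 : 1 ≤ y := by rw [hy, le_div_iff₀ hδ]; linarith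
  rw [← hy] at hn2
  have hthrn : (N * y) ^ d ≤ thr t0 ρ (n + 1) := by
    unfold thr
    have h1 : (N * y) ^ d / t0 ≤ ρ ^ (n + 1) := by linarith
    rw [div_le_iff₀ ht0] at h1
    linarith
  have hNy : 1 ≤ N * y := by nlinarith
  have h1 : N * y ≤ thr t0 ρ (n + 1) ^ (4 / d : ℝ) := by
    calc N * y = (N * y) ^ 1 := (pow_one _).symm
      _ ≤ (N * y) ^ 4 := pow_le_pow_right₀ hNy (by norm_num)
      _ = ((N * y) ^ d) ^ (4 / d : ℝ) := by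
          rw [← Real.rpow_natCast (N * y) d, ← Real.rpow_mul (by positivity),
            mul_div_cancel₀ _ hd0.ne']
          norm_cast
      _ ≤ thr t0 ρ (n + 1) ^ (4 / d : ℝ) :=
          Real.rpow_le_rpow (by positivity) hthrn (by positivity)
  have h2 : ∫ x, (lvB t0 ρ (n + 2) (φ x)) ^ 2 ≤
      (thr t0 ρ (n + 1) ^ (4 / d : ℝ))⁻¹ * ∫ x, φ x ^ (2 + 4 / d : ℝ) := by
    rw [← integral_const_mul]
    exact integral_mono hlvBint (hint_p.const_mul _) fun x => lvB_top_le ht0 hρ (n + 1) (hφ0 x)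
  have h3 : 0 < thr t0 ρ (n + 1) ^ (4 / d : ℝ) := by linarith
  calc N * ∫ x, (lvB t0 ρ (n + 2) (φ x)) ^ 2
      ≤ N * ((thr t0 ρ (n + 1) ^ (4 / d : ℝ))⁻¹ * (B + 1)) := by
        refine mul_le_mul_of_nonneg_left (h2.trans ?_) hN0.le
        refine mul_le_mul_of_nonneg_left (by linarith) (by positivity)
    _ ≤ N * ((N * y)⁻¹ * (B + 1)) := by
        refine mul_le_mul_of_nonneg_left ?_ hN0.le
        refine mul_le_mul_of_nonneg_right ?_ (by linarith)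
        exact inv_anti₀ (by positivity) h1
    _ = δ := by
        rw [hy]; field_simp

theorem bessel_system (d : ℕ) (hd : 1 ≤ d) (η B : ℝ) (hη : 0 < η) (hη1 : η ≤ 1) (hB : 0 ≤ B) :
    ∃ (C N₀ : ℝ) (A : ℕ), 0 < C ∧ 1 ≤ N₀ ∧
      ∀ (φ : Sp d → ℝ) (G : Fin d → Sp d → ℝ), IsH1 φ G → (∀ x, 0 ≤ φ x) →
        ∫ x, φ x ^ 2 ≤ 1 →
        MemLp φ (ENNReal.ofReal (2 + 4 / d)) volume → ∫ x, φ x ^ (2 + 4 / d : ℝ) ≤ B →
        ∀ N : ℝ, N₀ ≤ N →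
        ∃ (R : ℕ) (v : Fin R → Sp d → ℂ) (Dv : Fin R → Fin d → Sp d → ℂ),
          (∀ i, IsH1 (v i) (Dv i)) ∧
          (∀ x, ∑ i, ‖v i x‖ ^ 2 = N * φ x ^ 2) ∧
          (∀ x, φ x = 0 → (∀ a, G a x = 0) → ∀ i, v i x = 0 ∧ ∀ a, Dv i a x = 0) ∧
          (∀ ψ : Sp d → ℂ, MemLp ψ 2 volume →
            ∑ i, ‖∫ x, star (v i x) * ψ x‖ ^ 2 ≤ ∫ x, ‖ψ x‖ ^ 2) ∧
          (∑ i, dir (Dv i) ≤
            (1 + η) * Kcl d * N ^ (1 + 2 / d : ℝ) * ((∫ x, φ x ^ (2 + 4 / d : ℝ)) + η)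
              + C * N * (1 + dir G)) ∧
          ((R : ℝ) ≤ C * N ^ A) := by
  classical
  have hd0 : (0 : ℝ) < d := by exact_mod_cast hd
  obtain ⟨s, hs0, hs1, hs⟩ := exists_param d η hη
  obtain ⟨X0, hX0, hlat⟩ := Inp.lattice_ball d hd s hs0
  have hρ : 1 < 1 + s := by linarith
  obtain ⟨Cb, hCb1, hCb⟩ := exists_level_bounds hρ
  obtain ⟨M, hM0, hM⟩ := exists_bound_fderiv_W d
  obtain ⟨τ1, hτ1def⟩ : ∃ τ1 : ℝ, τ1 = η ^ d := ⟨_, rfl⟩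
  have hτ1 : 0 < τ1 := by rw [hτ1def]; positivity
  have hτ1' : τ1 ≤ 1 := by rw [hτ1def]; exact pow_le_one₀ hη.le hη1
  obtain ⟨t0, ht0def⟩ : ∃ t0 : ℝ, t0 = τ1 / (1 + s) := ⟨_, rfl⟩
  have ht0 : 0 < t0 := by rw [ht0def]; positivity
  have ht0ρ : t0 * (1 + s) = τ1 := by rw [ht0def]; field_simp
  have hthr1 : thr t0 (1 + s) 1 = τ1 := by
    unfold thr; rw [pow_one, ht0ρ]
  obtain ⟨δ, hδdef⟩ : ∃ δ : ℝ, δ = s / 2 ^ d := ⟨_, rfl⟩
  have hδ : 0 < δ := by rw [hδdef]; positivity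
  have hδ1 : δ ≤ 1 := by
    rw [hδdef, div_le_one (by positivity)]
    have : (1 : ℝ) ≤ 2 ^ d := one_le_pow₀ (by norm_num)
    linarith
  have hy : 0 < (B + 1) / δ := by positivity
  obtain ⟨Cg, hCgdef⟩ : ∃ Cg : ℝ, Cg = 2 ^ d * (2 * (2 * Cb + d * M ^ 2)) := ⟨_, rfl⟩
  have hCg : 0 ≤ Cg := by rw [hCgdef]; positivity
  obtain ⟨c2, hc2⟩ : ∃ c2 : ℝ, c2 = ((2 / δ) * ((1 + ((B + 1) / δ) ^ d / t0) / s + 2) *
    (16 * 2 ^ d * (1 + ((B + 1) / δ) ^ d / t0) ^ 2) + (2 / δ + 2)) := ⟨_, rfl⟩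
  have hc20 : 0 < c2 := by rw [hc2]; positivity
  refine ⟨Cg + 2 ^ d * c2, max 1 (X0 / τ1 ^ 2), 3 * d + 2, by positivity, le_max_left _ _, ?_⟩
  intro φ G h hφ0 hφ1 hφp hφB N hN
  have hN1 : 1 ≤ N := (le_max_left _ _).trans hN
  have hN0 : 0 < N := by linarith
  have hNX : X0 ≤ N * τ1 ^ 2 := by
    have := (le_max_right _ _).trans hN
    rwa [div_le_iff₀ (by positivity)] at this
  -- number of levels
  have hU1 : 1 ≤ 1 + (N * ((B + 1) / δ)) ^ d / t0 := by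
    have : 0 ≤ (N * ((B + 1) / δ)) ^ d / t0 := by positivity
    linarith
  obtain ⟨n, hn1, hn2⟩ := exists_nat_pow_near hU1 hρ
  -- lattice sets
  have h1s : 0 < 1 - s := by linarith
  have hτmono : ∀ j, τ1 ≤ thr t0 (1 + s) (j + 1) := by
    intro j
    rw [← hthr1]
    exact thr_mono ht0 hρ (by omega)
  have hXj : ∀ j, X0 ≤ N * 2 ^ d * thr t0 (1 + s) (j + 1) ^ 2 / (1 - s) := by
    intro j
    have h2 : (1 : ℝ) ≤ 2 ^ d := one_le_pow₀ (by norm_num)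
    rw [le_div_iff₀ h1s]
    have h3 : τ1 ^ 2 ≤ thr t0 (1 + s) (j + 1) ^ 2 := pow_le_pow_left₀ hτ1.le (hτmono j) 2
    have h4 : 0 ≤ N * thr t0 (1 + s) (j + 1) ^ 2 := by positivity
    calc X0 * (1 - s) ≤ X0 := by nlinarith
      _ ≤ N * τ1 ^ 2 := hNX
      _ ≤ N * thr t0 (1 + s) (j + 1) ^ 2 := mul_le_mul_of_nonneg_left h3 hN0.le
      _ ≤ 2 ^ d * (N * thr t0 (1 + s) (j + 1) ^ 2) := by nlinarith
      _ = N * 2 ^ d * thr t0 (1 + s) (j + 1) ^ 2 := by ring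
  choose KJ hKJ1 hKJ2 hKJ3 using fun j => hlat _ (hXj j)
  have hKJne : ∀ j, (KJ j).Nonempty := by
    intro j
    rw [← Finset.card_pos]
    have h1 : 0 < ((KJ j).card : ℝ) := (hX0.trans_le (hXj j)).trans_le (hKJ1 j)
    exact_mod_cast h1
  -- cells
  choose D g hD hg using fun c : Col d => exists_cells h.memLp hφ1 N δ hN0.le hδ c
  -- integrability
  have hint_p : Integrable (fun x => φ x ^ (2 + 4 / d : ℝ)) volume := by
    have hp : (0 : ℝ) < 2 + 4 / d := by positivity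
    have h1 := hφp.integrable_norm_rpow (by simpa using hp) ENNReal.ofReal_ne_top
    rw [ENNReal.toReal_ofReal hp.le] at h1
    refine h1.congr (Filter.Eventually.of_forall fun x => ?_)
    simp only
    rw [Real.norm_eq_abs, abs_of_nonneg (hφ0 x)]
  have hlvBint : ∀ j, Integrable (fun x => lvB t0 (1 + s) j (φ x) ^ 2) volume := by
    intro j
    have := Inp.IsH1.comp_C1 h (lvB t0 (1 + s) j) (lvB_contDiff t0 (1 + s) j) (by simp [lvB]) Cb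
      ((hCb t0 ht0).2.1 j)
    exact this.memLp.integrable_sq
  have hlvbint : ∀ j, Integrable (fun x => lvb t0 (1 + s) j (φ x) ^ 2) volume := by
    intro j
    have := Inp.IsH1.comp_C1 h (lvb t0 (1 + s) j) (lvb_contDiff t0 (1 + s) j) (by simp [lvb]) Cb
      ((hCb t0 ht0).1 j)
    exact this.memLp.integrable_sq
  have htop := top_mass hd hφ0 hint_p hρ ht0 hN1 hδ hδ1 hB hφB n (hlvBint (n + 2)) hn2
  obtain ⟨R, v, Dv, hR, hv1, hv2, hv3, hv4, hv5⟩ := core h hφ0 N hN0.le t0 (1 + s) ht0 hρ (n + 2)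
    KJ hKJne s δ (by linarith) hδ.le (by rw [hδdef]; field_simp; exact le_rfl)
    (fun j _ => by
      have := hKJ1 j
      rw [div_le_iff₀ h1s] at this
      linarith)
    D (⌊2 * N / δ⌋₊ + 1) g hg htop Cb (hCb t0 ht0).1 (hCb t0 ht0).2.1 (hCb t0 ht0).2.2.1
    (hCb t0 ht0).2.2.2 M hM
  refine ⟨R, v, Dv, hv1, hv2, hv3, hv4, ?_, ?_⟩
  · -- energy
    have hdir0 : 0 ≤ dir G := Finset.sum_nonneg fun a _ => integral_nonneg fun x => by positivity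
    have hφ20 : 0 ≤ ∫ x, φ x ^ 2 := integral_nonneg fun x => sq_nonneg _
    have hKcl0 : 0 ≤ Kcl d := by unfold Kcl; positivity
    have h1 : N * (2 ^ d * (2 * (2 * Cb * dir G + d * M ^ 2 * ∫ x, φ x ^ 2))) ≤
        Cg * N * (1 + dir G) := by
      have h2 : 2 * Cb * dir G + d * M ^ 2 * ∫ x, φ x ^ 2 ≤ (2 * Cb + d * M ^ 2) * (1 + dir G) := by
        have h3 : d * M ^ 2 * ∫ x, φ x ^ 2 ≤ d * M ^ 2 * 1 :=
          mul_le_mul_of_nonneg_left hφ1 (by positivity)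
        have h4 : 0 ≤ d * M ^ 2 * dir G := by positivity
        linarith
      calc N * (2 ^ d * (2 * (2 * Cb * dir G + d * M ^ 2 * ∫ x, φ x ^ 2)))
          ≤ N * (2 ^ d * (2 * ((2 * Cb + d * M ^ 2) * (1 + dir G)))) := by
            refine mul_le_mul_of_nonneg_left ?_ hN0.le
            refine mul_le_mul_of_nonneg_left ?_ (by positivity)
            linarith
        _ = _ := by rw [hCgdef]; ring
    have h5 := energy_sum hd h hφ0 hint_p hs0 hs1 hN0 ht0 (n + 2) KJ hKJne hKJ3 hlvbint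
    rw [hthr1] at h5
    have hτp : τ1 ^ (4 / d : ℝ) ≤ η := by
      have h12 : τ1 ^ (4 / d : ℝ) = η ^ 4 := by
        rw [hτ1def, ← Real.rpow_natCast η d, ← Real.rpow_mul hη.le, mul_div_cancel₀ _ hd0.ne']
        norm_cast
      rw [h12]
      calc η ^ 4 ≤ η ^ 1 := pow_le_pow_of_le_one hη.le hη1 (by norm_num)
        _ = η := pow_one η
    have hρp : 1 ≤ (1 + s) ^ (8 / d : ℝ) := Real.one_le_rpow hρ.le (by positivity)
    have hI0 : 0 ≤ ∫ x, φ x ^ (2 + 4 / d : ℝ) := integral_nonneg fun x => by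
      have := hφ0 x; positivity
    generalize (∫ x, φ x ^ (2 + 4 / d : ℝ)) = I at h5 hI0 ⊢
    have h13 : (1 + s) ^ (8 / d : ℝ) * I + τ1 ^ (4 / d : ℝ) * ∫ x, φ x ^ 2 ≤
        (1 + s) ^ (8 / d : ℝ) * (I + η) := by
      have h14 : τ1 ^ (4 / d : ℝ) * ∫ x, φ x ^ 2 ≤ η * 1 :=
        mul_le_mul hτp hφ1 hφ20 hη.le
      have h14' : η * 1 ≤ (1 + s) ^ (8 / d : ℝ) * η := by nlinarith
      linarith
    have h16 : 0 ≤ Kcl d * N ^ (1 + 2 / d : ℝ) * (I + η) := by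
      have hN2 : 0 < N ^ (1 + 2 / d : ℝ) := Real.rpow_pos_of_pos hN0 _
      exact mul_nonneg (mul_nonneg hKcl0 hN2.le) (by linarith)
    have h17 := mul_le_mul_of_nonneg_right hs h16
    have hQ0 : 0 ≤ (1 + s) * (1 - s) ^ (-(2 / d : ℝ)) * Kcl d * N ^ (1 + 2 / d : ℝ) := by
      have hN2 : 0 < N ^ (1 + 2 / d : ℝ) := Real.rpow_pos_of_pos hN0 _
      have hs2 : 0 < (1 - s) ^ (-(2 / d : ℝ)) := Real.rpow_pos_of_pos h1s _
      exact mul_nonneg (mul_nonneg (mul_nonneg (by linarith) hs2.le) hKcl0) hN2.le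
    have h18 := mul_le_mul_of_nonneg_left h13 hQ0
    have h19 : Cg * N * (1 + dir G) ≤ (Cg + 2 ^ d * c2) * N * (1 + dir G) := by
      have : 0 ≤ (2 ^ d * c2) * N * (1 + dir G) := by positivity
      linarith
    have h20 : ((1 + s) * (1 - s) ^ (-(2 / d : ℝ)) * Kcl d * N ^ (1 + 2 / d : ℝ)) *
        ((1 + s) ^ (8 / d : ℝ) * (I + η)) = (1 + s) * (1 - s) ^ (-(2 / d : ℝ)) *
        (1 + s) ^ (8 / d : ℝ) * (Kcl d * N ^ (1 + 2 / d : ℝ) * (I + η)) := by ring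
    have h21 : (1 + η) * Kcl d * N ^ (1 + 2 / d : ℝ) * (I + η) =
        (1 + η) * (Kcl d * N ^ (1 + 2 / d : ℝ) * (I + η)) := by ring
    rw [h20] at h18
    rw [h21]
    linarith
  · -- rank
    have hterm : ∀ c : Col d, (((D c).card * ∑ j ∈ Finset.range (n + 2), (KJ j).card +
        ((⌊2 * N / δ⌋₊ + 1) + 1) : ℕ) : ℝ) ≤ c2 * N ^ (3 * d + 2) := by
      intro c
      rw [hc2]
      exact rank_bound d hs0 hs1 hδ hN1 hy ht0 (by rw [ht0ρ]; exact hτ1') n hn1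
        (fun j => (KJ j).card) hKJ2 (D c).card (hD c)
    have hRle : (R : ℝ) ≤ 2 ^ d * c2 * N ^ (3 * d + 2) := by
      rw [hR, Nat.cast_sum]
      refine (Finset.sum_le_sum fun c _ => hterm c).trans (le_of_eq ?_)
      rw [Finset.sum_const, Finset.card_univ, nsmul_eq_mul]
      simp only [Fintype.card_pi, Fintype.card_fin, Finset.prod_const, Finset.card_univ]
      push_cast
      ring
    refine hRle.trans ?_
    have h22 : 0 ≤ Cg * N ^ (3 * d + 2) := mul_nonneg hCg (pow_nonneg hN0.le _)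
    linarith

end Pool.Agent.Helper43.LL
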