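import Mathlib
import Pool.Agent.Helper1.LL.Defs

/-!
# Levy-Lieb, task B: lattice points in a ball
-/

open MeasureTheory Filter Topology Module
open scoped ENNReal Pointwise

noncomputable section

namespace Pool.Agent.Helper43.LL

open Pool.Agent.Helper1.LL

/-- Euclidean unit ball, seen in `Fin d → ℝ`. -/
def eBall (d : ℕ) : Set (Fin d → ℝ) := {x | ∑ a, (x a) ^ 2 < 1}

theorem eBall_eq (d : ℕ) :
    eBall d = (WithLp.toLp 2 : (Fin d → ℝ) → Sp d) ⁻¹' (Metric.ball (0 : Sp d) 1) := by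
  ext x
  simp only [eBall, Set.mem_ofPred_eq, Set.mem_preimage, mem_ball_zero_iff]
  rw [EuclideanSpace.norm_eq]
  simp only [Real.norm_eq_abs, sq_abs]
  rw [Real.sqrt_lt' one_pos]
  simp

theorem eBall_isOpen (d : ℕ) : IsOpen (eBall d) := by
  unfold eBall
  exact isOpen_lt (by fun_prop) continuous_const

theorem eBall_convex (d : ℕ) : Convex ℝ (eBall d) := by
  rw [eBall_eq]
  have h := (convex_ball (0 : Sp d) 1).is_linear_preimage
    (f := (WithLp.toLp 2 : (Fin d → ℝ) → Sp d)) ⟨fun _ _ => rfl, fun _ _ => rfl⟩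
  exact h

theorem eBall_bounded (d : ℕ) : Bornology.IsBounded (eBall d) := by
  refine (Metric.isBounded_ball (x := (0 : Fin d → ℝ)) (r := 2)).subset ?_
  intro x hx
  rw [mem_ball_zero_iff, pi_norm_lt_iff (by norm_num)]
  intro a
  have h1 : (x a) ^ 2 ≤ ∑ b, (x b) ^ 2 :=
    Finset.single_le_sum (f := fun b => (x b) ^ 2) (fun b _ => sq_nonneg _) (Finset.mem_univ a)
  have h2 : (x a) ^ 2 < 1 := lt_of_le_of_lt h1 hx
  rw [Real.norm_eq_abs]
  have := abs_lt_of_sq_lt_sq (a := x a) (b := 1) (by simpa using h2) (by norm_num)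
  linarith

theorem eBall_frontier (d : ℕ) : volume (frontier (eBall d)) = 0 :=
  (eBall_convex d).addHaar_frontier volume

theorem eBall_volume (d : ℕ) :
    volume.real (eBall d) = volume.real (Metric.ball (0 : Sp d) 1) := by
  rw [eBall_eq, Measure.real, Measure.real]
  congr 1
  have h := PiLp.volume_preserving_toLp (Fin d)
  exact h.measure_preimage Metric.isOpen_ball.measurableSet.nullMeasurableSet

theorem ball_second_moment (d : ℕ) (hd : 1 ≤ d) :
    ∫ x in Metric.ball (0 : Sp d) 1, ‖x‖ ^ 2 =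
      (d : ℝ) / (d + 2) * volume.real (Metric.ball (0 : Sp d) 1) := by
  have : Nonempty (Fin d) := ⟨⟨0, hd⟩⟩
  have : Nontrivial (Sp d) := inferInstance
  have h := integral_fun_norm_addHaar (μ := (volume : Measure (Sp d)))
    (fun r : ℝ => if r < 1 then r ^ 2 else 0)
  have h1 : ∫ x in Metric.ball (0 : Sp d) 1, ‖x‖ ^ 2
      = ∫ x : Sp d, (fun r : ℝ => if r < 1 then r ^ 2 else 0) ‖x‖ := by
    rw [← integral_indicator Metric.isOpen_ball.measurableSet]
    congr 1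
    funext x
    simp only [Set.indicator, mem_ball_zero_iff]
  rw [h1, h]
  have hdim : finrank ℝ (Sp d) = d := by simp
  rw [hdim]
  have h2 : ∫ y in Set.Ioi (0 : ℝ), y ^ (d - 1) • (if y < 1 then y ^ 2 else 0)
      = ∫ y in Set.Ioc (0 : ℝ) 1, y ^ (d + 1) := by
    have e1 : ∀ y : ℝ, y ^ (d - 1) • (if y < 1 then y ^ 2 else 0)
        = (Set.Iio (1 : ℝ)).indicator (fun y => y ^ (d + 1)) y := by
      intro y
      by_cases hy : y < 1
      · rw [Set.indicator_of_mem (by exact hy), if_pos hy, smul_eq_mul, ← pow_add]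
        congr 1; omega
      · rw [Set.indicator_of_notMem (by simpa using hy), if_neg hy, smul_zero]
    simp_rw [e1]
    rw [setIntegral_indicator measurableSet_Iio, Set.Ioi_inter_Iio, ← integral_Ioc_eq_integral_Ioo]
  rw [h2, ← intervalIntegral.integral_of_le zero_le_one, integral_pow]
  simp only [smul_eq_mul, nsmul_eq_mul]
  have : (0 : ℝ) < d + 2 := by positivity
  push_cast
  field_simp
  ring_nf

theorem eBall_second_moment (d : ℕ) (hd : 1 ≤ d) :
    ∫ x in eBall d, ∑ a, (x a) ^ 2 =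
      (d : ℝ) / (d + 2) * volume.real (Metric.ball (0 : Sp d) 1) := by
  rw [← ball_second_moment d hd]
  have h := PiLp.volume_preserving_toLp (Fin d)
  rw [eBall_eq, ← h.setIntegral_preimage_emb (MeasurableEquiv.toLp 2 _).measurableEmbedding]
  congr 1
  funext x
  rw [EuclideanSpace.norm_eq, Real.sq_sqrt (Finset.sum_nonneg fun _ _ => sq_nonneg _)]
  simp

/-- integer points `k` with `|k| < n`. -/
def latBall (d n : ℕ) : Finset (Fin d → ℤ) :=
  (Fintype.piFinset (fun _ : Fin d => Finset.Icc (-(n : ℤ)) n)).filter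
    (fun k => ∑ a, (k a) ^ 2 < (n : ℤ) ^ 2)

theorem mem_latBall {d n : ℕ} {k : Fin d → ℤ} :
    k ∈ latBall d n ↔ ∑ a, (k a) ^ 2 < (n : ℤ) ^ 2 := by
  unfold latBall
  simp only [Finset.mem_filter, Fintype.mem_piFinset, Finset.mem_Icc, and_iff_right_iff_imp]
  intro h a
  have h1 : (k a) ^ 2 ≤ ∑ b, (k b) ^ 2 :=
    Finset.single_le_sum (f := fun b => (k b) ^ 2) (fun b _ => sq_nonneg _) (Finset.mem_univ a)
  have h2 : |k a| < (n : ℤ) := abs_lt_of_sq_lt_sq (by linarith) (by positivity)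
  rw [abs_lt] at h2
  omega

/-- bijection between `latBall` and the scaled lattice points in the ball. -/
theorem tsum_eq (d n : ℕ) (hn : 0 < n) (F : (Fin d → ℝ) → ℝ) :
    (∑' x : ↑(eBall d ∩ (n : ℝ)⁻¹ • (Submodule.span ℤ (Set.range (Pi.basisFun ℝ (Fin d))) :
      Set (Fin d → ℝ))), F x) = ∑ k ∈ latBall d n, F (fun a => (k a : ℝ) / n) := by
  classical
  have hn' : (n : ℝ) ≠ 0 := by positivity
  rw [← Finset.sum_coe_sort (latBall d n) (fun k => F (fun a => (k a : ℝ) / n)), ← tsum_fintype (L := SummationFilter.unconditional _)]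
  symm
  have hmem : ∀ k : latBall d n, (fun a => ((k : Fin d → ℤ) a : ℝ) / n) ∈
      (eBall d ∩ (n : ℝ)⁻¹ • (Submodule.span ℤ (Set.range (Pi.basisFun ℝ (Fin d))) :
      Set (Fin d → ℝ))) := by
    rintro ⟨k, hk⟩
    refine ⟨?_, ?_⟩
    · rw [mem_latBall] at hk
      simp only [eBall, Set.mem_ofPred_eq, div_pow]
      rw [← Finset.sum_div, div_lt_one (by positivity)]
      exact_mod_cast hk
    · refine ⟨fun a => (k a : ℝ), ?_, ?_⟩
      · rw [SetLike.mem_coe, Module.Basis.mem_span_iff_repr_mem]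
        intro a
        exact ⟨k a, by simp⟩
      · funext a
        simp [div_eq_inv_mul]
  let f : latBall d n → ↑(eBall d ∩ (n : ℝ)⁻¹ •
      (Submodule.span ℤ (Set.range (Pi.basisFun ℝ (Fin d))) : Set (Fin d → ℝ))) :=
    fun k => ⟨_, hmem k⟩
  have hf : Function.Bijective f := by
    constructor
    · rintro ⟨k, hk⟩ ⟨l, hl⟩ h
      simp only [f, Subtype.mk.injEq] at h
      apply Subtype.ext
      funext a
      have := congrFun h a
      have h2 : (k a : ℝ) = l a := by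
        field_simp at this
        exact this
      exact_mod_cast h2
    · rintro ⟨x, hx1, y, hy, rfl⟩
      rw [SetLike.mem_coe, Module.Basis.mem_span_iff_repr_mem] at hy
      choose k hk using hy
      have hk' : ∀ a, (k a : ℝ) = y a := by
        intro a
        have := hk a
        simpa using this
      refine ⟨⟨k, ?_⟩, ?_⟩
      · rw [mem_latBall]
        have h := hx1
        simp only [eBall, Set.mem_ofPred_eq, Pi.smul_apply, smul_eq_mul, mul_pow] at h
        rw [← Finset.mul_sum] at h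
        have h2 : ∑ a, (y a) ^ 2 < (n : ℝ) ^ 2 := by
          have h3 := mul_lt_mul_of_pos_left h (show (0 : ℝ) < (n : ℝ) ^ 2 by positivity)
          rw [← mul_assoc] at h3
          simpa [hn'] using h3
        simp_rw [← hk'] at h2
        exact_mod_cast h2
      · apply Subtype.ext
        funext a
        simp only [f, Pi.smul_apply, smul_eq_mul]
        rw [hk' a, div_eq_inv_mul]
  exact (Equiv.ofBijective f hf).tsum_eq
    (fun x : ↑(eBall d ∩ (n : ℝ)⁻¹ •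
      (Submodule.span ℤ (Set.range (Pi.basisFun ℝ (Fin d))) : Set (Fin d → ℝ))) => F x)

theorem lat_card_tendsto (d : ℕ) :
    Tendsto (fun n : ℕ => ((latBall d n).card : ℝ) / (n : ℝ) ^ d) atTop
      (𝓝 (volume.real (Metric.ball (0 : Sp d) 1))) := by
  have h := tendsto_tsum_div_pow_atTop_integral (eBall d) (fun _ => (1 : ℝ)) continuous_const
    (eBall_bounded d) (eBall_isOpen d).measurableSet (eBall_frontier d)
  rw [setIntegral_const, smul_eq_mul, mul_one, eBall_volume] at h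
  refine h.congr' ?_
  filter_upwards [eventually_gt_atTop 0] with n hn
  rw [tsum_eq d n hn (fun _ => 1)]
  simp

theorem lat_moment_tendsto (d : ℕ) (hd : 1 ≤ d) :
    Tendsto (fun n : ℕ => (∑ k ∈ latBall d n, ∑ a, ((k a : ℝ)) ^ 2) / (n : ℝ) ^ (d + 2)) atTop
      (𝓝 ((d : ℝ) / (d + 2) * volume.real (Metric.ball (0 : Sp d) 1))) := by
  have h := tendsto_tsum_div_pow_atTop_integral (eBall d) (fun x => ∑ a, (x a) ^ 2)
    (by fun_prop) (eBall_bounded d) (eBall_isOpen d).measurableSet (eBall_frontier d)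
  rw [eBall_second_moment d hd] at h
  refine h.congr' ?_
  filter_upwards [eventually_gt_atTop 0] with n hn
  rw [tsum_eq d n hn (fun x => ∑ a, (x a) ^ 2)]
  have hn' : (n : ℝ) ≠ 0 := by positivity
  simp only [div_pow, ← Finset.sum_div, Fintype.card_fin]
  rw [div_div, ← pow_add, add_comm 2 d]

/-- B. -/
theorem lattice_ball (d : ℕ) (hd : 1 ≤ d) (η : ℝ) (hη : 0 < η) :
    ∃ X₀ : ℝ, 0 < X₀ ∧ ∀ X : ℝ, X₀ ≤ X → ∃ K : Finset (Fin d → ℤ),
      X ≤ K.card ∧ (K.card : ℝ) ≤ 2 * X ∧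
      ∑ k ∈ K, ∑ a, ((k a : ℝ)) ^ 2 ≤
        (1 + η) * ((d : ℝ) / (d + 2)) * K.card *
          (X / volume.real (Metric.ball (0 : Sp d) 1)) ^ (2 / d : ℝ) := by
  set ω : ℝ := volume.real (Metric.ball (0 : Sp d) 1) with hω
  have : Nonempty (Fin d) := ⟨⟨0, hd⟩⟩
  have hω0 : 0 < ω := by
    rw [hω]
    exact ENNReal.toReal_pos (Metric.measure_ball_pos volume _ one_pos).ne'
      (measure_ball_lt_top).ne
  have hd0 : (0 : ℝ) < d := by exact_mod_cast hd
  -- choice of δ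
  obtain ⟨δ, hδ0, hδ1, hδ2⟩ : ∃ δ : ℝ, 0 < δ ∧ (1 + δ) * (1 + 2 * δ) ^ d < 2 ∧
      (1 + δ) ^ 2 * (1 + 2 * δ) ^ 2 < 1 + η := by
    have c1 : Tendsto (fun δ : ℝ => (1 + δ) * (1 + 2 * δ) ^ d) (𝓝[>] 0) (𝓝 1) := by
      have : ContinuousAt (fun δ : ℝ => (1 + δ) * (1 + 2 * δ) ^ d) 0 := by fun_prop
      have h2 := this.tendsto
      simp only [add_zero, mul_zero, one_pow, mul_one] at h2
      exact h2.mono_left nhdsWithin_le_nhds
    have c2 : Tendsto (fun δ : ℝ => (1 + δ) ^ 2 * (1 + 2 * δ) ^ 2) (𝓝[>] 0) (𝓝 1) := by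
      have : ContinuousAt (fun δ : ℝ => (1 + δ) ^ 2 * (1 + 2 * δ) ^ 2) 0 := by fun_prop
      have h2 := this.tendsto
      simp only [add_zero, mul_zero, one_pow, mul_one] at h2
      exact h2.mono_left nhdsWithin_le_nhds
    have e1 := c1.eventually (gt_mem_nhds (show (1 : ℝ) < 2 by norm_num))
    have e2 := c2.eventually (gt_mem_nhds (show (1 : ℝ) < 1 + η by linarith))
    obtain ⟨δ, h1, h2, h3⟩ := (e1.and (e2.and self_mem_nhdsWithin)).exists
    exact ⟨δ, h3, h1, h2⟩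
  -- eventual bounds
  have a1 : ∀ᶠ n : ℕ in atTop, ω / (1 + δ) < ((latBall d n).card : ℝ) / (n : ℝ) ^ d :=
    (lat_card_tendsto d).eventually (lt_mem_nhds (by
      rw [← hω, div_lt_iff₀ (by positivity)]; nlinarith))
  have a2 : ∀ᶠ n : ℕ in atTop, ((latBall d n).card : ℝ) / (n : ℝ) ^ d < (1 + δ) * ω :=
    (lat_card_tendsto d).eventually (gt_mem_nhds (by rw [← hω]; nlinarith))
  have a3 : ∀ᶠ n : ℕ in atTop, (∑ k ∈ latBall d n, ∑ a, ((k a : ℝ)) ^ 2) / (n : ℝ) ^ (d + 2)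
      < (1 + δ) * ((d : ℝ) / (d + 2) * ω) :=
    (lat_moment_tendsto d hd).eventually (gt_mem_nhds (by
      rw [← hω]
      have : 0 < (d : ℝ) / (d + 2) * ω := by positivity
      nlinarith))
  obtain ⟨n₀, hn₀⟩ := eventually_atTop.1 ((a1.and (a2.and a3)).and (eventually_gt_atTop 0))
  refine ⟨max ω (ω * (max (n₀ : ℝ) δ⁻¹) ^ d), by positivity, ?_⟩
  intro X hX
  have hX1 : ω ≤ X := (le_max_left _ _).trans hX
  have hX2 : ω * (max (n₀ : ℝ) δ⁻¹) ^ d ≤ X := (le_max_right _ _).trans hX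
  have hX0 : 0 < X := hω0.trans_le hX1
  set t : ℝ := (X / ω) ^ (1 / d : ℝ) with ht
  have hXω : 0 < X / ω := by positivity
  have ht0 : 0 < t := Real.rpow_pos_of_pos hXω _
  have htd : t ^ d = X / ω := by
    rw [ht, ← Real.rpow_natCast, ← Real.rpow_mul hXω.le]
    rw [one_div, inv_mul_cancel₀ hd0.ne', Real.rpow_one]
  have ht2 : t ^ 2 = (X / ω) ^ (2 / d : ℝ) := by
    rw [ht, ← Real.rpow_natCast, ← Real.rpow_mul hXω.le]
    congr 1
    push_cast
    ring
  have htge : max (n₀ : ℝ) δ⁻¹ ≤ t := by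
    have h1 : (max (n₀ : ℝ) δ⁻¹) ^ d ≤ t ^ d := by
      rw [htd, le_div_iff₀ hω0, mul_comm]
      exact hX2
    exact le_of_pow_le_pow_left₀ (by omega) ht0.le h1
  set n : ℕ := ⌈(1 + δ) * t⌉₊ with hn
  have hn1 : (1 + δ) * t ≤ n := Nat.le_ceil _
  have hn2 : (n : ℝ) ≤ (1 + 2 * δ) * t := by
    have h1 : (n : ℝ) < (1 + δ) * t + 1 := Nat.ceil_lt_add_one (by positivity)
    have h2 : 1 ≤ δ * t := by
      have := (le_max_right (n₀ : ℝ) δ⁻¹).trans htge
      have h3 := mul_le_mul_of_nonneg_left this hδ0.le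
      rwa [mul_inv_cancel₀ hδ0.ne'] at h3
    nlinarith
  have hnn₀ : n₀ ≤ n := by
    have h1 : (n₀ : ℝ) ≤ n := by
      have := (le_max_left (n₀ : ℝ) δ⁻¹).trans htge
      nlinarith
    exact_mod_cast h1
  obtain ⟨⟨b1, b2, b3⟩, b4⟩ := hn₀ n hnn₀
  have hn0 : (0 : ℝ) < n := by exact_mod_cast b4
  set C : ℝ := ((latBall d n).card : ℝ) with hC
  rw [lt_div_iff₀ (by positivity)] at b1
  rw [div_lt_iff₀ (by positivity)] at b2 b3
  refine ⟨latBall d n, ?_, ?_, ?_⟩
  · -- lower bound on the cardinality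
    rw [← hC]
    have h1 : ((1 + δ) * t) ^ d ≤ (n : ℝ) ^ d := pow_le_pow_left₀ (by positivity) hn1 d
    rw [mul_pow, htd] at h1
    have h2 : (1 + δ) ≤ (1 + δ) ^ d := by
      calc (1 + δ) = (1 + δ) ^ 1 := (pow_one _).symm
        _ ≤ (1 + δ) ^ d := pow_le_pow_right₀ (by linarith) hd
    have h3 : X = ω / (1 + δ) * ((1 + δ) * (X / ω)) := by
      field_simp
    have h4 : (1 + δ) * (X / ω) ≤ (n : ℝ) ^ d :=
      (mul_le_mul_of_nonneg_right h2 hXω.le).trans h1
    calc X = ω / (1 + δ) * ((1 + δ) * (X / ω)) := h3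
      _ ≤ ω / (1 + δ) * (n : ℝ) ^ d := by gcongr
      _ ≤ C := b1.le
  · rw [← hC]
    have h1 : (n : ℝ) ^ d ≤ ((1 + 2 * δ) * t) ^ d := pow_le_pow_left₀ hn0.le hn2 d
    rw [mul_pow, htd] at h1
    calc C ≤ (1 + δ) * ω * (n : ℝ) ^ d := b2.le
      _ ≤ (1 + δ) * ω * ((1 + 2 * δ) ^ d * (X / ω)) := by gcongr
      _ = ((1 + δ) * (1 + 2 * δ) ^ d) * X := by field_simp
      _ ≤ 2 * X := by gcongr
  · rw [← hC, ← ht2]
    have h1 : (n : ℝ) ^ 2 ≤ ((1 + 2 * δ) * t) ^ 2 := pow_le_pow_left₀ hn0.le hn2 2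
    have h2 : ω * (n : ℝ) ^ d ≤ (1 + δ) * C := by
      have := b1.le
      rw [div_mul_eq_mul_div, div_le_iff₀ (by positivity)] at this
      linarith
    calc ∑ k ∈ latBall d n, ∑ a, ((k a : ℝ)) ^ 2
        ≤ (1 + δ) * ((d : ℝ) / (d + 2) * ω) * (n : ℝ) ^ (d + 2) := b3.le
      _ = (1 + δ) * ((d : ℝ) / (d + 2)) * (ω * (n : ℝ) ^ d) * (n : ℝ) ^ 2 := by ring
      _ ≤ (1 + δ) * ((d : ℝ) / (d + 2)) * ((1 + δ) * C) * ((1 + 2 * δ) * t) ^ 2 := by gcongr
      _ = ((1 + δ) ^ 2 * (1 + 2 * δ) ^ 2) * ((d : ℝ) / (d + 2)) * C * t ^ 2 := by ring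
      _ ≤ (1 + η) * ((d : ℝ) / (d + 2)) * C * t ^ 2 := by
        have : 0 ≤ C := by rw [hC]; positivity
        gcongr

end Pool.Agent.Helper43.LL
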